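import Pool.Agent.Q225.CofDefs

set_option autoImplicit false

namespace Pool.Agent.Q225.Cof

open MvPolynomial

/-! ### The derivation along a point -/

section alg

variable (a : Fin 3 → ℝ)

/-- the Euler derivation with centre `a` -/
noncomputable def Eu : P3 →ₗ[ℝ] P3 where
  toFun f := ∑ i, (X i - MvPolynomial.C (a i)) * pderiv i f
  map_add' := by
    intro f g
    simp only [map_add, mul_add, Finset.sum_add_distrib]
  map_smul' := by
    intro r f
    simp only [Derivation.map_smul, RingHom.id_apply, Finset.smul_sum, mul_smul_comm]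

theorem Eu_apply (f : P3) : Eu a f = ∑ i : Fin 3, (X i - MvPolynomial.C (a i)) * pderiv i f := rfl

theorem Eu_mul (f g : P3) : Eu a (f * g) = Eu a f * g + f * Eu a g := by
  rw [Eu_apply, Eu_apply, Eu_apply]
  simp only [pderiv_mul, Finset.sum_mul, Finset.mul_sum, ← Finset.sum_add_distrib]
  exact Finset.sum_congr rfl fun i _ => by ring

theorem Eu_one : Eu a 1 = 0 := by
  rw [Eu_apply]
  refine Finset.sum_eq_zero fun i _ => ?_
  rw [← MvPolynomial.C_1, pderiv_C, mul_zero]

theorem Eu_C (r : ℝ) : Eu a (MvPolynomial.C r) = 0 := by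
  rw [Eu_apply]
  refine Finset.sum_eq_zero fun i _ => ?_
  rw [pderiv_C, mul_zero]

theorem Eu_X (j : Fin 3) : Eu a (X j) = X j - MvPolynomial.C (a j) := by
  rw [Eu_apply]
  rw [Finset.sum_eq_single j]
  · rw [pderiv_X_self, mul_one]
  · intro i _ hij
    rw [pderiv_X_of_ne hij.symm, mul_zero]
  · simp

/-- affine forms -/
def IsAff (l : P3) : Prop := ∃ r s t u : ℝ, l = aff r s t u

theorem Eu_aff {l : P3} (h : IsAff l) : Eu a l = l - MvPolynomial.C (eval a l) := by
  obtain ⟨r, s, t, u, rfl⟩ := h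
  unfold aff
  simp only [map_add, Eu_mul, Eu_C, Eu_X, map_mul, eval_X, eval_C]
  ring

/-- `D_n f = n f - E f` -/
noncomputable def D (n : ℕ) : P3 →ₗ[ℝ] P3 := (n : ℝ) • LinearMap.id - Eu a

theorem D_apply (n : ℕ) (f : P3) : D a n f = (n : ℝ) • f - Eu a f := rfl

theorem D_smul_one (n : ℕ) (f : P3) : D a n f = MvPolynomial.C (n : ℝ) * f - Eu a f := by
  rw [D_apply, MvPolynomial.smul_eq_C_mul]

/-- product with an affine form -/
theorem D_aff_mul {l : P3} (h : IsAff l) (n : ℕ) (f : P3) :
    D a (n + 1) (l * f) = MvPolynomial.C (eval a l) * f + l * D a n f := by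
  rw [D_smul_one, D_smul_one, Eu_mul, Eu_aff a h]
  push_cast
  simp only [map_add, map_one, map_natCast]
  ring

theorem D_aff_pow {l : P3} (h : IsAff l) (n : ℕ) :
    D a n (l ^ n) = MvPolynomial.C ((n : ℝ) * eval a l) * l ^ (n - 1) := by
  induction n with
  | zero => rw [pow_zero, D_smul_one, Eu_one]; simp
  | succ n ih =>
    rw [pow_succ', D_aff_mul a h, ih, Nat.add_sub_cancel]
    cases n with
    | zero => simp
    | succ n =>
      rw [Nat.add_sub_cancel]
      simp only [map_mul, map_natCast]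
      push_cast
      ring

/-- `D` on powers of a submodule of affine forms -/
theorem D_mem_pow (W : Submodule ℝ P3) (hW : ∀ l ∈ W, IsAff l) (n : ℕ) :
    ∀ f ∈ W ^ (n + 1), D a (n + 1) f ∈ W ^ n := by
  induction n with
  | zero =>
    intro f hf
    rw [zero_add, pow_one] at hf
    rw [pow_zero]
    have := D_aff_mul a (hW f hf) 0 1
    rw [mul_one] at this
    rw [this, D_smul_one, Eu_one]
    simp only [CharP.cast_eq_zero, map_zero, sub_zero, mul_zero, add_zero, mul_one]
    rw [Submodule.mem_one]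
    exact ⟨eval a f, rfl⟩
  | succ n ih =>
    intro f hf
    rw [pow_succ'] at hf
    refine Submodule.mul_induction_on hf ?_ ?_
    · intro l hl g hg
      rw [D_aff_mul a (hW l hl)]
      refine Submodule.add_mem _ ?_ ?_
      · rw [← MvPolynomial.smul_eq_C_mul]
        exact Submodule.smul_mem _ _ hg
      · rw [pow_succ']
        exact Submodule.mul_mem_mul hl (ih g hg)
    · intro f g hf hg
      rw [map_add]
      exact Submodule.add_mem _ hf hg

theorem D_zero_const (W : Submodule ℝ P3) (f : P3) (hf : f ∈ W ^ 0) : D a 0 f = 0 := by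
  rw [pow_zero, Submodule.mem_one] at hf
  obtain ⟨r, rfl⟩ := hf
  rw [D_smul_one]
  have : (algebraMap ℝ P3) r = MvPolynomial.C r := rfl
  rw [this, Eu_C]
  simp

/-- surjectivity -/
theorem D_surj (W : Submodule ℝ P3) (hW : ∀ l ∈ W, IsAff l) (u : P3) (hu : u ∈ W)
    (hua : eval a u = 1) (n : ℕ) : ∀ (k : ℕ) (g : P3), g ∈ W ^ n →
      ∃ f ∈ W ^ (n + k + 1), D a (n + k + 1) f = u ^ k * g := by
  have hmul : ∀ (j m : ℕ) (g : P3), D a (m + j) (u ^ j * g)
      = MvPolynomial.C (j : ℝ) * (u ^ (j - 1) * g) + u ^ j * D a m g := by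
    intro j
    induction j with
    | zero => intro m g; simp
    | succ j ih =>
      intro m g
      rw [pow_succ', mul_assoc, ← add_assoc, D_aff_mul a (hW u hu), ih, hua]
      cases j with
      | zero => simp
      | succ j =>
        simp only [Nat.add_sub_cancel, map_natCast, map_one]
        push_cast
        ring
  have hpow : ∀ (j m : ℕ) (g : P3), g ∈ W ^ m → u ^ j * g ∈ W ^ (m + j) := by
    intro j m g hg
    rw [add_comm, pow_add]
    exact Submodule.mul_mem_mul (Submodule.pow_mem_pow _ hu j) hg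
  induction n with
  | zero =>
    intro k g hg
    refine ⟨MvPolynomial.C ((k + 1 : ℝ)⁻¹) * (u ^ (k + 1) * g), ?_, ?_⟩
    · rw [← MvPolynomial.smul_eq_C_mul]
      exact Submodule.smul_mem _ _ (hpow (k + 1) 0 g hg)
    · rw [← MvPolynomial.smul_eq_C_mul, map_smul]
      have h1 := hmul (k + 1) 0 g
      rw [D_zero_const a W g hg, mul_zero, add_zero, Nat.add_sub_cancel] at h1
      rw [add_assoc, h1, MvPolynomial.smul_eq_C_mul, ← mul_assoc, ← map_mul]
      have h2 : ((k + 1 : ℝ)⁻¹ * ((k + 1 : ℕ) : ℝ)) = 1 := by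
        push_cast
        exact inv_mul_cancel₀ (by positivity)
      rw [h2, map_one, one_mul]
  | succ n ih =>
    intro k g hg
    have h1 := hmul (k + 1) (n + 1) g
    rw [Nat.add_sub_cancel] at h1
    have hDg : D a (n + 1) g ∈ W ^ n := D_mem_pow a W hW n g hg
    obtain ⟨f1, hf1, hf2⟩ := ih (k + 1) (D a (n + 1) g) hDg
    refine ⟨MvPolynomial.C ((k + 1 : ℝ)⁻¹) * (u ^ (k + 1) * g - f1), ?_, ?_⟩
    · rw [← MvPolynomial.smul_eq_C_mul]
      refine Submodule.smul_mem _ _ (Submodule.sub_mem _ (hpow (k + 1) (n + 1) g hg) ?_)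
      have e : n + 1 + k + 1 = n + (k + 1) + 1 := by ring
      rw [e]; exact hf1
    · rw [← MvPolynomial.smul_eq_C_mul, map_smul, map_sub]
      have e : n + 1 + k + 1 = n + (k + 1) + 1 := by ring
      have e' : n + 1 + (k + 1) = n + 1 + k + 1 := by ring
      rw [e'] at h1
      rw [h1, e, hf2, MvPolynomial.smul_eq_C_mul]
      rw [add_sub_cancel_right, ← mul_assoc, ← map_mul]
      have h2 : ((k + 1 : ℝ)⁻¹ * ((k + 1 : ℕ) : ℝ)) = 1 := by
        push_cast
        exact inv_mul_cancel₀ (by positivity)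
      rw [h2, map_one, one_mul]

/-- the equation `c g + u D g = 0` -/
theorem D_aux (W : Submodule ℝ P3) (hW : ∀ l ∈ W, IsAff l) (u : P3) (hu : u ∈ W)
    (hua : eval a u = 1) (n : ℕ) : ∀ (c : ℝ) (g : P3), 0 < c → g ∈ W ^ n →
      MvPolynomial.C c * g + u * D a n g = 0 → g = 0 := by
  have hC : ∀ c : ℝ, 0 < c → ∀ g : P3, MvPolynomial.C c * g = 0 → g = 0 := by
    intro c hc g h
    rw [← MvPolynomial.smul_eq_C_mul] at h
    exact (smul_eq_zero.mp h).resolve_left hc.ne'
  induction n with
  | zero =>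
    intro c g hc hg h
    rw [D_zero_const a W g hg, mul_zero, add_zero] at h
    exact hC c hc g h
  | succ n ih =>
    intro c g hc hg h
    have hDg : D a (n + 1) g ∈ W ^ n := D_mem_pow a W hW n g hg
    have h1 : D a (n + 1) (MvPolynomial.C c * g + u * D a (n + 1) g) = 0 := by
      rw [h, map_zero]
    rw [map_add, D_aff_mul a (hW u hu), hua, ← MvPolynomial.smul_eq_C_mul, map_smul,
      MvPolynomial.smul_eq_C_mul] at h1
    have h2 : MvPolynomial.C (c + 1) * D a (n + 1) g + u * D a n (D a (n + 1) g) = 0 := by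
      rw [map_add]
      linear_combination h1
    have h3 := ih (c + 1) _ (by linarith) hDg h2
    rw [h3, mul_zero, add_zero] at h
    exact hC c hc g h

theorem D_zero_of_eval (W' : Submodule ℝ P3) (hW : ∀ l ∈ W', IsAff l)
    (hW' : ∀ l ∈ W', eval a l = 0) (n : ℕ) : ∀ f ∈ W' ^ n, D a n f = 0 := by
  induction n with
  | zero => exact D_zero_const a W'
  | succ n ih =>
    intro f hf
    rw [pow_succ'] at hf
    refine Submodule.mul_induction_on hf ?_ ?_
    · intro l hl g hg
      rw [D_aff_mul a (hW l hl), hW' l hl, ih g hg]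
      simp
    · intro f g hf hg
      rw [map_add, hf, hg, add_zero]

/-- kernel -/
theorem D_ker (W W' : Submodule ℝ P3) (hW : ∀ l ∈ W, IsAff l)
    (hW' : ∀ l, l ∈ W' ↔ l ∈ W ∧ eval a l = 0) (u : P3) (hu : u ∈ W) (hua : eval a u = 1) (n : ℕ)
    (f : P3) (hf : f ∈ W ^ n) : D a n f = 0 ↔ f ∈ W' ^ n := by
  have hsub : W' ≤ W := fun l hl => ((hW' l).mp hl).1
  constructor
  · intro h
    have hdec : ∀ n, ∀ f ∈ W ^ (n + 1), ∃ m ∈ W' ^ (n + 1), ∃ g ∈ W ^ n, f = m + u * g := by
      intro n
      induction n with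
      | zero =>
        intro f hf
        rw [zero_add, pow_one] at hf
        refine ⟨f - MvPolynomial.C (eval a f) * u, ?_, MvPolynomial.C (eval a f), ?_, by ring⟩
        · rw [zero_add, pow_one, hW']
          refine ⟨Submodule.sub_mem _ hf ?_, ?_⟩
          · rw [← MvPolynomial.smul_eq_C_mul]
            exact Submodule.smul_mem _ _ hu
          · simp [hua]
        · rw [pow_zero, Submodule.mem_one]
          exact ⟨eval a f, rfl⟩
      | succ n ih =>
        intro f hf
        rw [pow_succ'] at hf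
        refine Submodule.mul_induction_on hf ?_ ?_
        · intro l hl g hg
          obtain ⟨m, hm, g', hg', rfl⟩ := ih g hg
          -- l = l' + ev(l) u
          have hl' : l - MvPolynomial.C (eval a l) * u ∈ W' := by
            rw [hW']
            refine ⟨Submodule.sub_mem _ hl ?_, ?_⟩
            · rw [← MvPolynomial.smul_eq_C_mul]
              exact Submodule.smul_mem _ _ hu
            · simp [hua]
          refine ⟨(l - MvPolynomial.C (eval a l) * u) * m, ?_,
            MvPolynomial.C (eval a l) * m + l * g', ?_, by ring⟩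
          · rw [pow_succ']
            exact Submodule.mul_mem_mul hl' hm
          · refine Submodule.add_mem _ ?_ ?_
            · rw [← MvPolynomial.smul_eq_C_mul]
              exact Submodule.smul_mem _ _ (pow_le_pow_left' hsub _ hm)
            · rw [pow_succ']
              exact Submodule.mul_mem_mul hl hg'
        · rintro f1 f2 ⟨m1, hm1, g1, hg1, rfl⟩ ⟨m2, hm2, g2, hg2, rfl⟩
          exact ⟨m1 + m2, Submodule.add_mem _ hm1 hm2, g1 + g2, Submodule.add_mem _ hg1 hg2, by ring⟩
    cases n with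
    | zero => exact hf
    | succ n =>
      obtain ⟨m, hm, g, hg, rfl⟩ := hdec n f hf
      have hm0 : D a (n + 1) m = 0 :=
        D_zero_of_eval a W' (fun l hl => hW l (hsub hl)) (fun l hl => ((hW' l).mp hl).2) (n + 1) m hm
      rw [map_add, hm0, zero_add, D_aff_mul a (hW u hu), hua] at h
      have hg0 := D_aux a W hW u hu hua n 1 g one_pos hg h
      rw [hg0, mul_zero, add_zero]
      exact hm
  · intro h
    exact D_zero_of_eval a W' (fun l hl => hW l (hsub hl)) (fun l hl => ((hW' l).mp hl).2) n f h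

end alg

end Pool.Agent.Q225.Cof
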