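import Pool.Agent.Q225.CofA

set_option autoImplicit false

namespace Pool.Agent.Q225.Cof

open MvPolynomial

/-! ### Powers -/

theorem mul_pow_mem (W : Submodule ℝ P3) (l m : P3) (hl : l ∈ W) (hm : m ∈ W) (n : ℕ) :
    m * l ^ n ∈ Submodule.span ℝ ((fun l => l ^ (n + 1)) '' (W : Set P3)) := by
  by_contra hcon
  obtain ⟨f, hf1, hf2⟩ := Submodule.exists_le_ker_of_notMem hcon
  set q : Polynomial ℝ := ∑ k ∈ Finset.range (n + 2),
    Polynomial.C (((n + 1).choose k : ℝ) * f (m ^ k * l ^ (n + 1 - k))) * Polynomial.X ^ k with hq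
  have hq0 : q = 0 := by
    apply Polynomial.funext
    intro t
    have h1 : f ((l + t • m) ^ (n + 1)) = 0 := by
      have h2 : (l + t • m) ^ (n + 1) ∈ Submodule.span ℝ ((fun l => l ^ (n + 1)) '' (W : Set P3)) :=
        Submodule.subset_span ⟨l + t • m, W.add_mem hl (W.smul_mem t hm), rfl⟩
      exact hf2 h2
    rw [hq, Polynomial.eval_finsetSum, Polynomial.eval_zero, ← h1, add_comm l, add_pow, map_sum]
    refine Finset.sum_congr rfl fun k _ => ?_
    rw [Polynomial.eval_mul, Polynomial.eval_C, Polynomial.eval_pow, Polynomial.eval_X, smul_pow,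
      smul_mul_assoc, smul_mul_assoc, map_smul, ← nsmul_eq_mul', map_nsmul, nsmul_eq_mul, smul_eq_mul]
    ring
  have h3 := congrArg (fun r => Polynomial.coeff r 1) hq0
  simp only [hq, Polynomial.finsetSum_coeff, Polynomial.coeff_C_mul, Polynomial.coeff_X_pow,
    Polynomial.coeff_zero] at h3
  rw [Finset.sum_eq_single 1] at h3
  · simp only [if_true, mul_one, pow_one, Nat.choose_one_right, Nat.add_sub_cancel] at h3
    rcases mul_eq_zero.mp h3 with h4 | h4
    · have : (n : ℝ) + 1 = 0 := by exact_mod_cast h4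
      have : (0 : ℝ) < (n : ℝ) + 1 := by positivity
      linarith
    · exact hf1 h4
  · intro b _ hb
    rw [if_neg (Ne.symm hb), mul_zero]
  · intro h
    exact absurd (Finset.mem_range.mpr (by omega)) h

theorem span_pow_eq (W : Submodule ℝ P3) (n : ℕ) :
    Submodule.span ℝ ((fun l => l ^ n) '' (W : Set P3)) = W ^ n := by
  apply le_antisymm
  · rw [Submodule.span_le]
    rintro _ ⟨l, hl, rfl⟩
    exact Submodule.pow_mem_pow W hl n
  · induction n with
    | zero =>
      rw [pow_zero, Submodule.one_le]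
      exact Submodule.subset_span ⟨0, W.zero_mem, by simp⟩
    | succ n ih =>
      rw [pow_succ', Submodule.mul_le]
      intro m hm g hg
      have h1 := ih hg
      refine Submodule.span_induction (p := fun g _ => m * g ∈
        Submodule.span ℝ ((fun l => l ^ (n + 1)) '' (W : Set P3))) ?_ ?_ ?_ ?_ h1
      · rintro _ ⟨l, hl, rfl⟩
        exact mul_pow_mem W l m hl hm n
      · rw [mul_zero]; exact Submodule.zero_mem _
      · intro x y _ _ hx hy
        rw [mul_add]; exact Submodule.add_mem _ hx hy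
      · intro r x _ hx
        rw [mul_smul_comm]; exact Submodule.smul_mem _ _ hx

/-- the submodule of affine forms vanishing on `ψ` -/
noncomputable def Wsub {V : Type} (p : V → Fin 3 → ℝ) (ψ : Finset V) : Submodule ℝ P3 where
  carrier := {l | IsAff l ∧ ∀ v ∈ ψ, eval (p v) l = 0}
  add_mem' := by
    rintro l m ⟨⟨a, b, c, d, rfl⟩, h1⟩ ⟨⟨a', b', c', d', rfl⟩, h2⟩
    refine ⟨⟨a + a', b + b', c + c', d + d', ?_⟩, fun v hv => ?_⟩
    · unfold aff
      simp only [map_add]
      ring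
    · rw [map_add, h1 v hv, h2 v hv, add_zero]
  zero_mem' := ⟨⟨0, 0, 0, 0, by unfold aff; simp⟩, fun v _ => map_zero _⟩
  smul_mem' := by
    rintro r l ⟨⟨a, b, c, d, rfl⟩, h1⟩
    refine ⟨⟨r * a, r * b, r * c, r * d, ?_⟩, fun v hv => ?_⟩
    · unfold aff
      rw [MvPolynomial.smul_eq_C_mul]
      simp only [map_mul]
      ring
    · rw [MvPolynomial.smul_eval, h1 v hv, mul_zero]

theorem mem_Wsub {V : Type} (p : V → Fin 3 → ℝ) (ψ : Finset V) (l : P3) :
    l ∈ Wsub p ψ ↔ IsAff l ∧ ∀ v ∈ ψ, eval (p v) l = 0 := Iff.rfl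

theorem coe_Wsub {V : Type} (p : V → Fin 3 → ℝ) (ψ : Finset V) : (Wsub p ψ : Set P3) = I1 p ψ := rfl

theorem isAff_one : IsAff 1 := ⟨0, 0, 0, 1, by unfold aff; simp⟩

theorem isAff_X (i : Fin 3) : IsAff (X i) := by
  fin_cases i
  · exact ⟨1, 0, 0, 0, by unfold aff; simp⟩
  · exact ⟨0, 1, 0, 0, by unfold aff; simp⟩
  · exact ⟨0, 0, 1, 0, by unfold aff; simp⟩

theorem totalDegree_aff {l : P3} (h : IsAff l) : l.totalDegree ≤ 1 := by
  obtain ⟨a, b, c, d, rfl⟩ := h
  unfold aff
  have hx : ∀ (r : ℝ) (i : Fin 3), (MvPolynomial.C r * X i : P3).totalDegree ≤ 1 := by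
    intro r i
    refine (totalDegree_mul _ _).trans ?_
    rw [totalDegree_C, totalDegree_X]
  refine (totalDegree_add _ _).trans (max_le ((totalDegree_add _ _).trans (max_le
    ((totalDegree_add _ _).trans (max_le (hx _ _) (hx _ _))) (hx _ _))) ?_)
  rw [totalDegree_C]; omega

theorem restrict_eq {V : Type} (p : V → Fin 3 → ℝ) (s : ℕ) :
    restrictTotalDegree (Fin 3) ℝ s = Wsub p ∅ ^ s := by
  have hmem : ∀ l, IsAff l → l ∈ Wsub p ∅ := fun l h => ⟨h, by simp⟩
  have h1 : (1 : Submodule ℝ P3) ≤ Wsub p ∅ := by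
    rw [Submodule.one_le]; exact hmem _ isAff_one
  apply le_antisymm
  · intro f hf
    rw [mem_restrictTotalDegree] at hf
    rw [f.as_sum]
    refine Submodule.sum_mem _ fun m hm => ?_
    have hdeg : m.degree ≤ s := (le_totalDegree hm).trans hf
    have h2 : ∀ i, ∀ k : ℕ, (X i : P3) ^ k ∈ Wsub p ∅ ^ k := fun i k =>
      Submodule.pow_mem_pow _ (hmem _ (isAff_X i)) k
    have h3 : (monomial m (coeff m f) : P3) ∈ Wsub p ∅ ^ m.degree := by
      rw [monomial_eq, ← MvPolynomial.smul_eq_C_mul]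
      refine Submodule.smul_mem _ _ ?_
      rw [Finsupp.prod_fintype _ _ (fun i => pow_zero _), Finsupp.degree_eq_sum,
        Fin.prod_univ_three, Fin.sum_univ_three, pow_add, pow_add]
      exact Submodule.mul_mem_mul (Submodule.mul_mem_mul (h2 _ _) (h2 _ _)) (h2 _ _)
    exact pow_le_pow_right' h1 hdeg h3
  · induction s with
    | zero =>
      rw [pow_zero, Submodule.one_le, mem_restrictTotalDegree, totalDegree_one]
    | succ s ih =>
      rw [pow_succ', Submodule.mul_le]
      intro l hl g hg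
      have h2 := ih hg
      rw [mem_restrictTotalDegree] at h2 ⊢
      have h3 := totalDegree_aff hl.1
      have := totalDegree_mul l g
      omega

theorem I_eq {V : Type} (s : ℕ) (p : V → Fin 3 → ℝ) (ψ : Finset V) : I s p ψ = Wsub p ψ ^ s := by
  unfold I
  split_ifs with h
  · rw [h]; exact restrict_eq p s
  · rw [← span_pow_eq, coe_Wsub]

theorem I_le {V : Type} (s : ℕ) (p : V → Fin 3 → ℝ) (ψ : Finset V) :
    I s p ψ ≤ restrictTotalDegree (Fin 3) ℝ s := by
  rw [I_eq, restrict_eq p s]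
  exact pow_le_pow_left' (fun l hl => ⟨hl.1, by simp⟩) s

theorem I_mono {V : Type} (s : ℕ) (p : V → Fin 3 → ℝ) {θ ψ : Finset V} (h : θ ⊆ ψ) :
    I s p ψ ≤ I s p θ := by
  rw [I_eq, I_eq]
  exact pow_le_pow_left' (fun l hl => ⟨hl.1, fun v hv => hl.2 v (h hv)⟩) s

/-! ### General position -/

/-- an affine form from a linear functional -/
theorem exists_aff (f : Module.Dual ℝ (Fin 3 → ℝ)) (q : Fin 3 → ℝ) :
    ∃ l : P3, IsAff l ∧ ∀ x, eval x l = f (x - q) := by
  refine ⟨aff (f (Pi.single 0 1)) (f (Pi.single 1 1)) (f (Pi.single 2 1)) (- f q),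
    ⟨_, _, _, _, rfl⟩, fun x => ?_⟩
  unfold aff
  have hx : x = x 0 • Pi.single 0 1 + x 1 • Pi.single 1 1 + x 2 • Pi.single 2 1 := by
    funext i
    fin_cases i <;> simp
  have h2 : f x = x 0 * f (Pi.single 0 1) + x 1 * f (Pi.single 1 1) + x 2 * f (Pi.single 2 1) := by
    conv_lhs => rw [hx]
    rw [map_add, map_add, map_smul, map_smul, map_smul]
    rfl
  rw [map_sub, h2]
  simp only [map_add, map_mul, eval_C, eval_X]
  ring

theorem exists_unit {V : Type} (p : V → Fin 3 → ℝ) (pw : Fin 3 → ℝ) (h : GeneralPosition p pw)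
    (ψ : Finset V) (hψ : ψ.card ≤ 3) : ∃ u ∈ Wsub p ψ, eval pw u = 1 := by
  classical
  rcases Finset.eq_empty_or_nonempty ψ with rfl | ⟨v₀, hv₀⟩
  · exact ⟨1, ⟨isAff_one, by simp⟩, map_one _⟩
  · set Sp := affineSpan ℝ (p '' (ψ : Set V)) with hSp
    have hq : p v₀ ∈ Sp := subset_affineSpan ℝ _ ⟨v₀, hv₀, rfl⟩
    have hdim : Module.finrank ℝ Sp.direction ≤ 2 := by
      have h1 : Sp.direction = vectorSpan ℝ ((ψ.image p : Finset (Fin 3 → ℝ)) : Set (Fin 3 → ℝ)) := by
        rw [hSp, direction_affineSpan, Finset.coe_image]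
      rw [h1]
      have h2 : 0 < ψ.card := Finset.card_pos.mpr ⟨v₀, hv₀⟩
      have h3 := finrank_vectorSpan_image_finset_le ℝ p ψ (n := ψ.card - 1) (by omega)
      omega
    have hne : Sp ≠ ⊤ := by
      intro htop
      rw [htop, AffineSubspace.direction_top, finrank_top] at hdim
      simp at hdim
    have hpw := h (ψ : Set V) hne
    have hnd : pw - p v₀ ∉ Sp.direction := by
      intro hcon
      apply hpw
      have := AffineSubspace.vadd_mem_of_mem_direction hcon hq
      rwa [vadd_eq_add, sub_add_cancel] at this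
    obtain ⟨f, hf1, hf2⟩ := Submodule.exists_le_ker_of_notMem hnd
    obtain ⟨l, hl, hl2⟩ := exists_aff ((f (pw - p v₀))⁻¹ • f) (p v₀)
    refine ⟨l, ⟨hl, fun v hv => ?_⟩, ?_⟩
    · rw [hl2]
      have h3 : p v - p v₀ ∈ Sp.direction :=
        AffineSubspace.vsub_mem_direction (subset_affineSpan ℝ _ ⟨v, hv, rfl⟩) hq
      have h4 := hf2 h3
      rw [LinearMap.mem_ker] at h4
      show (f (pw - p v₀))⁻¹ * f (p v - p v₀) = 0
      rw [h4, mul_zero]
    · rw [hl2]
      show (f (pw - p v₀))⁻¹ * f (pw - p v₀) = 1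
      exact inv_mul_cancel₀ hf1

end Pool.Agent.Q225.Cof
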