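import Pool.Agent.Q225.CofB

set_option autoImplicit false

namespace Pool.Agent.Q225.Cof

open MvPolynomial

variable {V : Type} [Fintype V] [LinearOrder V]

theorem mem_chains (K : Complex2 V) (p : V → Fin 3 → ℝ) (s n : ℕ) (c : Finset V → P3) :
    c ∈ chains K p s n ↔ ∀ ψ, ((ψ ∈ K.faces ∧ ψ.card = n) → c ψ ∈ I s p ψ) ∧
    (¬ (ψ ∈ K.faces ∧ ψ.card = n) → c ψ = 0) := Iff.rfl

theorem bdry_apply (c : Finset V → P3) (θ : Finset V) :
    bdry c θ = ∑ v ∈ Finset.univ.filter (fun v => v ∉ θ), sgn v θ • c (insert v θ) := rfl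

theorem bdry_apply' (c : Finset V → P3) (θ : Finset V) :
    bdry c θ = ∑ v, if v ∉ θ then sgn v θ • c (insert v θ) else 0 := by
  rw [bdry_apply, Finset.sum_filter]

theorem sgn_insert_of_lt {u v : V} {θ : Finset V} (h : v < u) :
    sgn v (insert u θ) = sgn v θ := by
  unfold sgn
  congr 2
  ext x
  rw [Finset.mem_filter, Finset.mem_filter, Finset.mem_insert]
  constructor
  · rintro ⟨rfl | h1, h2⟩
    · exact absurd h2 (not_lt.mpr h.le)
    · exact ⟨h1, h2⟩
  · rintro ⟨h1, h2⟩
    exact ⟨Or.inr h1, h2⟩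

theorem sgn_insert_of_gt {u v : V} {θ : Finset V} (hu : u ∉ θ) (h : u < v) :
    sgn v (insert u θ) = - sgn v θ := by
  unfold sgn
  have : (insert u θ).filter (fun x => x < v) = insert u (θ.filter (fun x => x < v)) := by
    rw [Finset.filter_insert, if_pos h]
  rw [this, Finset.card_insert_of_notMem, pow_succ]
  · ring
  · exact fun h' => hu (Finset.mem_filter.mp h').1

/-- the boundary of the boundary is zero -/
theorem bdry_bdry (c : Finset V → P3) : bdry (bdry c) = 0 := by
  funext θ
  rw [bdry_apply']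
  have h1 : ∀ v, (if v ∉ θ then sgn v θ • bdry c (insert v θ) else 0)
      = ∑ u, if (v ∉ θ ∧ u ∉ insert v θ) then
          (sgn v θ * sgn u (insert v θ)) • c (insert u (insert v θ)) else 0 := by
    intro v
    by_cases hv : v ∉ θ
    · rw [if_pos hv, bdry_apply', Finset.smul_sum]
      refine Finset.sum_congr rfl fun u _ => ?_
      by_cases hu : u ∉ insert v θ
      · rw [if_pos hu, if_pos ⟨hv, hu⟩, smul_smul]
      · rw [if_neg hu, if_neg (fun h => hu h.2), smul_zero]
    · rw [if_neg hv]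
      symm
      exact Finset.sum_eq_zero fun u _ => if_neg (fun h => hv h.1)
  rw [Finset.sum_congr rfl (fun v _ => h1 v)]
  set S := ∑ v, ∑ u, (if (v ∉ θ ∧ u ∉ insert v θ) then
          (sgn v θ * sgn u (insert v θ)) • c (insert u (insert v θ)) else 0) with hS
  have h2 : S = -S := by
    conv_lhs => rw [hS, Finset.sum_comm]
    rw [hS, ← Finset.sum_neg_distrib]
    refine Finset.sum_congr rfl fun v _ => ?_
    rw [← Finset.sum_neg_distrib]
    refine Finset.sum_congr rfl fun u _ => ?_
    by_cases h : u ∉ θ ∧ v ∉ insert u θ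
    · have huv : v ≠ u := fun h' => h.2 (h' ▸ Finset.mem_insert_self _ _)
      have hv : v ∉ θ := fun h' => h.2 (Finset.mem_insert_of_mem h')
      have hu : u ∉ insert v θ := by
        rw [Finset.mem_insert]
        rintro (h' | h')
        · exact huv h'.symm
        · exact h.1 h'
      rw [if_pos h, if_pos ⟨hv, hu⟩, Finset.insert_comm v u θ, ← neg_smul]
      congr 1
      rcases lt_or_gt_of_ne huv with hlt | hlt
      · rw [sgn_insert_of_lt hlt, sgn_insert_of_gt hv hlt]
        ring
      · rw [sgn_insert_of_gt h.1 hlt, sgn_insert_of_lt hlt]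
        ring
    · have h' : ¬ (v ∉ θ ∧ u ∉ insert v θ) := by
        rintro ⟨h3, h4⟩
        apply h
        have huv : v ≠ u := fun h' => h4 (h' ▸ Finset.mem_insert_self _ _)
        refine ⟨fun h5 => h4 (Finset.mem_insert_of_mem h5), ?_⟩
        rw [Finset.mem_insert]
        rintro (h5 | h5)
        · exact huv h5
        · exact h3 h5
      rw [if_neg h, if_neg h', neg_zero]
  have h3 : S + S = 0 := by
    nth_rewrite 1 [h2]
    exact neg_add_cancel S
  have h4 : (2 : ℝ) • S = 0 := by rw [two_smul]; exact h3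
  exact (smul_eq_zero.mp h4).resolve_left (by norm_num)

theorem bdry_mem (K : Complex2 V) (p : V → Fin 3 → ℝ) (s n : ℕ) (c : Finset V → P3)
    (hc : c ∈ chains K p s (n + 1)) : bdry c ∈ chains K p s n := by
  rw [mem_chains]
  intro θ
  rw [bdry_apply]
  constructor
  · intro _
    refine Submodule.sum_mem _ fun v hv => Submodule.smul_mem _ _ ?_
    rw [Finset.mem_filter] at hv
    by_cases h : insert v θ ∈ K.faces ∧ (insert v θ).card = n + 1
    · exact I_mono s p (Finset.subset_insert v θ) ((hc (insert v θ)).1 h)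
    · rw [(hc (insert v θ)).2 h]
      exact Submodule.zero_mem _
  · intro hθ
    refine Finset.sum_eq_zero fun v hv => ?_
    rw [Finset.mem_filter] at hv
    rw [(hc (insert v θ)).2, smul_zero]
    rintro ⟨h1, h2⟩
    apply hθ
    rw [Finset.card_insert_of_notMem hv.2] at h2
    exact ⟨K.down_closed _ h1 θ (Finset.subset_insert v θ), by omega⟩

theorem bdry_chains_zero (K : Complex2 V) (p : V → Fin 3 → ℝ) (s : ℕ) (c : Finset V → P3)
    (hc : c ∈ chains K p s 0) : bdry c = 0 := by
  funext θ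
  rw [bdry_apply]
  refine Finset.sum_eq_zero fun v _ => ?_
  rw [(hc (insert v θ)).2, smul_zero]
  rintro ⟨_, h2⟩
  rw [Finset.card_eq_zero] at h2
  exact Finset.insert_ne_empty v θ h2

/-! ### Simplices of the cone -/

theorem mem_up {ψ : Finset V} {v : V} : (v : WithBot V) ∈ up ψ ↔ v ∈ ψ := by
  unfold up
  rw [Finset.mem_map]
  constructor
  · rintro ⟨u, hu, h⟩
    have : u = v := WithBot.coe_injective h
    exact this ▸ hu
  · intro h
    exact ⟨v, h, rfl⟩

theorem bot_notMem_up (ψ : Finset V) : (⊥ : WithBot V) ∉ up ψ := by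
  unfold up
  rw [Finset.mem_map]
  rintro ⟨u, _, h⟩
  exact WithBot.coe_ne_bot h

theorem card_up (ψ : Finset V) : (up ψ).card = ψ.card := Finset.card_map _

theorem card_wup (ψ : Finset V) : (insert ⊥ (up ψ)).card = ψ.card + 1 := by
  rw [Finset.card_insert_of_notMem (bot_notMem_up ψ), card_up]

theorem down_up (ψ : Finset V) : down (up ψ) = ψ := by
  ext v
  unfold down
  rw [Finset.mem_filter, mem_up]
  simp

theorem down_wup (ψ : Finset V) : down (insert ⊥ (up ψ)) = ψ := by
  ext v
  unfold down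
  rw [Finset.mem_filter, Finset.mem_insert, mem_up]
  simp

theorem up_down {φ : Finset (WithBot V)} (h : ⊥ ∉ φ) : up (down φ) = φ := by
  ext w
  induction w using WithBot.recBotCoe with
  | bot => exact iff_of_false (bot_notMem_up _) h
  | coe v =>
    rw [mem_up]
    unfold down
    simp

theorem wup_down {φ : Finset (WithBot V)} (h : ⊥ ∈ φ) : insert ⊥ (up (down φ)) = φ := by
  ext w
  induction w using WithBot.recBotCoe with
  | bot => exact iff_of_true (Finset.mem_insert_self _ _) h
  | coe v =>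
    rw [Finset.mem_insert, mem_up]
    unfold down
    simp

theorem up_insert (v : V) (ψ : Finset V) : up (insert v ψ) = insert (v : WithBot V) (up ψ) := by
  ext w
  induction w using WithBot.recBotCoe with
  | bot =>
    refine iff_of_false (bot_notMem_up _) ?_
    rw [Finset.mem_insert]
    rintro (h | h)
    · exact WithBot.coe_ne_bot h.symm
    · exact bot_notMem_up _ h
  | coe u =>
    rw [mem_up, Finset.mem_insert, Finset.mem_insert, mem_up, WithBot.coe_inj]

theorem up_mem_cone (K : Complex2 V) (ψ : Finset V) : up ψ ∈ (cone K).faces ↔ ψ ∈ K.faces := by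
  show up ψ ∈ Finset.univ.filter (fun φ => down φ ∈ K.faces ∧ φ.card ≤ 3) ↔ _
  rw [Finset.mem_filter, down_up, card_up]
  exact ⟨fun h => h.2.1, fun h => ⟨Finset.mem_univ _, h, K.card_le _ h⟩⟩

theorem wup_mem_cone (K : Complex2 V) (ψ : Finset V) :
    insert ⊥ (up ψ) ∈ (cone K).faces ↔ ψ ∈ K.faces ∧ ψ.card ≤ 2 := by
  show insert ⊥ (up ψ) ∈ Finset.univ.filter (fun φ => down φ ∈ K.faces ∧ φ.card ≤ 3) ↔ _
  rw [Finset.mem_filter, down_wup, card_wup]
  constructor
  · exact fun h => ⟨h.2.1, by omega⟩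
  · exact fun h => ⟨Finset.mem_univ _, h.1, by omega⟩

variable (p : V → Fin 3 → ℝ) (pw : Fin 3 → ℝ)

theorem Wsub_up (ψ : Finset V) : Wsub (conf p pw) (up ψ) = Wsub p ψ := by
  ext l
  rw [mem_Wsub, mem_Wsub]
  refine and_congr_right fun _ => ?_
  constructor
  · intro h v hv
    exact h (v : WithBot V) (mem_up.mpr hv)
  · intro h w hw
    induction w using WithBot.recBotCoe with
    | bot => exact absurd hw (bot_notMem_up _)
    | coe v => exact h v (mem_up.mp hw)

theorem mem_Wsub_wup (ψ : Finset V) (l : P3) :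
    l ∈ Wsub (conf p pw) (insert ⊥ (up ψ)) ↔ l ∈ Wsub p ψ ∧ eval pw l = 0 := by
  rw [← Wsub_up p pw ψ, mem_Wsub, mem_Wsub, Finset.forall_mem_insert]
  constructor
  · rintro ⟨h1, h2, h3⟩
    exact ⟨⟨h1, h3⟩, h2⟩
  · rintro ⟨⟨h1, h3⟩, h2⟩
    exact ⟨h1, h2, h3⟩

theorem I_up (s : ℕ) (ψ : Finset V) : I s (conf p pw) (up ψ) = I s p ψ := by
  rw [I_eq, I_eq, Wsub_up]

/-- `D` maps `I^{s+1}` to `I^s` -/
theorem D_mem_I (s : ℕ) (ψ : Finset V) (f : P3) (hf : f ∈ I (s + 1) p ψ) :
    D pw (s + 1) f ∈ I s p ψ := by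
  rw [I_eq] at hf ⊢
  exact D_mem_pow pw (Wsub p ψ) (fun l hl => hl.1) s f hf

theorem D_eq_zero_iff (h : GeneralPosition p pw) (s : ℕ) (ψ : Finset V) (hψ : ψ.card ≤ 3) (f : P3)
    (hf : f ∈ I s p ψ) : D pw s f = 0 ↔ f ∈ I s (conf p pw) (insert ⊥ (up ψ)) := by
  obtain ⟨u, hu, hu1⟩ := exists_unit p pw h ψ hψ
  rw [I_eq] at hf ⊢
  exact D_ker pw (Wsub p ψ) _ (fun l hl => hl.1) (fun l => mem_Wsub_wup p pw ψ l) u hu hu1 s f hf

theorem D_zero_of_mem (s : ℕ) (ψ : Finset V) (f : P3)
    (hf : f ∈ I s (conf p pw) (insert ⊥ (up ψ))) : D pw s f = 0 := by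
  rw [I_eq] at hf
  exact D_zero_of_eval pw _ (fun l hl => ((mem_Wsub_wup p pw ψ l).mp hl).1.1)
    (fun l hl => ((mem_Wsub_wup p pw ψ l).mp hl).2) s f hf

theorem exists_D (h : GeneralPosition p pw) (s : ℕ) (ψ : Finset V) (hψ : ψ.card ≤ 3) (g : P3)
    (hg : g ∈ I s p ψ) : ∃ f ∈ I (s + 1) p ψ, D pw (s + 1) f = g := by
  obtain ⟨u, hu, hu1⟩ := exists_unit p pw h ψ hψ
  rw [I_eq] at hg
  obtain ⟨f, hf1, hf2⟩ := D_surj pw (Wsub p ψ) (fun l hl => hl.1) u hu hu1 s 0 g hg
  rw [pow_zero, one_mul] at hf2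
  refine ⟨f, ?_, hf2⟩
  rw [I_eq]
  exact hf1

/-! ### Chains of the cone -/

theorem bdry_up (c : Finset (WithBot V) → P3) (θ : Finset V) :
    bdry c (up θ) = c (insert ⊥ (up θ)) + bdry (fun ψ => c (up ψ)) θ := by
  rw [bdry_apply', bdry_apply']
  have hsplit : ∀ g : WithBot V → P3, ∑ w, g w = g ⊥ + ∑ v : V, g v := by
    intro g
    have h1 : (Finset.univ : Finset (WithBot V)) = insert ⊥ ((Finset.univ : Finset V).map
        ⟨(WithBot.some : V → WithBot V), WithBot.coe_injective⟩) := by
      ext w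
      induction w using WithBot.recBotCoe with
      | bot => simp
      | coe v => simp
    rw [h1, Finset.sum_insert, Finset.sum_map]
    · rfl
    · rw [Finset.mem_map]
      rintro ⟨u, _, hu⟩
      exact WithBot.coe_ne_bot hu
  rw [hsplit, if_pos (bot_notMem_up θ)]
  congr 1
  · have : sgn (⊥ : WithBot V) (up θ) = 1 := by
      unfold sgn
      rw [Finset.filter_false_of_mem (fun x _ => not_lt_bot)]
      simp
    rw [this, one_smul]
  · refine Finset.sum_congr rfl fun v _ => ?_
    have h2 : ((v : WithBot V) ∉ up θ) ↔ v ∉ θ := not_congr mem_up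
    by_cases hv : v ∉ θ
    · rw [if_pos (h2.mpr hv), if_pos hv, up_insert]
      congr 1
      unfold sgn
      congr 1
      have : (up θ).filter (fun u => u < (v : WithBot V)) = up (θ.filter (fun u => u < v)) := by
        ext w
        induction w using WithBot.recBotCoe with
        | bot =>
          refine iff_of_false (fun h => bot_notMem_up _ (Finset.mem_filter.mp h).1) (bot_notMem_up _)
        | coe u =>
          rw [Finset.mem_filter, mem_up, mem_up, Finset.mem_filter, WithBot.coe_lt_coe]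
      rw [this, card_up]
    · rw [if_neg (fun h => hv (h2.mp h)), if_neg hv]

theorem bdry_wup (c : Finset (WithBot V) → P3) (θ : Finset V) :
    bdry c (insert ⊥ (up θ)) = - bdry (fun ψ => c (insert ⊥ (up ψ))) θ := by
  rw [bdry_apply', bdry_apply', ← Finset.sum_neg_distrib]
  have hsplit : ∀ g : WithBot V → P3, ∑ w, g w = g ⊥ + ∑ v : V, g v := by
    intro g
    have h1 : (Finset.univ : Finset (WithBot V)) = insert ⊥ ((Finset.univ : Finset V).map
        ⟨(WithBot.some : V → WithBot V), WithBot.coe_injective⟩) := by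
      ext w
      induction w using WithBot.recBotCoe with
      | bot => simp
      | coe v => simp
    rw [h1, Finset.sum_insert, Finset.sum_map]
    · rfl
    · rw [Finset.mem_map]
      rintro ⟨u, _, hu⟩
      exact WithBot.coe_ne_bot hu
  rw [hsplit, if_neg (fun h => h (Finset.mem_insert_self _ _)), zero_add]
  refine Finset.sum_congr rfl fun v _ => ?_
  have h2 : ((v : WithBot V) ∉ insert ⊥ (up θ)) ↔ v ∉ θ := by
    rw [Finset.mem_insert, mem_up]
    simp
  by_cases hv : v ∉ θ
  · rw [if_pos (h2.mpr hv), if_pos hv, up_insert, Finset.insert_comm, ← neg_smul]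
    congr 1
    rw [sgn_insert_of_gt (bot_notMem_up θ) (WithBot.bot_lt_coe v)]
    congr 1
    unfold sgn
    congr 1
    have : (up θ).filter (fun u => u < (v : WithBot V)) = up (θ.filter (fun u => u < v)) := by
      ext w
      induction w using WithBot.recBotCoe with
      | bot =>
        refine iff_of_false (fun h => bot_notMem_up _ (Finset.mem_filter.mp h).1) (bot_notMem_up _)
      | coe u =>
        rw [Finset.mem_filter, mem_up, mem_up, Finset.mem_filter, WithBot.coe_lt_coe]
    rw [this, card_up]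
  · rw [if_neg (fun h => hv (h2.mp h)), if_neg hv, neg_zero]

/-- the chain of the cone with given parts -/
noncomputable def glue (a a' : Finset V → P3) : Finset (WithBot V) → P3 :=
  fun φ => if ⊥ ∈ φ then a' (down φ) else a (down φ)

theorem glue_up (a a' : Finset V → P3) (ψ : Finset V) : glue a a' (up ψ) = a ψ := by
  unfold glue
  rw [if_neg (bot_notMem_up ψ), down_up]

theorem glue_wup (a a' : Finset V → P3) (ψ : Finset V) : glue a a' (insert ⊥ (up ψ)) = a' ψ := by
  unfold glue
  rw [if_pos (Finset.mem_insert_self _ _), down_wup]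

theorem ext_cone {c c' : Finset (WithBot V) → P3} (h1 : ∀ ψ, c (up ψ) = c' (up ψ))
    (h2 : ∀ ψ, c (insert ⊥ (up ψ)) = c' (insert ⊥ (up ψ))) : c = c' := by
  funext φ
  by_cases h : ⊥ ∈ φ
  · rw [← wup_down h]; exact h2 _
  · rw [← up_down h]; exact h1 _

theorem mem_chains_cone (K : Complex2 V) (s n : ℕ) (c : Finset (WithBot V) → P3) :
    c ∈ chains (cone K) (conf p pw) s n ↔ (fun ψ => c (up ψ)) ∈ chains K p s n ∧
      (∀ ψ, ((ψ ∈ K.faces ∧ ψ.card ≤ 2 ∧ ψ.card + 1 = n) →
          c (insert ⊥ (up ψ)) ∈ I s (conf p pw) (insert ⊥ (up ψ))) ∧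
        (¬ (ψ ∈ K.faces ∧ ψ.card ≤ 2 ∧ ψ.card + 1 = n) → c (insert ⊥ (up ψ)) = 0)) := by
  rw [mem_chains, mem_chains]
  constructor
  · intro h
    refine ⟨fun ψ => ?_, fun ψ => ?_⟩
    · have := h (up ψ)
      rw [up_mem_cone, card_up, I_up] at this
      exact this
    · have := h (insert ⊥ (up ψ))
      rw [wup_mem_cone, card_wup, and_assoc] at this
      exact this
  · rintro ⟨h1, h2⟩ φ
    by_cases h : ⊥ ∈ φ
    · have := h2 (down φ)
      rw [← and_assoc, ← wup_mem_cone K, wup_down h] at this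
      have hc := card_wup (down φ)
      rw [wup_down h] at hc
      rw [hc]
      exact this
    · have := h1 (down φ)
      rw [← up_mem_cone K, ← I_up p pw, up_down h] at this
      have hc := card_up (down φ)
      rw [up_down h] at hc
      rw [hc]
      exact this

end Pool.Agent.Q225.Cof
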