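import Pool.Agent.Q225.CofC

set_option autoImplicit false
set_option linter.unusedSectionVars false

namespace Pool.Agent.Q225.Cof

open MvPolynomial

variable {V : Type} [Fintype V] [LinearOrder V] (K : Complex2 V)
variable (p : V → Fin 3 → ℝ) (pw : Fin 3 → ℝ)

theorem lift_chain (h : GeneralPosition p pw) (s n : ℕ) (b : Finset V → P3)
    (hb : b ∈ chains K p s n) : ∃ a ∈ chains K p (s + 1) n, ∀ ψ, D pw (s + 1) (a ψ) = b ψ := by
  have hex : ∀ ψ, ∃ f : P3, ((ψ ∈ K.faces ∧ ψ.card = n) → f ∈ I (s + 1) p ψ) ∧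
      (¬ (ψ ∈ K.faces ∧ ψ.card = n) → f = 0) ∧ D pw (s + 1) f = b ψ := by
    intro ψ
    by_cases hψ : ψ ∈ K.faces ∧ ψ.card = n
    · obtain ⟨f, h1, h2⟩ := exists_D p pw h s ψ (K.card_le _ hψ.1) (b ψ) ((hb ψ).1 hψ)
      exact ⟨f, fun _ => h1, fun h' => absurd hψ h', h2⟩
    · exact ⟨0, fun h' => absurd h' hψ, fun _ => rfl, by rw [map_zero, (hb ψ).2 hψ]⟩
  choose a ha using hex
  exact ⟨a, fun ψ => ⟨(ha ψ).1, (ha ψ).2.1⟩, fun ψ => (ha ψ).2.2⟩

/-- the projection to the chains of `K` -/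
noncomputable def Phi (s : ℕ) : (Finset (WithBot V) → P3) →ₗ[ℝ] (Finset V → P3) where
  toFun c ψ := D pw (s + 1) (c (up ψ))
  map_add' := by
    intro a b
    funext ψ
    simp only [Pi.add_apply, map_add]
  map_smul' := by
    intro r a
    funext ψ
    simp only [Pi.smul_apply, map_smul, RingHom.id_apply]

theorem Phi_apply (s : ℕ) (c : Finset (WithBot V) → P3) (ψ : Finset V) :
    Phi pw s c ψ = D pw (s + 1) (c (up ψ)) := rfl

theorem D_bdry (s : ℕ) (a : Finset V → P3) (θ : Finset V) :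
    D pw (s + 1) (bdry a θ) = bdry (fun ψ => D pw (s + 1) (a ψ)) θ := by
  rw [bdry_apply, bdry_apply, map_sum]
  exact Finset.sum_congr rfl fun v _ => map_smul _ _ _

theorem Phi_bdry (s n : ℕ) (c : Finset (WithBot V) → P3)
    (hc : c ∈ chains (cone K) (conf p pw) (s + 1) n) : Phi pw s (bdry c) = bdry (Phi pw s c) := by
  rw [mem_chains_cone] at hc
  funext θ
  rw [Phi_apply, bdry_up, map_add, D_bdry]
  have h0 : D pw (s + 1) (c (insert ⊥ (up θ))) = 0 := by
    by_cases h : θ ∈ K.faces ∧ θ.card ≤ 2 ∧ θ.card + 1 = n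
    · exact D_zero_of_mem p pw (s + 1) θ _ ((hc.2 θ).1 h)
    · rw [(hc.2 θ).2 h, map_zero]
  rw [h0, zero_add]
  rfl

theorem Phi_mem (s n : ℕ) (c : Finset (WithBot V) → P3)
    (hc : c ∈ chains (cone K) (conf p pw) (s + 1) n) : Phi pw s c ∈ chains K p s n := by
  rw [mem_chains_cone] at hc
  intro ψ
  refine ⟨fun h => D_mem_I p pw s ψ _ ((hc.1 ψ).1 h), fun h => ?_⟩
  have h0 : c (up ψ) = 0 := (hc.1 ψ).2 h
  rw [Phi_apply, h0, map_zero]

/-- gluing -/
theorem glue_mem (h : GeneralPosition p pw) (s n : ℕ) (hn : n ≤ 3) (a x : Finset V → P3)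
    (ha : a ∈ chains K p s n) (hx : ∀ ψ, (ψ ∈ K.faces ∧ ψ.card + 1 = n → x ψ ∈ I s p ψ) ∧
      (¬ (ψ ∈ K.faces ∧ ψ.card + 1 = n) → x ψ = 0)) (hD : ∀ ψ, D pw s (x ψ) = 0) :
    glue a x ∈ chains (cone K) (conf p pw) s n := by
  rw [mem_chains_cone]
  constructor
  · have : (fun ψ => glue a x (up ψ)) = a := by
      funext ψ; exact glue_up a x ψ
    rw [this]; exact ha
  · intro ψ
    rw [glue_wup]
    refine ⟨fun h1 => ?_, fun h1 => ?_⟩
    · exact (D_eq_zero_iff p pw h s ψ (by omega) (x ψ) ((hx ψ).1 ⟨h1.1, h1.2.2⟩)).mp (hD ψ)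
    · apply (hx ψ).2
      rintro ⟨h2, h3⟩
      exact h1 ⟨h2, by omega, h3⟩

theorem neg_bdry_cond (s n : ℕ) (a : Finset V → P3) (ha : a ∈ chains K p s n) :
    ∀ ψ, (ψ ∈ K.faces ∧ ψ.card + 1 = n → (-bdry a) ψ ∈ I s p ψ) ∧
      (¬ (ψ ∈ K.faces ∧ ψ.card + 1 = n) → (-bdry a) ψ = 0) := by
  intro ψ
  cases n with
  | zero =>
    rw [bdry_chains_zero K p s a ha, neg_zero]
    exact ⟨fun _ => Submodule.zero_mem _, fun _ => rfl⟩
  | succ n =>
    have h1 := bdry_mem K p s n a ha ψ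
    refine ⟨fun h => Submodule.neg_mem _ (h1.1 ⟨h.1, by omega⟩), fun h => ?_⟩
    rw [Pi.neg_apply, h1.2 (fun h' => h ⟨h'.1, by omega⟩), neg_zero]

/-- the lift of a cycle -/
theorem lift_cycle (h : GeneralPosition p pw) (s n : ℕ) (hn : n ≤ 3) (b : Finset V → P3)
    (hb : b ∈ cycles K p s n) : ∃ t ∈ cycles (cone K) (conf p pw) (s + 1) n, Phi pw s t = b := by
  obtain ⟨hb1, hb2⟩ := hb
  obtain ⟨a, ha, haD⟩ := lift_chain K p pw h s n b hb1
  have hD : ∀ ψ, D pw (s + 1) ((-bdry a) ψ) = 0 := by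
    intro ψ
    rw [Pi.neg_apply, map_neg, D_bdry]
    have : (fun ψ => D pw (s + 1) (a ψ)) = b := funext haD
    have hb3 : bdry b = 0 := hb2
    rw [this, hb3]
    simp
  refine ⟨glue a (-bdry a), ⟨glue_mem K p pw h (s + 1) n hn a _ ha
    (neg_bdry_cond K p (s + 1) n a ha) hD, ?_⟩, ?_⟩
  · show bdry (glue a (-bdry a)) = 0
    apply ext_cone
    · intro ψ
      rw [bdry_up, glue_wup]
      have : (fun ψ => glue a (-bdry a) (up ψ)) = a := by
        funext ψ; exact glue_up a _ ψ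
      rw [this]
      simp
    · intro ψ
      rw [bdry_wup]
      have : (fun ψ => glue a (-bdry a) (insert ⊥ (up ψ))) = -bdry a := by
        funext ψ; exact glue_wup a _ ψ
      rw [this, map_neg, bdry_bdry]
      simp
  · funext ψ
    rw [Phi_apply, glue_up, haD]

theorem cycle_w {s n : ℕ} {t : Finset (WithBot V) → P3}
    (ht : t ∈ cycles (cone K) (conf p pw) s n) (θ : Finset V) :
    t (insert ⊥ (up θ)) = - bdry (fun ψ => t (up ψ)) θ := by
  have h1 : bdry t = 0 := ht.2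
  have h2 := congrFun h1 (up θ)
  rw [bdry_up] at h2
  exact eq_neg_of_add_eq_zero_left h2

/-- the kernel in homology -/
theorem ker_homology (h : GeneralPosition p pw) (s n : ℕ) (hn : n ≤ 2)
    (t : Finset (WithBot V) → P3) (ht : t ∈ cycles (cone K) (conf p pw) (s + 1) n) :
    Phi pw s t ∈ boundaries K p s n ↔ t ∈ boundaries (cone K) (conf p pw) (s + 1) n := by
  constructor
  · rintro ⟨b, hb, hbt⟩
    obtain ⟨a, ha, haD⟩ := lift_chain K p pw h s (n + 1) b hb
    have htv := ((mem_chains_cone p pw K (s + 1) n t).mp ht.1).1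
    set x : Finset V → P3 := (fun ψ => t (up ψ)) - bdry a with hx
    have hxmem : x ∈ chains K p (s + 1) n :=
      Submodule.sub_mem _ htv (bdry_mem K p (s + 1) n a ha)
    have hxD : ∀ ψ, D pw (s + 1) (x ψ) = 0 := by
      intro ψ
      rw [hx, Pi.sub_apply, map_sub, D_bdry]
      have h1 : (fun ψ => D pw (s + 1) (a ψ)) = b := funext haD
      have h2 := congrFun hbt ψ
      rw [Phi_apply] at h2
      rw [h1, h2, sub_self]
    refine ⟨glue a x, glue_mem K p pw h (s + 1) (n + 1) (by omega) a x ha ?_ hxD, ?_⟩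
    · intro ψ
      have := hxmem ψ
      refine ⟨fun h' => this.1 ⟨h'.1, by omega⟩, fun h' => this.2 fun h'' => h' ⟨h''.1, by omega⟩⟩
    · apply ext_cone
      · intro ψ
        rw [bdry_up, glue_wup]
        have : (fun ψ => glue a x (up ψ)) = a := by
          funext ψ; exact glue_up a _ ψ
        rw [this, hx, Pi.sub_apply, sub_add_cancel]
      · intro ψ
        rw [bdry_wup]
        have : (fun ψ => glue a x (insert ⊥ (up ψ))) = x := by
          funext ψ; exact glue_wup a _ ψ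
        rw [this, hx, map_sub, bdry_bdry, sub_zero, cycle_w K p pw ht]
  · rintro ⟨c, hc, hct⟩
    refine ⟨Phi pw s c, Phi_mem K p pw s (n + 1) c hc, ?_⟩
    rw [← hct, Phi_bdry K p pw s (n + 1) c hc]

/-- the map on cycles -/
noncomputable def PhiZ (s n : ℕ) :
    cycles (cone K) (conf p pw) (s + 1) n →ₗ[ℝ] cycles K p s n :=
  ((Phi pw s).comp (Submodule.subtype _)).codRestrict _ (by
    intro t
    refine ⟨Phi_mem K p pw s n _ t.2.1, ?_⟩
    show bdry (Phi pw s (t : Finset (WithBot V) → P3)) = 0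
    rw [← Phi_bdry K p pw s n _ t.2.1]
    have : bdry (t : Finset (WithBot V) → P3) = 0 := t.2.2
    rw [this, map_zero])

theorem PhiZ_coe (s n : ℕ) (t : cycles (cone K) (conf p pw) (s + 1) n) :
    ((PhiZ K p pw s n t : cycles K p s n) : Finset V → P3) = Phi pw s t := rfl

theorem PhiZ_surj (h : GeneralPosition p pw) (s n : ℕ) (hn : n ≤ 3) :
    Function.Surjective (PhiZ K p pw s n) := by
  rintro ⟨b, hb⟩
  obtain ⟨t, ht, htb⟩ := lift_cycle K p pw h s n hn b hb
  exact ⟨⟨t, ht⟩, Subtype.ext htb⟩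

/-- Betti numbers in degrees `-1, 0, 1` -/
theorem betti_eq (h : GeneralPosition p pw) (s n : ℕ) (hn : n ≤ 2) :
    betti (cone K) (conf p pw) (s + 1) n = betti K p s n := by
  unfold betti
  set f := ((boundaries K p s n).submoduleOf (cycles K p s n)).mkQ.comp (PhiZ K p pw s n) with hf
  have hsurj : Function.Surjective f :=
    (Submodule.mkQ_surjective _).comp (PhiZ_surj K p pw h s n (by omega))
  have hker : LinearMap.ker f = (boundaries (cone K) (conf p pw) (s + 1) n).submoduleOf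
      (cycles (cone K) (conf p pw) (s + 1) n) := by
    ext t
    rw [LinearMap.mem_ker, hf, LinearMap.comp_apply, Submodule.mkQ_apply,
      Submodule.Quotient.mk_eq_zero]
    exact ker_homology K p pw h s n hn t t.2
  rw [← hker]
  exact (f.quotKerEquivOfSurjective hsurj).finrank_eq

/-! ### Degree two -/

theorem chains_four (s : ℕ) : chains K p s 4 = ⊥ := by
  rw [eq_bot_iff]
  intro c hc
  rw [Submodule.mem_bot]
  funext ψ
  refine (hc ψ).2 ?_
  rintro ⟨h1, h2⟩
  have := K.card_le ψ h1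
  omega

theorem betti_three (s : ℕ) : betti K p s 3 = Module.finrank ℝ (cycles K p s 3) := by
  unfold betti
  have h1 : (boundaries K p s 3).submoduleOf (cycles K p s 3) = ⊥ := by
    unfold boundaries
    rw [chains_four, Submodule.map_bot, Submodule.submoduleOf, Submodule.comap_bot]
    exact Submodule.ker_subtype _
  rw [h1]
  exact (Submodule.quotEquivOfEqBot ⊥ rfl).finrank_eq

theorem fg_Wsub : (Wsub p ∅).FG := by
  refine ⟨{1, X 0, X 1, X 2}, ?_⟩
  apply le_antisymm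
  · rw [Submodule.span_le]
    intro l hl
    simp only [Finset.coe_insert, Finset.coe_singleton, Set.mem_insert_iff,
      Set.mem_singleton_iff] at hl
    rcases hl with rfl | rfl | rfl | rfl
    · exact ⟨isAff_one, by simp⟩
    · exact ⟨isAff_X 0, by simp⟩
    · exact ⟨isAff_X 1, by simp⟩
    · exact ⟨isAff_X 2, by simp⟩
  · rintro l ⟨⟨a, b, c, d, rfl⟩, -⟩
    unfold aff
    have hs : ∀ y ∈ (({1, X 0, X 1, X 2} : Finset P3) : Set P3), ∀ r : ℝ,
        MvPolynomial.C r * y ∈ Submodule.span ℝ (({1, X 0, X 1, X 2} : Finset P3) : Set P3) := by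
      intro y hy r
      rw [← MvPolynomial.smul_eq_C_mul]
      exact Submodule.smul_mem _ _ (Submodule.subset_span hy)
    refine Submodule.add_mem _ (Submodule.add_mem _ (Submodule.add_mem _
      (hs _ (by simp) a) (hs _ (by simp) b)) (hs _ (by simp) c)) ?_
    have := hs 1 (by simp) d
    rwa [mul_one] at this

instance fin_restrict (s : ℕ) : Module.Finite ℝ (restrictTotalDegree (Fin 3) ℝ s) := by
  rw [restrict_eq (fun _ : Fin 1 => (0 : Fin 3 → ℝ)) s]
  exact Module.Finite.iff_fg.mpr ((fg_Wsub (V := Fin 1) (fun _ => 0)).pow s)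

instance fin_I (s : ℕ) (ψ : Finset V) : Module.Finite ℝ (I s p ψ) :=
  Module.Finite.of_injective (Submodule.inclusion (I_le s p ψ)) (Submodule.inclusion_injective _)

instance fin_cycles (s n : ℕ) : Module.Finite ℝ (cycles K p s n) := by
  let g : cycles K p s n →ₗ[ℝ] (Finset V → restrictTotalDegree (Fin 3) ℝ s) :=
    { toFun := fun c ψ => ⟨(c : Finset V → P3) ψ, by
        by_cases h : ψ ∈ K.faces ∧ ψ.card = n
        · exact I_le s p ψ ((c.2.1 ψ).1 h)
        · rw [(c.2.1 ψ).2 h]; exact Submodule.zero_mem _⟩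
      map_add' := fun a b => rfl
      map_smul' := fun r a => rfl }
  refine Module.Finite.of_injective g ?_
  intro a b hab
  apply Subtype.ext
  funext ψ
  exact congrArg Subtype.val (congrFun hab ψ)

/-- extension by zero -/
noncomputable def ext0 (s : ℕ)
    (x : (σ : {σ : Finset V // σ ∈ K.faces ∧ σ.card = 3}) → I (s + 1) (conf p pw) (insert ⊥ (up σ.1))) :
    Finset V → P3 :=
  fun ψ => if hψ : ψ ∈ K.faces ∧ ψ.card = 3 then (x ⟨ψ, hψ⟩ : P3) else 0

theorem ext0_pos (s : ℕ)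
    (x : (σ : {σ : Finset V // σ ∈ K.faces ∧ σ.card = 3}) → I (s + 1) (conf p pw) (insert ⊥ (up σ.1)))
    (ψ : Finset V) (hψ : ψ ∈ K.faces ∧ ψ.card = 3) : ext0 K p pw s x ψ = (x ⟨ψ, hψ⟩ : P3) := dif_pos hψ

theorem ext0_neg (s : ℕ)
    (x : (σ : {σ : Finset V // σ ∈ K.faces ∧ σ.card = 3}) → I (s + 1) (conf p pw) (insert ⊥ (up σ.1)))
    (ψ : Finset V) (hψ : ¬ (ψ ∈ K.faces ∧ ψ.card = 3)) : ext0 K p pw s x ψ = 0 := dif_neg hψ

theorem ext0_mem (s : ℕ)
    (x : (σ : {σ : Finset V // σ ∈ K.faces ∧ σ.card = 3}) → I (s + 1) (conf p pw) (insert ⊥ (up σ.1))) :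
    ext0 K p pw s x ∈ chains K p (s + 1) 3 := by
  rw [mem_chains]
  intro ψ
  refine ⟨fun hψ => ?_, fun hψ => ext0_neg K p pw s x ψ hψ⟩
  rw [ext0_pos K p pw s x ψ hψ]
  have h2 := (x ⟨ψ, hψ⟩).2
  rw [← I_up p pw (s + 1) ψ]
  exact I_mono (s + 1) (conf p pw) (Finset.subset_insert _ _) h2

theorem ext0_D (s : ℕ)
    (x : (σ : {σ : Finset V // σ ∈ K.faces ∧ σ.card = 3}) → I (s + 1) (conf p pw) (insert ⊥ (up σ.1)))
    (ψ : Finset V) : D pw (s + 1) (ext0 K p pw s x ψ) = 0 := by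
  by_cases hψ : ψ ∈ K.faces ∧ ψ.card = 3
  · rw [ext0_pos K p pw s x ψ hψ]
    exact D_zero_of_mem p pw (s + 1) ψ _ (x ⟨ψ, hψ⟩).2
  · rw [ext0_neg K p pw s x ψ hψ, map_zero]

theorem ext0_cycle (h : GeneralPosition p pw) (s : ℕ)
    (x : (σ : {σ : Finset V // σ ∈ K.faces ∧ σ.card = 3}) → I (s + 1) (conf p pw) (insert ⊥ (up σ.1))) :
    glue (ext0 K p pw s x) (-bdry (ext0 K p pw s x)) ∈ cycles (cone K) (conf p pw) (s + 1) 3 := by
  refine ⟨glue_mem K p pw h (s + 1) 3 le_rfl _ _ (ext0_mem K p pw s x)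
    (neg_bdry_cond K p (s + 1) 3 _ (ext0_mem K p pw s x)) ?_, ?_⟩
  · intro ψ
    rw [Pi.neg_apply, map_neg, D_bdry]
    have : (fun ψ => D pw (s + 1) (ext0 K p pw s x ψ)) = 0 := funext (ext0_D K p pw s x)
    rw [this, map_zero]
    simp
  · show bdry (glue (ext0 K p pw s x) (-bdry (ext0 K p pw s x))) = 0
    apply ext_cone
    · intro ψ
      rw [bdry_up, glue_wup]
      have : (fun ψ => glue (ext0 K p pw s x) (-bdry (ext0 K p pw s x)) (up ψ)) = ext0 K p pw s x := by
        funext ψ; exact glue_up _ _ ψ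
      rw [this]
      simp
    · intro ψ
      rw [bdry_wup]
      have : (fun ψ => glue (ext0 K p pw s x) (-bdry (ext0 K p pw s x)) (insert ⊥ (up ψ)))
          = -bdry (ext0 K p pw s x) := by
        funext ψ; exact glue_wup _ _ ψ
      rw [this, map_neg, bdry_bdry]
      simp

/-- the kernel in degree two -/
noncomputable def kerEquiv (h : GeneralPosition p pw) (s : ℕ) :
    LinearMap.ker (PhiZ K p pw s 3) ≃ₗ[ℝ]
      ((σ : {σ : Finset V // σ ∈ K.faces ∧ σ.card = 3}) → I (s + 1) (conf p pw) (insert ⊥ (up σ.1))) where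
  toFun t σ := ⟨(t.1.1 : Finset (WithBot V) → P3) (up σ.1), by
    have h1 := ((mem_chains_cone p pw K (s + 1) 3 _).mp t.1.2.1).1 σ.1
    have h2 : Phi pw s (t.1.1 : Finset (WithBot V) → P3) = 0 := by
      have h3 : PhiZ K p pw s 3 t.1 = 0 := t.2
      rw [← PhiZ_coe, h3]
      rfl
    have h3 := congrFun h2 σ.1
    exact (D_eq_zero_iff p pw h (s + 1) σ.1 (K.card_le _ σ.2.1) _ (h1.1 σ.2)).mp h3⟩
  map_add' a b := rfl
  map_smul' r a := rfl
  invFun x := ⟨⟨_, ext0_cycle K p pw h s x⟩, by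
      rw [LinearMap.mem_ker]
      apply Subtype.ext
      rw [PhiZ_coe]
      funext ψ
      show D pw (s + 1) (glue (ext0 K p pw s x) (-bdry (ext0 K p pw s x)) (up ψ)) = 0
      rw [glue_up, ext0_D]⟩
  left_inv := by
    intro t
    apply Subtype.ext
    apply Subtype.ext
    have e : ext0 K p pw s (fun σ => ⟨(t.1.1 : Finset (WithBot V) → P3) (up σ.1), by
          have h1 := ((mem_chains_cone p pw K (s + 1) 3 _).mp t.1.2.1).1 σ.1
          have h2 : Phi pw s (t.1.1 : Finset (WithBot V) → P3) = 0 := by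
            have h3 : PhiZ K p pw s 3 t.1 = 0 := t.2
            rw [← PhiZ_coe, h3]
            rfl
          have h3 := congrFun h2 σ.1
          exact (D_eq_zero_iff p pw h (s + 1) σ.1 (K.card_le _ σ.2.1) _ (h1.1 σ.2)).mp h3⟩)
        = (fun ψ => (t.1.1 : Finset (WithBot V) → P3) (up ψ)) := by
      funext ψ
      by_cases hψ : ψ ∈ K.faces ∧ ψ.card = 3
      · rw [ext0_pos K p pw s _ ψ hψ]
      · rw [ext0_neg K p pw s _ ψ hψ]
        exact ((((mem_chains_cone p pw K (s + 1) 3 _).mp t.1.2.1).1 ψ).2 hψ).symm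
    apply ext_cone
    · intro ψ
      show glue _ _ (up ψ) = _
      rw [glue_up]
      exact congrFun e ψ
    · intro ψ
      show glue _ _ (insert ⊥ (up ψ)) = _
      rw [glue_wup, cycle_w K p pw t.1.2, Pi.neg_apply]
      congr 1
      exact congrFun (congrArg bdry e) ψ
  right_inv := by
    intro x
    funext σ
    apply Subtype.ext
    show glue _ _ (up σ.1) = _
    rw [glue_up, ext0_pos K p pw s x σ.1 σ.2]

theorem betti_two (h : GeneralPosition p pw) (s : ℕ) :
    betti (cone K) (conf p pw) (s + 1) 3 = betti K p s 3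
      + ∑ σ ∈ K.faces.filter (fun σ => σ.card = 3),
        Module.finrank ℝ (I (s + 1) (conf p pw) (insert ⊥ (up σ))) := by
  rw [betti_three, betti_three, ← LinearMap.finrank_range_add_finrank_ker (PhiZ K p pw s 3),
    LinearMap.range_eq_top.mpr (PhiZ_surj K p pw h s 3 le_rfl), finrank_top,
    (kerEquiv K p pw h s).finrank_eq, Module.finrank_pi_fintype]
  congr 1
  rw [← Finset.sum_coe_sort (K.faces.filter (fun σ => σ.card = 3))]
  refine Fintype.sum_equiv (Equiv.subtypeEquivRight (fun σ => ?_)) _ _ ?_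
  · rw [Finset.mem_filter]
  · intro σ
    rfl

end Pool.Agent.Q225.Cof
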