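import Mathlib

/-! Trivariate cofactor chain complexes of simplicial 2-complexes, and truncated cones. -/

set_option autoImplicit false

namespace Pool.Agent.Q225.Cof

open MvPolynomial

/-- real polynomials in three variables -/
abbrev P3 : Type := MvPolynomial (Fin 3) ℝ

/-- the affine form `a x + b y + c z + d` -/
noncomputable def aff (a b c d : ℝ) : P3 :=
  MvPolynomial.C a * X 0 + MvPolynomial.C b * X 1 + MvPolynomial.C c * X 2 + MvPolynomial.C d

/-- the affine forms vanishing at the points of `ψ` -/
def I1 {V : Type} (p : V → Fin 3 → ℝ) (ψ : Finset V) : Set P3 :=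
  {l | (∃ a b c d : ℝ, l = aff a b c d) ∧ ∀ v ∈ ψ, eval (p v) l = 0}

open Classical in
/-- the space `I^s_ψ`: the span of the powers `l ^ s`, `l ∈ I^1_ψ`, for a nonempty simplex `ψ`, and
the space of all polynomials of degree at most `s` for `ψ = ∅` -/
noncomputable def I {V : Type} (s : ℕ) (p : V → Fin 3 → ℝ) (ψ : Finset V) : Submodule ℝ P3 :=
  if ψ = ∅ then restrictTotalDegree (Fin 3) ℝ s else Submodule.span ℝ ((fun l => l ^ s) '' I1 p ψ)

/-- finite simplicial complexes of dimension at most `2` with vertex set `V` (the empty face is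
included among the faces) -/
structure Complex2 (V : Type) where
  faces : Finset (Finset V)
  empty_mem : ∅ ∈ faces
  vertex_mem : ∀ v, {v} ∈ faces
  down_closed : ∀ ψ ∈ faces, ∀ θ : Finset V, θ ⊆ ψ → θ ∈ faces
  card_le : ∀ ψ ∈ faces, ψ.card ≤ 3

section

variable {V : Type} [Fintype V] [LinearOrder V]

/-- the chains `∑ c_ψ [ψ]`, `c_ψ ∈ I^s_ψ`, over the faces `ψ` with `n` vertices, i.e. in degree `n - 1` -/
noncomputable def chains (K : Complex2 V) (p : V → Fin 3 → ℝ) (s n : ℕ) :
    Submodule ℝ (Finset V → P3) where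
  carrier := {c | ∀ ψ, ((ψ ∈ K.faces ∧ ψ.card = n) → c ψ ∈ I s p ψ) ∧
    (¬ (ψ ∈ K.faces ∧ ψ.card = n) → c ψ = 0)}
  add_mem' := by
    intro a b ha hb ψ
    refine ⟨fun h => Submodule.add_mem _ ((ha ψ).1 h) ((hb ψ).1 h), fun h => ?_⟩
    rw [Pi.add_apply, (ha ψ).2 h, (hb ψ).2 h, add_zero]
  zero_mem' := fun ψ => ⟨fun _ => Submodule.zero_mem _, fun _ => rfl⟩
  smul_mem' := by
    intro r a ha ψ
    refine ⟨fun h => Submodule.smul_mem _ _ ((ha ψ).1 h), fun h => ?_⟩
    rw [Pi.smul_apply, (ha ψ).2 h, smul_zero]

/-- the incidence number of `θ` and `θ ∪ {v}`, simplices being oriented by the order of `V` -/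
def sgn (v : V) (θ : Finset V) : ℝ := (-1) ^ (θ.filter (fun u => u < v)).card

/-- the boundary map: the coefficient of `θ` in the boundary of `∑ c_ψ [ψ]` is the sum over the
`ψ = θ ∪ {v}`, `v ∉ θ`, of the incidence number times `c_ψ` -/
noncomputable def bdry : (Finset V → P3) →ₗ[ℝ] (Finset V → P3) where
  toFun c θ := ∑ v ∈ Finset.univ.filter (fun v => v ∉ θ), sgn v θ • c (insert v θ)
  map_add' := by
    intro a b
    funext θ
    simp only [Pi.add_apply, smul_add, Finset.sum_add_distrib]
  map_smul' := by
    intro r a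
    funext θ
    simp only [Pi.smul_apply, RingHom.id_apply, Finset.smul_sum]
    exact Finset.sum_congr rfl fun v _ => smul_comm _ _ _

/-- cycles -/
noncomputable def cycles (K : Complex2 V) (p : V → Fin 3 → ℝ) (s n : ℕ) :
    Submodule ℝ (Finset V → P3) := chains K p s n ⊓ LinearMap.ker bdry

/-- boundaries -/
noncomputable def boundaries (K : Complex2 V) (p : V → Fin 3 → ℝ) (s n : ℕ) :
    Submodule ℝ (Finset V → P3) := (chains K p s (n + 1)).map bdry

/-- the Betti number in degree `n - 1` of the cofactor complex with parameter `s` -/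
noncomputable def betti (K : Complex2 V) (p : V → Fin 3 → ℝ) (s n : ℕ) : ℕ :=
  Module.finrank ℝ (cycles K p s n ⧸ (boundaries K p s n).submoduleOf (cycles K p s n))

end

/-- the vertices of `V` in a set of vertices of the cone with apex `⊥` -/
def down {V : Type} [Fintype V] [DecidableEq V] (φ : Finset (WithBot V)) : Finset V :=
  Finset.univ.filter (fun v => (v : WithBot V) ∈ φ)

/-- the simplex `ψ` as a simplex of the cone -/
def up {V : Type} (ψ : Finset V) : Finset (WithBot V) := ψ.map ⟨(WithBot.some : V → WithBot V), WithBot.coe_injective⟩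

/-- the truncated cone `(w * K)^2` with apex `w = ⊥`: the simplices with at most three vertices whose
vertices different from `w` form a simplex of `K` -/
def cone {V : Type} [Fintype V] [LinearOrder V] (K : Complex2 V) : Complex2 (WithBot V) where
  faces := Finset.univ.filter (fun φ => down φ ∈ K.faces ∧ φ.card ≤ 3)
  empty_mem := by
    have : down (∅ : Finset (WithBot V)) = ∅ := by simp [down]
    simp [this, K.empty_mem]
  vertex_mem := by
    intro w
    have h : down ({w} : Finset (WithBot V)) = ∅ ∨ ∃ v, down ({w} : Finset (WithBot V)) = {v} := by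
      induction w using WithBot.recBotCoe with
      | bot => left; ext v; simp [down]
      | coe v =>
        right
        refine ⟨v, ?_⟩
        ext u
        simp [down]
    rcases h with h | ⟨v, h⟩
    · simp [h, K.empty_mem]
    · simp [h, K.vertex_mem v]
  down_closed := by
    intro φ hφ θ hθ
    rw [Finset.mem_filter] at hφ ⊢
    refine ⟨Finset.mem_univ _, K.down_closed _ hφ.2.1 _ ?_, (Finset.card_le_card hθ).trans hφ.2.2⟩
    intro v hv
    unfold down at hv ⊢
    rw [Finset.mem_filter] at hv ⊢
    exact ⟨Finset.mem_univ _, hθ hv.2⟩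
  card_le := by
    intro φ hφ
    rw [Finset.mem_filter] at hφ
    exact hφ.2.2

/-- the configuration of the cone: the apex at `pw` -/
def conf {V : Type} (p : V → Fin 3 → ℝ) (pw : Fin 3 → ℝ) : WithBot V → Fin 3 → ℝ
  | ⊥ => pw
  | (v : V) => p v

/-- `pw` lies in no proper affine subspace spanned by points `p v` -/
def GeneralPosition {V : Type} (p : V → Fin 3 → ℝ) (pw : Fin 3 → ℝ) : Prop :=
  ∀ T : Set V, affineSpan ℝ (p '' T) ≠ ⊤ → pw ∉ affineSpan ℝ (p '' T)

end Pool.Agent.Q225.Cof
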