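import Pool.Agent.Q225.CofD

set_option autoImplicit false
set_option linter.unusedSectionVars false

namespace Pool.Agent.Q225.Cof

open MvPolynomial

variable {V : Type} [Fintype V] [LinearOrder V] (K : Complex2 V)
variable (p : V → Fin 3 → ℝ) (pw : Fin 3 → ℝ)

/-- linear part -/
theorem aff_sub (a b c d : ℝ) (x y : Fin 3 → ℝ) :
    eval x (aff a b c d) - eval y (aff a b c d) = a * (x - y) 0 + b * (x - y) 1 + c * (x - y) 2 := by
  unfold aff
  simp only [map_add, map_mul, eval_C, eval_X, Pi.sub_apply]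
  ring

/-- the linear part as a functional -/
noncomputable def lin (a b c : ℝ) : Module.Dual ℝ (Fin 3 → ℝ) :=
  a • LinearMap.proj 0 + b • LinearMap.proj 1 + c • LinearMap.proj 2

theorem lin_apply (a b c : ℝ) (x : Fin 3 → ℝ) : lin a b c x = a * x 0 + b * x 1 + c * x 2 := rfl

theorem Wsub_bot (h : GeneralPosition p pw) (σ : Finset V) (hσ : σ.card = 3)
    (hi : AffineIndependent ℝ (fun v : σ => p v)) : Wsub (conf p pw) (insert ⊥ (up σ)) = ⊥ := by
  rw [eq_bot_iff]
  intro l hl
  rw [mem_Wsub_wup, mem_Wsub] at hl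
  obtain ⟨⟨⟨a, b, c, d, rfl⟩, h1⟩, h2⟩ := hl
  rw [Submodule.mem_bot]
  obtain ⟨v₀, hv₀⟩ : σ.Nonempty := Finset.card_pos.mp (by omega)
  set Sp := affineSpan ℝ (p '' (σ : Set V)) with hSp
  have hrange : Set.range (fun v : σ => p v) = p '' (σ : Set V) := by
    ext x; simp
  have hdir : Sp.direction = vectorSpan ℝ (Set.range (fun v : σ => p v)) := by
    rw [hSp, direction_affineSpan, hrange]
  have hfin : Module.finrank ℝ Sp.direction = 2 := by
    rw [hdir]
    exact hi.finrank_vectorSpan (by rw [Fintype.card_coe, hσ])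
  have hne : Sp ≠ ⊤ := by
    intro htop
    rw [htop, AffineSubspace.direction_top, finrank_top] at hfin
    simp at hfin
  have hpw := h (σ : Set V) hne
  have hq : p v₀ ∈ Sp := subset_affineSpan ℝ _ ⟨v₀, hv₀, rfl⟩
  have hnd : pw - p v₀ ∉ Sp.direction := by
    intro hcon
    apply hpw
    have := AffineSubspace.vadd_mem_of_mem_direction hcon hq
    rwa [vadd_eq_add, sub_add_cancel] at this
  have hk1 : Sp.direction ≤ LinearMap.ker (lin a b c) := by
    rw [hSp, direction_affineSpan, vectorSpan_def, Submodule.span_le]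
    rintro _ ⟨_, ⟨u, hu, rfl⟩, _, ⟨v, hv, rfl⟩, rfl⟩
    show lin a b c (p u - p v) = 0
    rw [lin_apply, ← aff_sub a b c d, h1 u hu, h1 v hv, sub_zero]
  have hk2 : pw - p v₀ ∈ LinearMap.ker (lin a b c) := by
    rw [LinearMap.mem_ker, lin_apply, ← aff_sub a b c d, h2, h1 v₀ hv₀, sub_zero]
  have hlt : Sp.direction < LinearMap.ker (lin a b c) :=
    lt_of_le_of_ne hk1 (fun he => hnd (he ▸ hk2))
  have hfin2 := Submodule.finrank_lt_finrank_of_lt hlt
  have htop : LinearMap.ker (lin a b c) = ⊤ := by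
    apply Submodule.eq_top_of_finrank_eq
    have h3 := Submodule.finrank_le (LinearMap.ker (lin a b c))
    have h4 : Module.finrank ℝ (Fin 3 → ℝ) = 3 := by simp
    omega
  have hz : ∀ x, lin a b c x = 0 := by
    intro x
    have : x ∈ LinearMap.ker (lin a b c) := by rw [htop]; exact Submodule.mem_top
    exact this
  have ha : a = 0 := by simpa [lin_apply] using hz (Pi.single 0 1)
  have hb : b = 0 := by simpa [lin_apply] using hz (Pi.single 1 1)
  have hc : c = 0 := by simpa [lin_apply] using hz (Pi.single 2 1)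
  subst ha hb hc
  have hd : d = 0 := by
    unfold aff at h2
    simpa using h2
  subst hd
  unfold aff
  simp

theorem exists_nonzero (σ : Finset V) (hσ : σ.card = 3)
    (hi : ¬ AffineIndependent ℝ (fun v : σ => p v)) :
    ∃ l ∈ Wsub (conf p pw) (insert ⊥ (up σ)), l ≠ 0 := by
  have hrange : Set.range (fun v : σ => p v) = p '' (σ : Set V) := by
    ext x; simp
  have hfin : Module.finrank ℝ (vectorSpan ℝ (p '' (σ : Set V))) ≤ 1 := by
    rw [← hrange]
    exact (finrank_vectorSpan_le_iff_not_affineIndependent ℝ _ (by rw [Fintype.card_coe, hσ])).mpr hi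
  have hfin2 := finrank_vectorSpan_insert_le_set ℝ (p '' (σ : Set V)) pw
  have hne : vectorSpan ℝ (insert pw (p '' (σ : Set V))) ≠ ⊤ := by
    intro htop
    rw [htop, finrank_top] at hfin2
    simp at hfin2
    omega
  obtain ⟨f, hf0, hf⟩ := Submodule.exists_le_ker_of_lt_top _ (lt_top_iff_ne_top.mpr hne)
  obtain ⟨l, hl, hl2⟩ := exists_aff f pw
  refine ⟨l, ?_, ?_⟩
  · rw [mem_Wsub_wup, mem_Wsub]
    refine ⟨⟨hl, fun v hv => ?_⟩, ?_⟩
    · rw [hl2]
      exact hf (vsub_mem_vectorSpan ℝ (Set.mem_insert_of_mem _ ⟨v, hv, rfl⟩) (Set.mem_insert _ _))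
    · rw [hl2, sub_self, map_zero]
  · rintro rfl
    apply hf0
    ext x
    have := hl2 (Pi.single x 1 + pw)
    rw [add_sub_cancel_right, map_zero] at this
    simpa using this.symm

theorem finrank_eq_zero_iff (h : GeneralPosition p pw) (s : ℕ) (σ : Finset V) (hσ : σ.card = 3) :
    Module.finrank ℝ (I (s + 1) (conf p pw) (insert ⊥ (up σ))) = 0
      ↔ AffineIndependent ℝ (fun v : σ => p v) := by
  rw [Submodule.finrank_eq_zero]
  constructor
  · intro h0
    by_contra hi
    obtain ⟨l, hl, hl0⟩ := exists_nonzero p pw σ hσ hi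
    have h1 : l ^ (s + 1) ∈ I (s + 1) (conf p pw) (insert ⊥ (up σ)) := by
      rw [I_eq]
      exact Submodule.pow_mem_pow _ hl _
    rw [h0, Submodule.mem_bot] at h1
    exact hl0 (pow_eq_zero_iff (by omega) |>.mp h1)
  · intro hi
    rw [I_eq, Wsub_bot p pw h σ hσ hi, pow_succ, Submodule.mul_bot]

end Pool.Agent.Q225.Cof
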