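import Pool.Agent.Q225.CoxDefs

set_option autoImplicit false

namespace Pool.Agent.Q225.Cox

open scoped InnerProductSpace
open Classical

variable {V : Type} [NormedAddCommGroup V] [InnerProductSpace ℝ V] {R : Finset V}

/-- the cone of a set of roots -/
def cone (A : Finset V) : Set V := {x | ∀ a ∈ A, 0 ≤ ⟪a, x⟫_ℝ}

/-- the subcomplex of a set of roots -/
def sub (R A : Finset V) : Set (Set V) := {c | c ∈ coxeterComplex R ∧ ∀ a ∈ A, c ∈ halfApartment R a}

theorem mem_cell (x : V) : x ∈ cell R x := fun _ _ => rfl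

theorem cell_mem_sub (A : Finset V) (hA : A ⊆ R) (x : V) (hx : x ≠ 0) :
    cell R x ∈ sub R A ↔ x ∈ cone A := by
  constructor
  · rintro ⟨_, h⟩ a ha
    exact (h a ha).2 x (mem_cell x)
  · intro h
    refine ⟨⟨x, hx, rfl⟩, fun a ha => ⟨⟨x, hx, rfl⟩, fun y hy => ?_⟩⟩
    have h1 := hy a (hA ha)
    have h2 := h a ha
    rw [← sign_nonneg_iff] at h2 ⊢
    rw [h1]; exact h2

theorem sub_subset_iff (A B : Finset V) (hA : A ⊆ R) (hB : B ⊆ R) :
    sub R A ⊆ sub R B ↔ cone A ⊆ cone B := by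
  constructor
  · intro h x hx
    by_cases h0 : x = 0
    · subst h0
      intro a _
      simp
    · exact (cell_mem_sub B hB x h0).mp (h ((cell_mem_sub A hA x h0).mpr hx))
  · rintro h c ⟨⟨x, hx, rfl⟩, h2⟩
    exact (cell_mem_sub B hB x hx).mpr (h ((cell_mem_sub A hA x hx).mp ⟨⟨x, hx, rfl⟩, h2⟩))

theorem sub_nonempty_iff (A : Finset V) (hA : A ⊆ R) :
    (sub R A).Nonempty ↔ ∃ x ∈ cone A, x ≠ 0 := by
  constructor
  · rintro ⟨c, ⟨x, hx, rfl⟩, h2⟩
    exact ⟨x, (cell_mem_sub A hA x hx).mp ⟨⟨x, hx, rfl⟩, h2⟩, hx⟩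
  · rintro ⟨x, h, hx⟩
    exact ⟨cell R x, (cell_mem_sub A hA x hx).mpr h⟩

/-- an element of the poset -/
def mk (A : Finset V) (hA : A ⊆ R) (h : ∃ x ∈ cone A, x ≠ 0) : Y R :=
  ⟨sub R A, ⟨A, hA, rfl⟩, (sub_nonempty_iff A hA).mpr h⟩

theorem mk_lt (A B : Finset V) (hA : A ⊆ R) (hB : B ⊆ R) (h : ∃ x ∈ cone A, x ≠ 0)
    (h' : ∃ x ∈ cone B, x ≠ 0) (hsub : cone A ⊆ cone B) (hne : ∃ x ∈ cone B, x ∉ cone A) :
    mk A hA h < mk B hB h' := by
  refine lt_of_le_not_ge ((sub_subset_iff A B hA hB).mpr hsub) fun hcon => ?_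
  obtain ⟨x, hx, hx'⟩ := hne
  exact hx' ((sub_subset_iff B A hB hA).mp hcon hx)

/-! ### Upper bound -/

section upper

variable [FiniteDimensional ℝ V] (Rp : Finset V)

/-- the walls crossing a cone -/
noncomputable def cut (P : Set V) : Finset V :=
  Rp.filter (fun a => (∃ x ∈ P, 0 < ⟪a, x⟫_ℝ) ∧ (∃ x ∈ P, ⟪a, x⟫_ℝ < 0))

noncomputable def pot (P : Set V) : ℕ :=
  Module.finrank ℝ (Submodule.span ℝ P) + (cut Rp P).card

theorem pot_lt (P : Set V) (A : Finset V)
    (hA : ∀ a ∈ A, a ∈ Rp ∨ -a ∈ Rp) (h : cone A ⊆ P) (hne : ∃ x ∈ P, x ∉ cone A) :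
    pot Rp (cone A) < pot Rp P := by
  obtain ⟨x, hx, hx'⟩ := hne
  unfold cone at hx'
  simp only [Set.mem_ofPred_eq, not_forall, not_le] at hx'
  obtain ⟨a, ha, hax⟩ := hx'
  have hcut : cut Rp (cone A) ⊆ cut Rp P := by
    intro b hb
    unfold cut at hb ⊢
    rw [Finset.mem_filter] at hb ⊢
    obtain ⟨h1, ⟨x1, h2, h3⟩, ⟨x2, h4, h5⟩⟩ := hb
    exact ⟨h1, ⟨x1, h h2, h3⟩, ⟨x2, h h4, h5⟩⟩
  have hspan : Submodule.span ℝ (cone A) ≤ Submodule.span ℝ P := Submodule.span_mono h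
  unfold pot
  by_cases hpos : ∃ z ∈ cone A, 0 < ⟪a, z⟫_ℝ
  · obtain ⟨z, hz, hz'⟩ := hpos
    have hlt : (cut Rp (cone A)).card < (cut Rp P).card := by
      apply Finset.card_lt_card
      rw [Finset.ssubset_iff_of_subset hcut]
      rcases hA a ha with h1 | h1
      · refine ⟨a, Finset.mem_filter.mpr ⟨h1, ⟨z, h hz, hz'⟩, ⟨x, hx, hax⟩⟩, fun hcon => ?_⟩
        obtain ⟨w, hw, hw'⟩ := (Finset.mem_filter.mp hcon).2.2
        exact absurd (hw a ha) (not_le.mpr hw')
      · refine ⟨-a, Finset.mem_filter.mpr ⟨h1, ⟨x, hx, ?_⟩, ⟨z, h hz, ?_⟩⟩, fun hcon => ?_⟩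
        · rw [inner_neg_left]; linarith
        · rw [inner_neg_left]; linarith
        · obtain ⟨w, hw, hw'⟩ := (Finset.mem_filter.mp hcon).2.1
          rw [inner_neg_left] at hw'
          have := hw a ha
          linarith
    have := Submodule.finrank_mono hspan
    omega
  · push Not at hpos
    have hlt : Submodule.span ℝ (cone A) < Submodule.span ℝ P := by
      refine lt_of_le_not_ge hspan fun hcon => ?_
      have h1 : Submodule.span ℝ (cone A) ≤ LinearMap.ker (innerₗ V a) := by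
        rw [Submodule.span_le]
        intro z hz
        show innerₗ V a z = 0
        rw [innerₗ_apply_apply]
        exact le_antisymm (hpos z hz) (hz a ha)
      have h2 := h1 (hcon (Submodule.subset_span hx))
      rw [LinearMap.mem_ker, innerₗ_apply_apply] at h2
      linarith
    have h3 := Submodule.finrank_lt_finrank_of_lt hlt
    have h4 := Finset.card_le_card hcut
    omega

/-- the cone of a convex subcomplex -/
def coneOf (R : Finset V) (K : Set (Set V)) : Set V := {x | x = 0 ∨ cell R x ∈ K}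

theorem coneOf_sub (A : Finset V) (hA : A ⊆ R) : coneOf R (sub R A) = cone A := by
  ext x
  show (x = 0 ∨ cell R x ∈ sub R A) ↔ x ∈ cone A
  by_cases h0 : x = 0
  · subst h0
    refine ⟨fun _ a _ => by simp, fun _ => Or.inl rfl⟩
  · rw [cell_mem_sub A hA x h0]
    exact ⟨fun h => h.resolve_left h0, Or.inr⟩

theorem krullDim_le (hR : ∀ a ∈ R, a ∈ Rp ∨ -a ∈ Rp) :
    Order.krullDim (Y R) ≤ ((Module.finrank ℝ V - 1 + Rp.card : ℕ) : WithBot ℕ∞) := by
  have hmono : StrictMono (fun K : Y R => pot Rp (coneOf R K.1)) := by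
    rintro ⟨K, ⟨A, hA, rfl⟩, hK⟩ ⟨L, ⟨B, hB, rfl⟩, hL⟩ hlt
    have hle : sub R A ⊆ sub R B := hlt.le
    have hnle : ¬ sub R B ⊆ sub R A := fun h => absurd hlt (not_lt_of_ge h)
    show pot Rp (coneOf R (sub R A)) < pot Rp (coneOf R (sub R B))
    rw [coneOf_sub A hA, coneOf_sub B hB]
    rw [sub_subset_iff A B hA hB] at hle
    rw [sub_subset_iff B A hB hA, Set.not_subset] at hnle
    exact pot_lt Rp (cone B) A (fun a ha => hR a (hA ha)) hle hnle
  have hub : ∀ K : Y R, pot Rp (coneOf R K.1) ≤ Module.finrank ℝ V + Rp.card := by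
    intro K
    unfold pot
    exact add_le_add (Submodule.finrank_le _) (Finset.card_le_card (Finset.filter_subset _ _))
  have hlb : ∀ K : Y R, 1 ≤ pot Rp (coneOf R K.1) := by
    rintro ⟨K, ⟨A, hA, rfl⟩, hK⟩
    show 1 ≤ pot Rp (coneOf R (sub R A))
    rw [coneOf_sub A hA]
    obtain ⟨x, hx, hx0⟩ := (sub_nonempty_iff A hA).mp hK
    unfold pot
    have : 0 < Module.finrank ℝ (Submodule.span ℝ (cone A)) := by
      rw [Module.finrank_pos_iff]
      exact ⟨⟨⟨x, Submodule.subset_span hx⟩, 0, fun h => hx0 (congrArg Subtype.val h)⟩⟩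
    omega
  unfold Order.krullDim
  refine iSup_le fun l => ?_
  have h1 := LTSeries.head_add_length_le_nat (l.map _ hmono)
  rw [LTSeries.head_map, LTSeries.last_map] at h1
  have h0 : (l.map (fun K : Y R => pot Rp (coneOf R K.1)) hmono).length = l.length := rfl
  rw [h0] at h1
  have h2 := hub l.last
  have h3 := hlb l.head
  have h4 : l.length ≤ Module.finrank ℝ V - 1 + Rp.card := by omega
  exact_mod_cast h4

end upper

/-! ### Lower bound -/

section lower

variable (Rp : Finset V)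

/-- the linear functional `⟪b, x⟫ a - ⟪a, x⟫ b` -/
noncomputable def lam (x : V) (a b : V) : Module.Dual ℝ V :=
  ⟪b, x⟫_ℝ • (innerₗ V a) - ⟪a, x⟫_ℝ • (innerₗ V b)

theorem lam_apply (x a b y : V) : lam x a b y = ⟪b, x⟫_ℝ * ⟪a, y⟫_ℝ - ⟪a, x⟫_ℝ * ⟪b, y⟫_ℝ := by
  simp [lam]

/-- the support of the face of `x` -/
def U (x : V) : Submodule ℝ V where
  carrier := {u | ∀ a ∈ Rp, ⟪a, x⟫_ℝ = 0 → ⟪a, u⟫_ℝ = 0}
  add_mem' := by
    intro u v hu hv a ha h
    rw [inner_add_right, hu a ha h, hv a ha h, add_zero]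
  zero_mem' := by
    intro a _ _
    simp
  smul_mem' := by
    intro c u hu a ha h
    rw [inner_smul_right, hu a ha h, mul_zero]

theorem mem_U {x u : V} : u ∈ U Rp x ↔ ∀ a ∈ Rp, ⟪a, x⟫_ℝ = 0 → ⟪a, u⟫_ℝ = 0 := Iff.rfl

/-- the roots defining the face of `x` -/
noncomputable def face (x : V) : Finset V :=
  Rp ∪ (Rp.filter (fun a => ⟪a, x⟫_ℝ = 0)).image (fun a => -a)

theorem mem_face {x a : V} : a ∈ face Rp x ↔ a ∈ Rp ∨ ∃ b ∈ Rp, ⟪b, x⟫_ℝ = 0 ∧ -b = a := by
  unfold face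
  rw [Finset.mem_union, Finset.mem_image]
  constructor
  · rintro (h | ⟨b, hb, h⟩)
    · exact Or.inl h
    · rw [Finset.mem_filter] at hb
      exact Or.inr ⟨b, hb.1, hb.2, h⟩
  · rintro (h | ⟨b, hb, h0, h⟩)
    · exact Or.inl h
    · exact Or.inr ⟨b, Finset.mem_filter.mpr ⟨hb, h0⟩, h⟩

theorem face_sub (hRp : Rp ⊆ R) (hneg : ∀ a ∈ Rp, -a ∈ R) (x : V) : face Rp x ⊆ R := by
  intro a ha
  rw [mem_face] at ha
  rcases ha with h | ⟨b, hb, _, rfl⟩
  · exact hRp h
  · exact hneg b hb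

theorem mem_cone_face (x : V) (h : ∀ a ∈ Rp, 0 ≤ ⟪a, x⟫_ℝ) : x ∈ cone (face Rp x) := by
  intro a ha
  rw [mem_face] at ha
  rcases ha with h1 | ⟨b, _, h0, rfl⟩
  · exact h a h1
  · rw [inner_neg_left, h0, neg_zero]

variable [FiniteDimensional ℝ V]

theorem finrank_inf_ker (W : Submodule ℝ V) (b : V) :
    Module.finrank ℝ W ≤ Module.finrank ℝ (W ⊓ LinearMap.ker (innerₗ V b) : Submodule ℝ V) + 1 := by
  have h1 := Submodule.finrank_sup_add_finrank_inf_eq W (LinearMap.ker (innerₗ V b))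
  have h2 := LinearMap.finrank_range_add_finrank_ker (innerₗ V b)
  have h3 : Module.finrank ℝ (LinearMap.range (innerₗ V b)) ≤ 1 := by
    have := Submodule.finrank_le (LinearMap.range (innerₗ V b))
    simpa using this
  have h4 := Submodule.finrank_le (W ⊔ LinearMap.ker (innerₗ V b))
  omega

theorem phase2 (hRp : Rp ⊆ R) (hneg : ∀ a ∈ Rp, -a ∈ R)
    (hspan : ∀ z : V, (∀ a ∈ Rp, ⟪a, z⟫_ℝ = 0) → z = 0) (k : ℕ) : ∀ (x : V) (_ : x ≠ 0)
    (_ : ∀ a ∈ Rp, 0 ≤ ⟪a, x⟫_ℝ) (_ : k + 1 ≤ Module.finrank ℝ (U Rp x))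
    (h : ∃ z ∈ cone (face Rp x), z ≠ 0), (k : ℕ∞) ≤ Order.height (mk (face Rp x) (face_sub Rp hRp hneg x) h) := by
  induction k with
  | zero => intro x _ _ _ h; simp
  | succ k ih =>
    intro x hx0 hx hfin h
    have hxU : x ∈ U Rp x := fun a _ h => h
    -- a vector of `U` orthogonal to `x`
    obtain ⟨w, hwU, hwx⟩ : ∃ w ∈ U Rp x, w ∉ Submodule.span ℝ {x} := by
      by_contra hcon
      push Not at hcon
      have h1 : U Rp x ≤ Submodule.span ℝ {x} := hcon
      have h2 := Submodule.finrank_mono h1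
      have h3 := finrank_span_le_card (R := ℝ) ({x} : Set V)
      simp at h3
      omega
    set c : ℝ := ⟪x, w⟫_ℝ / ⟪x, x⟫_ℝ with hc
    have hxx : ⟪x, x⟫_ℝ ≠ 0 := inner_self_ne_zero.mpr hx0
    set w' := w - c • x with hw'
    have hw'U : w' ∈ U Rp x := Submodule.sub_mem _ hwU (Submodule.smul_mem _ _ hxU)
    have hw'0 : w' ≠ 0 := by
      intro h0
      apply hwx
      rw [sub_eq_zero.mp h0]
      exact Submodule.smul_mem _ _ (Submodule.mem_span_singleton_self x)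
    have hw'x : ⟪w', x⟫_ℝ = 0 := by
      rw [hw', inner_sub_left, inner_smul_left, real_inner_comm, hc]
      simp only [conj_trivial]
      field_simp
      ring
    let ι := Option {q : V × V // q ∈ Rp ×ˢ Rp ∧ ∃ u ∈ U Rp x, lam x q.1 q.2 u ≠ 0}
    have : Finite {q : V × V // q ∈ Rp ×ˢ Rp ∧ ∃ u ∈ U Rp x, lam x q.1 q.2 u ≠ 0} :=
      ((Rp ×ˢ Rp).finite_toSet.subset fun q hq => hq.1).to_subtype
    obtain ⟨y, hyU, hy⟩ := Module.Dual.exists_forall_mem_ne_zero_of_forall_exists (U Rp x)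
      (fun i : ι => i.elim (innerₗ V w') (fun q => lam x q.1.1 q.1.2)) (by
        rintro (_ | ⟨q, hq, hq2⟩)
        · refine ⟨w', hw'U, ?_⟩
          show innerₗ V w' w' ≠ 0
          rw [innerₗ_apply_apply]
          exact inner_self_ne_zero.mpr hw'0
        · exact hq2)
    have hy0 : ⟪w', y⟫_ℝ ≠ 0 := by
      have := hy none
      simpa using this
    have hyq : ∀ a ∈ Rp, ∀ b ∈ Rp, lam x a b y = 0 → ∀ u ∈ U Rp x, lam x a b u = 0 := by
      intro a ha b hb h0 u hu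
      by_contra hcon
      exact hy (some ⟨(a, b), Finset.mem_product.mpr ⟨ha, hb⟩, u, hu, hcon⟩) h0
    -- the wall hit last
    have hQ : (Rp.filter (fun a => 0 < ⟪a, x⟫_ℝ)).Nonempty := by
      by_contra hcon
      rw [Finset.not_nonempty_iff_eq_empty, Finset.filter_eq_empty_iff] at hcon
      exact hx0 (hspan x fun a ha => le_antisymm (not_lt.mp (hcon ha)) (hx a ha))
    obtain ⟨b, hb, hmax⟩ := Finset.exists_max_image _ (fun a => -⟪a, y⟫_ℝ / ⟪a, x⟫_ℝ) hQ
    rw [Finset.mem_filter] at hb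
    set r : ℝ := -⟪b, y⟫_ℝ / ⟪b, x⟫_ℝ with hr
    set x' := y + r • x with hx'
    have hbx' : ⟪b, x'⟫_ℝ = 0 := by
      rw [hx', inner_add_right, inner_smul_right, hr]
      have := hb.2.ne'
      field_simp
      ring
    have hx'0 : x' ≠ 0 := by
      intro h0
      apply hy0
      have h1 : ⟪w', x'⟫_ℝ = 0 := by rw [h0, inner_zero_right]
      rw [hx', inner_add_right, inner_smul_right, hw'x] at h1
      linarith
    have hzero : ∀ a ∈ Rp, ⟪a, x⟫_ℝ = 0 → ⟪a, x'⟫_ℝ = 0 := by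
      intro a ha h0
      rw [hx', inner_add_right, inner_smul_right, h0, hyU a ha h0]
      ring
    have hx'D : ∀ a ∈ Rp, 0 ≤ ⟪a, x'⟫_ℝ := by
      intro a ha
      rcases (hx a ha).lt_or_eq with hpos | h0
      · have h1 := hmax a (Finset.mem_filter.mpr ⟨ha, hpos⟩)
        rw [div_le_iff₀ hpos] at h1
        rw [hx', inner_add_right, inner_smul_right]
        linarith
      · rw [hzero a ha h0.symm]
    have hU' : U Rp x ⊓ LinearMap.ker (innerₗ V b) ≤ U Rp x' := by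
      rintro u ⟨hu1, hu2⟩ a ha h0
      have hu2' : ⟪b, u⟫_ℝ = 0 := by
        have : innerₗ V b u = 0 := hu2
        rwa [innerₗ_apply_apply] at this
      rcases (hx a ha).lt_or_eq with hpos | h0'
      · have h1 : lam x a b y = 0 := by
          rw [lam_apply]
          rw [hx', inner_add_right, inner_smul_right] at h0
          have h2 : ⟪a, y⟫_ℝ = - (r * ⟪a, x⟫_ℝ) := by linarith
          rw [h2, hr]
          have := hb.2.ne'
          field_simp
          ring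
        have h2 := hyq a ha b hb.1 h1 u hu1
        rw [lam_apply, hu2'] at h2
        have h3 : ⟪b, x⟫_ℝ * ⟪a, u⟫_ℝ = 0 := by linarith
        exact (mul_eq_zero.mp h3).resolve_left hb.2.ne'
      · exact hu1 a ha h0'.symm
    have hfin' : k + 1 ≤ Module.finrank ℝ (U Rp x') := by
      have h1 := finrank_inf_ker (U Rp x) b
      have h2 := Submodule.finrank_mono hU'
      omega
    have hne' : ∃ z ∈ cone (face Rp x'), z ≠ 0 := ⟨x', mem_cone_face Rp x' hx'D, hx'0⟩
    have hIH := ih x' hx'0 hx'D hfin' hne'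
    have hlt : mk (face Rp x') (face_sub Rp hRp hneg x') hne' < mk (face Rp x) (face_sub Rp hRp hneg x) h := by
      apply mk_lt
      · intro z hz a ha
        rw [mem_face] at ha
        rcases ha with h1 | ⟨d, hd, h0, rfl⟩
        · exact hz a ((mem_face Rp).mpr (Or.inl h1))
        · exact hz _ ((mem_face Rp).mpr (Or.inr ⟨d, hd, hzero d hd h0, rfl⟩))
      · refine ⟨x, mem_cone_face Rp x hx, fun hcon => ?_⟩
        have h1 := hcon (-b) ((mem_face Rp).mpr (Or.inr ⟨b, hb.1, hbx', rfl⟩))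
        rw [inner_neg_left] at h1
        linarith [hb.2]
    calc ((k + 1 : ℕ) : ℕ∞) = (k : ℕ∞) + 1 := by push_cast; rfl
      _ ≤ Order.height (mk (face Rp x') (face_sub Rp hRp hneg x') hne') + 1 := by gcongr
      _ ≤ _ := Order.height_add_one_le hlt

theorem exists_between_finset (T : Finset ℝ) (t : ℝ) (h : ∀ u ∈ T, u < t) :
    ∃ s, (∀ u ∈ T, u < s) ∧ s < t := by
  induction T using Finset.induction_on with
  | empty => exact ⟨t - 1, by simp, by linarith⟩
  | insert a T ha ih =>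
    obtain ⟨s, h1, h2⟩ := ih (fun u hu => h u (Finset.mem_insert_of_mem hu))
    have h3 := h a (Finset.mem_insert_self a T)
    refine ⟨max s ((a + t) / 2), fun u hu => ?_, max_lt h2 (by linarith)⟩
    rcases Finset.mem_insert.mp hu with rfl | hu
    · exact lt_max_of_lt_right (by linarith)
    · exact lt_max_of_lt_left (h1 u hu)

theorem phase1 (hRp : Rp ⊆ R) (hneg : ∀ a ∈ Rp, -a ∈ R)
    (hspan : ∀ z : V, (∀ a ∈ Rp, ⟪a, z⟫_ℝ = 0) → z = 0) (x₀ : V) (hx₀ : x₀ ≠ 0)
    (hpos : ∀ a ∈ Rp, 0 < ⟪a, x₀⟫_ℝ) (y : V)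
    (hy : ∀ a ∈ Rp, ∀ b ∈ Rp, a ≠ b → -⟪a, y⟫_ℝ / ⟪a, x₀⟫_ℝ ≠ -⟪b, y⟫_ℝ / ⟪b, x₀⟫_ℝ) (m : ℕ) :
    ∀ (B : Finset V) (hB : B ⊆ Rp) (_ : ∀ b ∈ B, ∀ a ∈ Rp \ B,
      -⟪b, y⟫_ℝ / ⟪b, x₀⟫_ℝ < -⟪a, y⟫_ℝ / ⟪a, x₀⟫_ℝ) (_ : (Rp \ B).card = m)
      (h : ∃ z ∈ cone B, z ≠ 0),
      ((Module.finrank ℝ V - 1 + m : ℕ) : ℕ∞) ≤ Order.height (mk B (hB.trans hRp) h) := by
  induction m with
  | zero =>
    intro B hB _ hcard h
    have hBR : B = Rp := by
      apply Finset.Subset.antisymm hB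
      rw [Finset.card_eq_zero, Finset.sdiff_eq_empty_iff_subset] at hcard
      exact hcard
    subst hBR
    have hface : face B x₀ = B := by
      unfold face
      have : B.filter (fun a => ⟪a, x₀⟫_ℝ = 0) = ∅ := by
        rw [Finset.filter_eq_empty_iff]
        exact fun a ha => (hpos a ha).ne'
      rw [this, Finset.image_empty, Finset.union_empty]
    have hU : U B x₀ = ⊤ := by
      rw [eq_top_iff]
      intro u _ a ha h0
      exact absurd h0 (hpos a ha).ne'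
    have hn : 0 < Module.finrank ℝ V := by
      rw [Module.finrank_pos_iff]
      exact ⟨⟨x₀, 0, hx₀⟩⟩
    have h2 := phase2 B hRp hneg hspan (Module.finrank ℝ V - 1) x₀ hx₀ (fun a ha => (hpos a ha).le)
      (by rw [hU, finrank_top]; omega) (by rw [hface]; exact h)
    have h3 : mk (face B x₀) (face_sub B hRp hneg x₀) (by rw [hface]; exact h) = mk B (hB.trans hRp) h := by
      apply Subtype.ext
      show sub R (face B x₀) = sub R B
      rw [hface]
    rw [h3] at h2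
    exact_mod_cast h2
  | succ m ih =>
    intro B hB hlow hcard h
    have hne : (Rp \ B).Nonempty := Finset.card_pos.mp (by omega)
    obtain ⟨a, ha, hmin⟩ := Finset.exists_min_image _ (fun a => -⟪a, y⟫_ℝ / ⟪a, x₀⟫_ℝ) hne
    have ha' := Finset.mem_sdiff.mp ha
    have hB' : insert a B ⊆ Rp := Finset.insert_subset_iff.mpr ⟨ha'.1, hB⟩
    have hsd : Rp \ insert a B = (Rp \ B).erase a := by
      ext z
      simp only [Finset.mem_sdiff, Finset.mem_insert, Finset.mem_erase]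
      tauto
    have hlow' : ∀ b ∈ insert a B, ∀ c ∈ Rp \ insert a B,
        -⟪b, y⟫_ℝ / ⟪b, x₀⟫_ℝ < -⟪c, y⟫_ℝ / ⟪c, x₀⟫_ℝ := by
      intro b hb c hc
      rw [hsd, Finset.mem_erase] at hc
      rcases Finset.mem_insert.mp hb with rfl | hb
      · exact lt_of_le_of_ne (hmin c hc.2)
          (hy b ha'.1 c (Finset.mem_sdiff.mp hc.2).1 hc.1.symm)
      · exact hlow b hb c hc.2
    have hcard' : (Rp \ insert a B).card = m := by
      rw [hsd, Finset.card_erase_of_mem ha]; omega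
    have h' : ∃ z ∈ cone (insert a B), z ≠ 0 :=
      ⟨x₀, fun b hb => (hpos b (hB' hb)).le, hx₀⟩
    have hIH := ih (insert a B) hB' hlow' hcard' h'
    obtain ⟨s, hs1, hs2⟩ := exists_between_finset (B.image (fun b => -⟪b, y⟫_ℝ / ⟪b, x₀⟫_ℝ))
      (-⟪a, y⟫_ℝ / ⟪a, x₀⟫_ℝ) (by
        intro u hu
        obtain ⟨b, hb, rfl⟩ := Finset.mem_image.mp hu
        exact hlow b hb a ha)
    have hlt : mk (insert a B) (hB'.trans hRp) h' < mk B (hB.trans hRp) h := by
      apply mk_lt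
      · intro z hz b hb
        exact hz b (Finset.mem_insert_of_mem hb)
      · refine ⟨y + s • x₀, ?_, fun hcon => ?_⟩
        · intro b hb
          have h1 := hs1 _ (Finset.mem_image_of_mem _ hb)
          have h2 := hpos b (hB hb)
          rw [div_lt_iff₀ h2] at h1
          rw [inner_add_right, inner_smul_right]
          linarith
        · have h1 := hcon a (Finset.mem_insert_self a B)
          have h2 := hpos a ha'.1
          rw [lt_div_iff₀ h2] at hs2
          rw [inner_add_right, inner_smul_right] at h1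
          linarith
    calc ((Module.finrank ℝ V - 1 + (m + 1) : ℕ) : ℕ∞)
        = ((Module.finrank ℝ V - 1 + m : ℕ) : ℕ∞) + 1 := by
          rw [← add_assoc]; push_cast; rfl
      _ ≤ Order.height (mk (insert a B) (hB'.trans hRp) h') + 1 := by gcongr
      _ ≤ _ := Order.height_add_one_le hlt

end lower

/-- the main theorem, for all finite central essential arrangements -/
theorem main [FiniteDimensional ℝ V] [Nontrivial V] (R : Finset V) (h0 : (0 : V) ∉ R)
    (hspan : Submodule.span ℝ (R : Set V) = ⊤) (hneg : ∀ a ∈ R, -a ∈ R)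
    (hline : ∀ a ∈ R, ∀ c : ℝ, c • a ∈ R → c = 1 ∨ c = -1) :
    Order.krullDim (Y R) = ((Module.finrank ℝ V - 1 + R.card / 2 : ℕ) : WithBot ℕ∞) := by
  -- a regular vector
  obtain ⟨x₀, hx₀⟩ := Module.Dual.exists_forall_ne_zero_of_forall_exists
    (fun a : R => innerₗ V (a : V)) (fun a => ⟨a, by
      rw [innerₗ_apply_apply]
      exact inner_self_ne_zero.mpr (fun h => h0 (h ▸ a.2))⟩)
  have hreg : ∀ a ∈ R, ⟪a, x₀⟫_ℝ ≠ 0 := fun a ha => by
    have := hx₀ ⟨a, ha⟩
    rwa [innerₗ_apply_apply] at this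
  set Rp := R.filter (fun a => 0 < ⟪a, x₀⟫_ℝ) with hRpdef
  have hRp : Rp ⊆ R := Finset.filter_subset _ _
  have hpos : ∀ a ∈ Rp, 0 < ⟪a, x₀⟫_ℝ := fun a ha => (Finset.mem_filter.mp ha).2
  have hor : ∀ a ∈ R, a ∈ Rp ∨ -a ∈ Rp := by
    intro a ha
    rcases lt_or_gt_of_ne (hreg a ha) with h | h
    · right
      refine Finset.mem_filter.mpr ⟨hneg a ha, ?_⟩
      rw [inner_neg_left]; linarith
    · exact Or.inl (Finset.mem_filter.mpr ⟨ha, h⟩)
  have hcard : R.card = 2 * Rp.card := by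
    have h1 : R = Rp ∪ Rp.image (fun a => -a) := by
      ext a
      rw [Finset.mem_union, Finset.mem_image]
      constructor
      · intro ha
        rcases hor a ha with h | h
        · exact Or.inl h
        · exact Or.inr ⟨-a, h, neg_neg a⟩
      · rintro (h | ⟨b, hb, rfl⟩)
        · exact hRp h
        · exact hneg b (hRp hb)
    have h2 : Disjoint Rp (Rp.image (fun a => -a)) := by
      rw [Finset.disjoint_left]
      intro a ha ha'
      obtain ⟨b, hb, rfl⟩ := Finset.mem_image.mp ha'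
      have h3 := hpos _ ha
      have h4 := hpos b hb
      rw [inner_neg_left] at h3
      linarith
    have h3 := Finset.card_union_of_disjoint h2
    rw [← h1, Finset.card_image_of_injective _ neg_injective] at h3
    omega
  have hz : ∀ z : V, (∀ a ∈ Rp, ⟪a, z⟫_ℝ = 0) → z = 0 := by
    intro z hz
    have h1 : ∀ a ∈ R, ⟪a, z⟫_ℝ = 0 := by
      intro a ha
      rcases hor a ha with h | h
      · exact hz a h
      · have := hz _ h
        rw [inner_neg_left] at this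
        linarith
    have h2 : (⊤ : Submodule ℝ V) ≤ LinearMap.ker (innerₗ V z) := by
      rw [← hspan, Submodule.span_le]
      intro a ha
      show innerₗ V z a = 0
      rw [innerₗ_apply_apply, real_inner_comm]
      exact h1 a ha
    have h3 := h2 (Submodule.mem_top (x := z))
    rw [LinearMap.mem_ker, innerₗ_apply_apply] at h3
    exact inner_self_eq_zero.mp h3
  have hx0 : x₀ ≠ 0 := by
    rintro rfl
    have h1 : (∀ a ∈ Rp, ⟪a, (0 : V)⟫_ℝ = 0) := fun a _ => inner_zero_right a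
    obtain ⟨v, hv⟩ := exists_ne (0 : V)
    apply hv
    apply hz
    intro a ha
    have := hpos a ha
    rw [inner_zero_right] at this
    exact absurd this (lt_irrefl _)
  -- a generic direction
  have : Finite {q : V × V // q ∈ Rp ×ˢ Rp ∧ q.1 ≠ q.2} :=
    ((Rp ×ˢ Rp).finite_toSet.subset fun q hq => hq.1).to_subtype
  obtain ⟨y, hy⟩ := Module.Dual.exists_forall_ne_zero_of_forall_exists
    (fun q : {q : V × V // q ∈ Rp ×ˢ Rp ∧ q.1 ≠ q.2} => lam x₀ q.1.1 q.1.2) (by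
      rintro ⟨⟨a, b⟩, hq, hab⟩
      obtain ⟨ha, hb⟩ := Finset.mem_product.mp hq
      by_contra hcon
      push Not at hcon
      have hpa := hpos a ha
      have hpb := hpos b hb
      set v := ⟪b, x₀⟫_ℝ • a - ⟪a, x₀⟫_ℝ • b with hv
      have h1 := hcon v
      have h2 : lam x₀ a b v = ⟪v, v⟫_ℝ := by
        have h2' : ⟪v, v⟫_ℝ = ⟪⟪b, x₀⟫_ℝ • a - ⟪a, x₀⟫_ℝ • b, v⟫_ℝ := rfl
        rw [lam_apply, h2', inner_sub_left, real_inner_smul_left, real_inner_smul_left]
      have h3 : v = 0 := inner_self_eq_zero.mp (h2 ▸ h1)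
      have h4 : a = (⟪a, x₀⟫_ℝ / ⟪b, x₀⟫_ℝ) • b := by
        have h5 : ⟪b, x₀⟫_ℝ • a = ⟪a, x₀⟫_ℝ • b := sub_eq_zero.mp h3
        rw [div_eq_inv_mul, mul_smul, ← h5, smul_smul, inv_mul_cancel₀ hpb.ne', one_smul]
      have h6 := hline b (hRp hb) (⟪a, x₀⟫_ℝ / ⟪b, x₀⟫_ℝ) (by rw [← h4]; exact hRp ha)
      have h7 : 0 < ⟪a, x₀⟫_ℝ / ⟪b, x₀⟫_ℝ := div_pos hpa hpb
      rcases h6 with h | h
      · rw [h, one_smul] at h4
        exact hab h4
      · rw [h] at h7
        linarith)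
  have hyd : ∀ a ∈ Rp, ∀ b ∈ Rp, a ≠ b → -⟪a, y⟫_ℝ / ⟪a, x₀⟫_ℝ ≠ -⟪b, y⟫_ℝ / ⟪b, x₀⟫_ℝ := by
    intro a ha b hb hab h
    have h1 := hy ⟨(a, b), Finset.mem_product.mpr ⟨ha, hb⟩, hab⟩
    apply h1
    show lam x₀ a b y = 0
    rw [lam_apply]
    rw [div_eq_div_iff (hpos a ha).ne' (hpos b hb).ne'] at h
    linarith
  have hnegp : ∀ a ∈ Rp, -a ∈ R := fun a ha => hneg a (hRp ha)
  have hlow := phase1 Rp hRp hnegp hz x₀ hx0 hpos y hyd Rp.card ∅ (Finset.empty_subset _)
    (by simp) (by simp) ⟨x₀, by intro a ha; simp at ha, hx0⟩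
  have hN : R.card / 2 = Rp.card := by omega
  rw [hN]
  refine le_antisymm (krullDim_le Rp hor) ?_
  refine le_trans ?_ (Order.height_le_krullDim (mk (∅ : Finset V)
    ((Finset.empty_subset Rp).trans hRp) ⟨x₀, by intro a ha; simp at ha, hx0⟩))
  exact WithBot.coe_le_coe.mpr hlow

end Pool.Agent.Q225.Cox
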