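import Mathlib

/-!
Coxeter complexes of finite root systems (crystallographic or not, reducible or not) and their convex
subcomplexes.
-/

set_option autoImplicit false

namespace Pool.Agent.Q225.Cox

open scoped InnerProductSpace

variable {V : Type} [NormedAddCommGroup V] [InnerProductSpace ℝ V]

/-- the orthogonal reflection in the hyperplane orthogonal to `a` -/
noncomputable def reflect (a v : V) : V := v - (2 * ⟪a, v⟫_ℝ / ⟪a, a⟫_ℝ) • a

/-- a finite (reduced, not necessarily crystallographic) root system spanning `V` -/
structure IsRootSystem (R : Finset V) : Prop where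
  ne_zero : (0 : V) ∉ R
  span : Submodule.span ℝ (R : Set V) = ⊤
  refl_mem : ∀ a ∈ R, ∀ b ∈ R, reflect a b ∈ R
  line : ∀ a ∈ R, ∀ c : ℝ, c • a ∈ R → c = 1 ∨ c = -1

/-- the (relatively open) cell of the reflection arrangement that contains `x` -/
def cell (R : Finset V) (x : V) : Set V :=
  {y | ∀ a ∈ R, SignType.sign ⟪a, y⟫_ℝ = SignType.sign ⟪a, x⟫_ℝ}

/-- the simplices of the Coxeter complex, given as the relatively open cells different from `{0}`
of the reflection arrangement; the cell `{0}` corresponds to the empty simplex -/
def coxeterComplex (R : Finset V) : Set (Set V) := {c | ∃ x : V, x ≠ 0 ∧ c = cell R x}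

/-- the half-apartment of `a`: the simplices on the nonnegative side of the wall of `a` -/
def halfApartment (R : Finset V) (a : V) : Set (Set V) :=
  {c | c ∈ coxeterComplex R ∧ ∀ y ∈ c, 0 ≤ ⟪a, y⟫_ℝ}

/-- convex subcomplexes: intersections of half-apartments, the empty intersection being the whole
complex -/
def IsConvexSubcomplex (R : Finset V) (K : Set (Set V)) : Prop :=
  ∃ A ⊆ R, K = {c | c ∈ coxeterComplex R ∧ ∀ a ∈ A, c ∈ halfApartment R a}

/-- the poset of non-empty convex subcomplexes, ordered by inclusion -/
def Y (R : Finset V) : Type := {K : Set (Set V) // IsConvexSubcomplex R K ∧ K.Nonempty}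

instance (R : Finset V) : PartialOrder (Y R) :=
  inferInstanceAs (PartialOrder {K : Set (Set V) // IsConvexSubcomplex R K ∧ K.Nonempty})

end Pool.Agent.Q225.Cox
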