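import Mathlib

set_option autoImplicit false

namespace Pool.Agent.Q225.ExpA

abbrev E2 := EuclideanSpace ℝ (Fin 2)

theorem dist2 (u v : E2) : dist u v = Real.sqrt ((u 0 - v 0) ^ 2 + (u 1 - v 1) ^ 2) := by
  rw [EuclideanSpace.dist_eq]
  simp [Fin.sum_univ_two, Real.dist_eq, sq_abs]

theorem dist2_sq (u v : E2) : dist u v ^ 2 = (u 0 - v 0) ^ 2 + (u 1 - v 1) ^ 2 := by
  rw [dist2, Real.sq_sqrt (by positivity)]

noncomputable def pt (a b : ℝ) : E2 := WithLp.toLp 2 ![a, b]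

@[simp] theorem pt0 (a b : ℝ) : pt a b 0 = a := rfl
@[simp] theorem pt1 (a b : ℝ) : pt a b 1 = b := rfl

theorem ext2 {u v : E2} (h0 : u 0 = v 0) (h1 : u 1 = v 1) : u = v := by
  ext i; fin_cases i
  · exact h0
  · exact h1

/-- A plane isometry given by an orthonormal frame. -/
noncomputable def frame (c s ε X : ℝ) (o : E2) (h : c ^ 2 + s ^ 2 = 1) (hε : ε ^ 2 = 1) :
    E2 ≃ᵢ E2 :=
  IsometryEquiv.mk'
    (fun x => pt (X + c * (x 0 - o 0) + s * (x 1 - o 1)) (ε * (-s * (x 0 - o 0) + c * (x 1 - o 1))))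
    (fun y => pt (o 0 + c * (y 0 - X) - s * ε * y 1) (o 1 + s * (y 0 - X) + c * ε * y 1))
    (by
      intro y
      apply ext2
      · simp only [pt0, pt1]
        linear_combination (y 0 - X) * h
      · simp only [pt0, pt1]
        linear_combination (ε ^ 2 * y 1) * h + (y 1) * hε)
    (by
      refine Isometry.of_dist_eq fun u v => ?_
      rw [dist2, dist2]
      congr 1
      simp only [pt0, pt1]
      linear_combination ((u 0 - v 0) ^ 2 + (u 1 - v 1) ^ 2) * h +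
        ((-s * (u 0 - v 0) + c * (u 1 - v 1)) ^ 2) * hε)

theorem frame_apply (c s ε X : ℝ) (o : E2) (h : c ^ 2 + s ^ 2 = 1) (hε : ε ^ 2 = 1) (x : E2) :
    frame c s ε X o h hε x = pt (X + c * (x 0 - o 0) + s * (x 1 - o 1))
      (ε * (-s * (x 0 - o 0) + c * (x 1 - o 1))) := rfl

/-- the standard configurations -/
noncomputable def conf (a b : ℝ) : Fin 4 → E2 :=
  ![pt 0 b, pt (Real.sqrt (1 - a ^ 2 - b ^ 2)) a, pt 0 (-b), pt (Real.sqrt (1 - a ^ 2 - b ^ 2)) (-a)]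

/-- the algebra behind the plane geometry -/
theorem alg_key (e0 e1 w0 w1 z0 z1 : ℝ) (A1 : e0 ^ 2 + e1 ^ 2 = 1)
    (A2 : (w0 - e0) ^ 2 + (w1 - e1) ^ 2 = 1) (A3 : (e0 + z0) ^ 2 + (e1 + z1) ^ 2 = 1)
    (A4 : (e0 + z0 - w0) ^ 2 + (e1 + z1 - w1) ^ 2 = 1) (L0 : w0 ^ 2 + w1 ^ 2 < 1)
    (L1 : z0 ^ 2 + z1 ^ 2 < 1) : (w0 = 0 ∧ w1 = 0) ∨ (z0 = 0 ∧ z1 = 0) := by
  have O1 : z0 * w0 + z1 * w1 = 0 := by linear_combination (-1/2) * (A1 + A4 - A2 - A3)
  have P1 : e0 * w0 + e1 * w1 = (w0 ^ 2 + w1 ^ 2) / 2 := by linear_combination (A1 - A2) / 2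
  have P2 : e0 * z0 + e1 * z1 = -(z0 ^ 2 + z1 ^ 2) / 2 := by linear_combination (A3 - A1) / 2
  have K : (w0 ^ 2 + w1 ^ 2) * (z0 ^ 2 + z1 ^ 2) * (4 - (w0 ^ 2 + w1 ^ 2) - (z0 ^ 2 + z1 ^ 2)) = 0 := by
    have hL : (e0 ^ 2 + e1 ^ 2) * ((w0 ^ 2 + w1 ^ 2) * (z0 ^ 2 + z1 ^ 2)) =
        (e0 * w0 + e1 * w1) ^ 2 * (z0 ^ 2 + z1 ^ 2) + (e0 * z0 + e1 * z1) ^ 2 * (w0 ^ 2 + w1 ^ 2)
          - (z0 * w0 + z1 * w1) * (2 * (e0 * w0 + e1 * w1) * (e0 * z0 + e1 * z1)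
            - (e0 ^ 2 + e1 ^ 2) * (z0 * w0 + z1 * w1)) := by ring
    rw [A1, P1, P2, O1] at hL
    linear_combination 4 * hL
  have hpos : (4 - (w0 ^ 2 + w1 ^ 2) - (z0 ^ 2 + z1 ^ 2)) > 0 := by linarith
  rcases mul_eq_zero.mp K with h | h
  · rcases mul_eq_zero.mp h with h | h
    · left
      constructor <;> nlinarith [sq_nonneg w0, sq_nonneg w1]
    · right
      constructor <;> nlinarith [sq_nonneg z0, sq_nonneg z1]
  · exact absurd h (ne_of_gt hpos)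

/-- key plane geometry: one of the two diagonals vanishes -/
theorem diag_zero (q : Fin 4 → E2) (h01 : dist (q 0) (q 1) = 1) (h12 : dist (q 1) (q 2) = 1)
    (h23 : dist (q 2) (q 3) = 1) (h30 : dist (q 3) (q 0) = 1)
    (hd0 : dist (q 0) (q 2) < 1) (hd1 : dist (q 1) (q 3) < 1) : q 0 = q 2 ∨ q 1 = q 3 := by
  have e01 := dist2_sq (q 0) (q 1)
  have e12 := dist2_sq (q 1) (q 2)
  have e23 := dist2_sq (q 2) (q 3)
  have e30 := dist2_sq (q 3) (q 0)
  rw [h01] at e01; rw [h12] at e12; rw [h23] at e23; rw [h30] at e30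
  have l0 : (q 0 0 - q 2 0) ^ 2 + (q 0 1 - q 2 1) ^ 2 < 1 := by
    rw [← dist2_sq]
    exact pow_lt_one₀ dist_nonneg hd0 (by norm_num)
  have l1 : (q 1 0 - q 3 0) ^ 2 + (q 1 1 - q 3 1) ^ 2 < 1 := by
    rw [← dist2_sq]
    exact pow_lt_one₀ dist_nonneg hd1 (by norm_num)
  have := alg_key (q 1 0 - q 0 0) (q 1 1 - q 0 1) (q 2 0 - q 0 0) (q 2 1 - q 0 1)
    (q 3 0 - q 1 0) (q 3 1 - q 1 1) (by linear_combination -e01) (by linear_combination -e12)
    (by linear_combination -e30) (by linear_combination -e23) (by linarith) (by linarith)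
  rcases this with ⟨a, b⟩ | ⟨a, b⟩
  · left; exact ext2 (by linarith) (by linarith)
  · right; exact ext2 (by linarith) (by linarith)

/-- congruence to a standard configuration, first case -/
theorem congr_case1 (q : Fin 4 → E2) (h02 : q 0 = q 2) (h01 : dist (q 0) (q 1) = 1)
    (h30 : dist (q 3) (q 0) = 1) (hd1 : dist (q 1) (q 3) < 1) :
    ∃ T : E2 ≃ᵢ E2, ∀ i, T (q i) = conf (dist (q 1) (q 3) / 2) 0 i := by
  have e01 := dist2_sq (q 0) (q 1)
  have e30 := dist2_sq (q 3) (q 0)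
  have e13 := dist2_sq (q 1) (q 3)
  rw [h01] at e01; rw [h30] at e30
  set a := dist (q 1) (q 3) / 2 with ha
  have ha0 : 0 ≤ a := by positivity
  have ha1 : a < 1 / 2 := by linarith
  have hda : dist (q 1) (q 3) = 2 * a := by linarith
  rw [hda] at e13
  set X := Real.sqrt (1 - a ^ 2 - 0 ^ 2) with hX
  have hX2 : X ^ 2 = 1 - a ^ 2 := by
    rw [hX, Real.sq_sqrt (by nlinarith)]; ring
  have hX0 : 0 < X := by
    rw [hX]; apply Real.sqrt_pos.mpr; nlinarith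
  -- the midpoint direction
  obtain ⟨c, hc⟩ : ∃ c, c = (q 1 0 + q 3 0 - 2 * q 0 0) / (2 * X) := ⟨_, rfl⟩
  obtain ⟨s, hs⟩ : ∃ s, s = (q 1 1 + q 3 1 - 2 * q 0 1) / (2 * X) := ⟨_, rfl⟩
  have hcX : q 1 0 + q 3 0 - 2 * q 0 0 = 2 * X * c := by rw [hc]; field_simp
  have hsX : q 1 1 + q 3 1 - 2 * q 0 1 = 2 * X * s := by rw [hs]; field_simp
  have hX4 : 4 * X ^ 2 * (c ^ 2 + s ^ 2) = 4 * X ^ 2 := by
    have : 4 * X ^ 2 * (c ^ 2 + s ^ 2) = (2 * X * c) ^ 2 + (2 * X * s) ^ 2 := by ring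
    rw [this, ← hcX, ← hsX, hX2]
    linear_combination (-2) * e01 - 2 * e30 + e13
  have hcs : c ^ 2 + s ^ 2 = 1 := by
    have : 4 * X ^ 2 ≠ 0 := by positivity
    exact mul_left_cancel₀ this (by linarith)
  -- the perpendicular coordinate
  obtain ⟨r, hr⟩ : ∃ r, r = -s * (q 1 0 - q 0 0) + c * (q 1 1 - q 0 1) := ⟨_, rfl⟩
  have hperp : c * (q 1 0 - q 3 0) + s * (q 1 1 - q 3 1) = 0 := by
    have h2X : (2 * X) * (c * (q 1 0 - q 3 0) + s * (q 1 1 - q 3 1)) = 0 := by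
      have : (2 * X) * (c * (q 1 0 - q 3 0) + s * (q 1 1 - q 3 1)) =
        (2 * X * c) * (q 1 0 - q 3 0) + (2 * X * s) * (q 1 1 - q 3 1) := by ring
      rw [this, ← hcX, ← hsX]
      linear_combination e30 - e01
    rcases mul_eq_zero.mp h2X with h | h
    · exfalso; linarith
    · exact h
  have hpar1 : c * (q 1 0 - q 0 0) + s * (q 1 1 - q 0 1) = X := by
    have : 2 * (c * (q 1 0 - q 0 0) + s * (q 1 1 - q 0 1)) =
        (c * (q 1 0 + q 3 0 - 2 * q 0 0) + s * (q 1 1 + q 3 1 - 2 * q 0 1)) +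
        (c * (q 1 0 - q 3 0) + s * (q 1 1 - q 3 1)) := by ring
    rw [hcX, hsX, hperp] at this
    linear_combination this / 2 + X * hcs
  have hpar3 : c * (q 3 0 - q 0 0) + s * (q 3 1 - q 0 1) = X := by
    linear_combination hpar1 - hperp
  have hr2 : r ^ 2 = a ^ 2 := by
    have : r ^ 2 + (c * (q 1 0 - q 0 0) + s * (q 1 1 - q 0 1)) ^ 2 =
      (c ^ 2 + s ^ 2) * ((q 0 0 - q 1 0) ^ 2 + (q 0 1 - q 1 1) ^ 2) := by rw [hr]; ring
    rw [hpar1, hcs, ← e01] at this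
    linear_combination this - hX2
  have hr3 : -s * (q 3 0 - q 0 0) + c * (q 3 1 - q 0 1) = -r := by
    have : (-s * (q 3 0 - q 0 0) + c * (q 3 1 - q 0 1)) + r =
      -s * (q 1 0 + q 3 0 - 2 * q 0 0) + c * (q 1 1 + q 3 1 - 2 * q 0 1) := by rw [hr]; ring
    rw [hcX, hsX] at this
    linear_combination this
  obtain ⟨ε, hε, hεr⟩ : ∃ ε : ℝ, ε ^ 2 = 1 ∧ ε * r = a := by
    rcases sq_eq_sq_iff_eq_or_eq_neg.mp hr2 with h | h
    · exact ⟨1, by norm_num, by linarith⟩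
    · exact ⟨-1, by norm_num, by linarith⟩
  refine ⟨frame c s ε 0 (q 0) hcs hε, ?_⟩
  intro i
  fin_cases i
  · show frame c s ε 0 (q 0) hcs hε (q 0) = pt 0 0
    rw [frame_apply]
    apply ext2 <;> simp
  · show frame c s ε 0 (q 0) hcs hε (q 1) = pt (Real.sqrt (1 - a ^ 2 - 0 ^ 2)) a
    rw [frame_apply]
    apply ext2
    · simp only [pt0]; rw [← hX]; linarith
    · simp only [pt1]; rw [← hr]; exact hεr
  · show frame c s ε 0 (q 0) hcs hε (q 2) = pt 0 (-0)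
    rw [frame_apply, ← h02]
    apply ext2 <;> simp
  · show frame c s ε 0 (q 0) hcs hε (q 3) = pt (Real.sqrt (1 - a ^ 2 - 0 ^ 2)) (-a)
    rw [frame_apply]
    apply ext2
    · simp only [pt0]; rw [← hX]; linarith
    · simp only [pt1]; rw [hr3]; linarith

/-- congruence to a standard configuration, second case -/
theorem congr_case2 (q : Fin 4 → E2) (h13 : q 1 = q 3) (h01 : dist (q 0) (q 1) = 1)
    (h12 : dist (q 1) (q 2) = 1) (hd0 : dist (q 0) (q 2) < 1) :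
    ∃ T : E2 ≃ᵢ E2, ∀ i, T (q i) = conf 0 (dist (q 0) (q 2) / 2) i := by
  obtain ⟨T, hT⟩ := congr_case1 ![q 1, q 0, q 3, q 2] (by simpa using h13)
    (by simpa [dist_comm] using h01) (by simpa [dist_comm] using h12) (by simpa using hd0)
  set b := dist (q 0) (q 2) / 2 with hb
  have hb' : dist ((![q 1, q 0, q 3, q 2] : Fin 4 → E2) 1) ((![q 1, q 0, q 3, q 2] : Fin 4 → E2) 3) / 2 = b := rfl
  rw [hb'] at hT
  have n1 : (-1 : ℝ) ^ 2 + 0 ^ 2 = 1 := by norm_num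
  have n2 : (-1 : ℝ) ^ 2 = 1 := by norm_num
  refine ⟨T.trans (frame (-1) 0 (-1) (Real.sqrt (1 - 0 ^ 2 - b ^ 2)) 0 n1 n2), ?_⟩
  have hsq : Real.sqrt (1 - b ^ 2 - 0 ^ 2) = Real.sqrt (1 - 0 ^ 2 - b ^ 2) := by ring_nf
  have t0 : T (q 1) = pt 0 0 := hT 0
  have t1 : T (q 0) = pt (Real.sqrt (1 - b ^ 2 - 0 ^ 2)) b := hT 1
  have t2 : T (q 3) = pt 0 (-0) := hT 2
  have t3 : T (q 2) = pt (Real.sqrt (1 - b ^ 2 - 0 ^ 2)) (-b) := hT 3
  intro i
  fin_cases i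
  · show frame (-1) 0 (-1) (Real.sqrt (1 - 0 ^ 2 - b ^ 2)) 0 n1 n2 (T (q 0)) = pt 0 b
    rw [t1, frame_apply, hsq]
    apply ext2 <;> simp
  · show frame (-1) 0 (-1) (Real.sqrt (1 - 0 ^ 2 - b ^ 2)) 0 n1 n2 (T (q 1)) = pt (Real.sqrt (1 - 0 ^ 2 - b ^ 2)) 0
    rw [t0, frame_apply]
    apply ext2 <;> simp
  · show frame (-1) 0 (-1) (Real.sqrt (1 - 0 ^ 2 - b ^ 2)) 0 n1 n2 (T (q 2)) = pt 0 (-b)
    rw [t3, frame_apply, hsq]
    apply ext2 <;> simp
  · show frame (-1) 0 (-1) (Real.sqrt (1 - 0 ^ 2 - b ^ 2)) 0 n1 n2 (T (q 3)) = pt (Real.sqrt (1 - 0 ^ 2 - b ^ 2)) (-0)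
    rw [t2, frame_apply]
    apply ext2 <;> simp

/-- distances in the standard configurations -/
theorem conf_01 (a b : ℝ) (hab : a * b = 0) (h : a ^ 2 + b ^ 2 ≤ 1) :
    dist (conf a b 0) (conf a b 1) = 1 := by
  show dist (pt 0 b) (pt (Real.sqrt (1 - a ^ 2 - b ^ 2)) a) = 1
  rw [dist2]
  have hX : Real.sqrt (1 - a ^ 2 - b ^ 2) ^ 2 = 1 - a ^ 2 - b ^ 2 := Real.sq_sqrt (by linarith)
  rw [Real.sqrt_eq_one]
  simp only [pt0, pt1]
  linear_combination hX - 2 * hab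

theorem conf_12 (a b : ℝ) (hab : a * b = 0) (h : a ^ 2 + b ^ 2 ≤ 1) :
    dist (conf a b 1) (conf a b 2) = 1 := by
  show dist (pt (Real.sqrt (1 - a ^ 2 - b ^ 2)) a) (pt 0 (-b)) = 1
  rw [dist2]
  have hX : Real.sqrt (1 - a ^ 2 - b ^ 2) ^ 2 = 1 - a ^ 2 - b ^ 2 := Real.sq_sqrt (by linarith)
  rw [Real.sqrt_eq_one]
  simp only [pt0, pt1]
  linear_combination hX + 2 * hab

theorem conf_23 (a b : ℝ) (hab : a * b = 0) (h : a ^ 2 + b ^ 2 ≤ 1) :
    dist (conf a b 2) (conf a b 3) = 1 := by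
  show dist (pt 0 (-b)) (pt (Real.sqrt (1 - a ^ 2 - b ^ 2)) (-a)) = 1
  rw [dist2]
  have hX : Real.sqrt (1 - a ^ 2 - b ^ 2) ^ 2 = 1 - a ^ 2 - b ^ 2 := Real.sq_sqrt (by linarith)
  rw [Real.sqrt_eq_one]
  simp only [pt0, pt1]
  linear_combination hX - 2 * hab

theorem conf_30 (a b : ℝ) (hab : a * b = 0) (h : a ^ 2 + b ^ 2 ≤ 1) :
    dist (conf a b 3) (conf a b 0) = 1 := by
  show dist (pt (Real.sqrt (1 - a ^ 2 - b ^ 2)) (-a)) (pt 0 b) = 1
  rw [dist2]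
  have hX : Real.sqrt (1 - a ^ 2 - b ^ 2) ^ 2 = 1 - a ^ 2 - b ^ 2 := Real.sq_sqrt (by linarith)
  rw [Real.sqrt_eq_one]
  simp only [pt0, pt1]
  linear_combination hX + 2 * hab

theorem conf_02 (a b : ℝ) (hb : 0 ≤ b) : dist (conf a b 0) (conf a b 2) = 2 * b := by
  show dist (pt 0 b) (pt 0 (-b)) = 2 * b
  rw [dist2]
  simp only [pt0, pt1]
  rw [show (0 - 0 : ℝ) ^ 2 + (b - -b) ^ 2 = (2 * b) ^ 2 by ring, Real.sqrt_sq (by linarith)]

theorem conf_13 (a b : ℝ) (ha : 0 ≤ a) : dist (conf a b 1) (conf a b 3) = 2 * a := by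
  show dist (pt _ a) (pt _ (-a)) = 2 * a
  rw [dist2]
  simp only [pt0, pt1]
  rw [show (Real.sqrt (1 - a ^ 2 - b ^ 2) - Real.sqrt (1 - a ^ 2 - b ^ 2)) ^ 2 + (a - -a) ^ 2
    = (2 * a) ^ 2 by ring, Real.sqrt_sq (by linarith)]

theorem continuous_pt {α : Type*} [TopologicalSpace α] {f g : α → ℝ} (hf : Continuous f)
    (hg : Continuous g) : Continuous fun u => pt (f u) (g u) := by
  refine (PiLp.continuous_toLp 2 (fun _ : Fin 2 => ℝ)).comp ?_
  refine continuous_pi fun i => ?_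
  fin_cases i
  · exact hf
  · exact hg

theorem continuous_conf {α : Type*} [TopologicalSpace α] {f g : α → ℝ} (hf : Continuous f)
    (hg : Continuous g) : Continuous fun u => conf (f u) (g u) := by
  refine continuous_pi fun i => ?_
  fin_cases i
  · exact continuous_pt continuous_const hg
  · exact continuous_pt (by fun_prop) hf
  · exact continuous_pt continuous_const hg.neg
  · exact continuous_pt (by fun_prop) hf.neg

/-- the four-cycle -/
def G4 : SimpleGraph (Fin 4) where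
  Adj i j := (i.val + j.val) % 2 = 1
  symm := ⟨fun i j h => by rw [add_comm]; exact h⟩
  loopless := ⟨fun i h => by omega⟩

/-- placements with unit sides -/
theorem unit_of_adj (q : Fin 4 → E2) (h01 : dist (q 0) (q 1) = 1) (h12 : dist (q 1) (q 2) = 1)
    (h23 : dist (q 2) (q 3) = 1) (h30 : dist (q 3) (q 0) = 1) (i j : Fin 4) (h : G4.Adj i j) :
    dist (q i) (q j) = 1 := by
  have h' : (i.val + j.val) % 2 = 1 := h
  fin_cases i <;> fin_cases j <;> simp at h' ⊢ <;>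
    first
      | assumption
      | (rw [dist_comm]; assumption)

theorem conf_adj (a b : ℝ) (hab : a * b = 0) (h : a ^ 2 + b ^ 2 ≤ 1) (i j : Fin 4)
    (hij : G4.Adj i j) : dist (conf a b i) (conf a b j) = 1 :=
  unit_of_adj _ (conf_01 a b hab h) (conf_12 a b hab h) (conf_23 a b hab h) (conf_30 a b hab h)
    i j hij

/-- the reflection of the plane that exchanges `(0,0)` and `(1,0)` -/
noncomputable def refl : E2 ≃ᵢ E2 := frame (-1) 0 (-1) 1 0 (by norm_num) (by norm_num)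

theorem refl_apply (x : E2) : refl x = pt (1 - x 0) (x 1) := by
  rw [refl, frame_apply]
  apply ext2
  · simp; ring
  · simp

theorem refl_mul_refl : refl * refl = 1 := by
  ext x i
  show refl (refl x) i = x i
  rw [refl_apply, refl_apply]
  fin_cases i
  · simp
  · simp

theorem refl_ne_one : refl ≠ 1 := by
  intro h
  have : refl (pt 0 0) = (1 : E2 ≃ᵢ E2) (pt 0 0) := by rw [h]
  rw [refl_apply] at this
  have h0 := congrArg (fun v : E2 => v 0) this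
  have : (1 - 0 : ℝ) = 0 := h0
  norm_num at this

/-- the group of order two -/
noncomputable def Gam : Subgroup (E2 ≃ᵢ E2) where
  carrier := {1, refl}
  mul_mem' := by
    rintro a b (rfl | rfl) (rfl | rfl)
    · left; simp
    · right; simp
    · right; simp
    · left; exact refl_mul_refl
  one_mem' := Or.inl rfl
  inv_mem' := by
    rintro a (rfl | rfl)
    · left; simp
    · right
      show refl⁻¹ = refl
      exact inv_eq_of_mul_eq_one_right refl_mul_refl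

instance : Finite Gam := by
  have : Finite ({1, refl} : Set (E2 ≃ᵢ E2)) := Set.toFinite _
  exact this

/-- the permutation exchanging 0,1 and 2,3 -/
def sig : Equiv.Perm (Fin 4) := (Equiv.swap 0 1) * (Equiv.swap 2 3)

open Classical in
/-- the action on the vertices -/
noncomputable def theta : Gam →* Equiv.Perm (Fin 4) where
  toFun γ := if γ.1 = 1 then 1 else sig
  map_one' := by simp
  map_mul' := by
    rintro ⟨a, ha⟩ ⟨b, hb⟩
    rcases ha with rfl | rfl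
    · rcases hb with rfl | rfl
      · simp
      · simp
    · rcases hb with rfl | rfl
      · simp
      · have h1 : ((⟨refl, Or.inr rfl⟩ : Gam) * ⟨refl, Or.inr rfl⟩).1 = 1 := refl_mul_refl
        rw [if_pos h1, if_neg refl_ne_one]
        decide

theorem theta_refl : theta ⟨refl, Or.inr rfl⟩ = sig :=
  if_neg refl_ne_one

theorem mem_cases (γ : Gam) : γ = 1 ∨ γ = ⟨refl, Or.inr rfl⟩ := by
  obtain ⟨a, ha⟩ := γ
  rcases ha with rfl | rfl
  · left; rfl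
  · right; rfl

theorem conf00_1 : conf 0 0 1 = pt 1 0 := by
  show pt (Real.sqrt (1 - 0 ^ 2 - 0 ^ 2)) 0 = pt 1 0
  simp

theorem conf00_3 : conf 0 0 3 = pt 1 0 := by
  show pt (Real.sqrt (1 - 0 ^ 2 - 0 ^ 2)) (-0) = pt 1 0
  simp

theorem conf00_0 : conf 0 0 0 = pt 0 0 := rfl

theorem conf00_2 : conf 0 0 2 = pt 0 0 := by
  show pt 0 (-0) = pt 0 0
  simp

end Pool.Agent.Q225.ExpA
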