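import Mathlib
import Pool.Agent.TH483.Rigid
import Pool.Agent.W943.Pm.P3

/-!
# The symbolic rigidity matrix of graphs of small cutwidth or carving width
-/

set_option autoImplicit false

namespace Pool.Agent.Q225.Rig

open MvPolynomial Pool.Agent.TH483 Pool.Agent.H283R2.DR Pool.Agent.H789R5
open Pool.Agent.W943.Cut (points point Submersive)
open Pool.Agent.W943.Pm (PathHidden TreeHidden CutLE Nice)

theorem rank_le_of_map {F F' R C R' C' : Type*} [Field F] [Field F'] [Fintype R] [Fintype C]
    [Fintype C'] (φ : F →+* F') (B : Matrix R C F) (B' : Matrix R' C' F')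
    (e : R → R') (f : C → C') (h : ∀ r c, B' (e r) (f c) = φ (B r c)) : B.rank ≤ B'.rank := by
  obtain ⟨a, b, hab⟩ := exists_minor B
  refine le_rank_of_minor B' (fun i => e (a i)) (fun j => f (b j)) ?_
  have h1 : B'.submatrix (fun i => e (a i)) (fun j => f (b j)) = φ.mapMatrix (B.submatrix a b) := by
    ext i j
    simp only [Matrix.submatrix_apply, RingHom.mapMatrix_apply, Matrix.map_apply]
    exact h _ _
  rw [h1, ← RingHom.map_det]
  exact (map_ne_zero φ).2 hab

theorem rank_ge_of_map {F F' R C R' C' : Type*} [Field F] [Field F'] [Fintype R'] [Fintype C]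
    [Fintype C'] (φ : F →+* F') (B : Matrix R C F) (B' : Matrix R' C' F')
    (e : R → R') (f : C → C') (he : Function.Surjective e) (hf : Function.Surjective f)
    (h : ∀ r c, B' (e r) (f c) = φ (B r c)) : B'.rank ≤ B.rank := by
  obtain ⟨a, b, hab⟩ := exists_minor B'
  choose a' ha' using fun i => he (a i)
  choose b' hb' using fun j => hf (b j)
  refine le_rank_of_minor B a' b' ?_
  intro h0
  apply hab
  have h1 : B'.submatrix a b = φ.mapMatrix (B.submatrix a' b') := by
    ext i j
    simp only [Matrix.submatrix_apply, RingHom.mapMatrix_apply, Matrix.map_apply]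
    rw [← h, ha', hb']
  rw [h1, ← RingHom.map_det, h0, map_zero]

variable {n d : ℕ}

/-- the symbolic rigidity matrix over the complex numbers, with numbered edges -/
noncomputable def cmat (d : ℕ) {G : SimpleGraph (Fin n)} {N : ℕ} (e : Fin N ≃ G.edgeSet) :
    Matrix (Fin N) (Fin (n * d)) (MvPolynomial (Fin (n * d)) ℂ) :=
  fun i j => map (algebraMap ℝ ℂ) (smat d G (e i) (finProdFinEquiv.symm j))

theorem eval_cmat {G : SimpleGraph (Fin n)} {N : ℕ} (e : Fin N ≃ G.edgeSet)
    (x : Fin (n * d) → ℝ) (i : Fin N) (j : Fin (n * d)) :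
    ((cmat d e).map (eval (fun k => (x k : ℂ)))) i j =
      algebraMap ℝ ℂ (rigidityMatrix G (plc x) (e i) (finProdFinEquiv.symm j)) := by
  rw [← eval_smat]
  change eval (fun k => (x k : ℂ)) (map (algebraMap ℝ ℂ) (smat d G (e i) (finProdFinEquiv.symm j))) =
    algebraMap ℝ ℂ (eval x (smat d G (e i) (finProdFinEquiv.symm j)))
  rw [eval_map]
  generalize smat d G (e i) (finProdFinEquiv.symm j) = f
  induction f using MvPolynomial.induction_on with
  | C a => simp
  | add p q hp hq => rw [eval₂_add, hp, hq, map_add, map_add]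
  | mul_X p k hp => rw [eval₂_mul, hp, eval₂_X, map_mul, map_mul, eval_X]; rfl

theorem bridge {G : SimpleGraph (Fin n)} {N : ℕ} (e : Fin N ≃ G.edgeSet)
    (P : Finset (Fin (n * d) → ℤ))
    (h : ∀ q : Fin (n * d) → ℂ, ∃ x ∈ P, ((cmat d e).map (eval q)).rank ≤
      ((cmat d e).map (eval (fun i => (x i : ℂ)))).rank) (p : Fin n → Fin d → ℝ) :
    ∃ x ∈ P, (rigidityMatrix G p).rank ≤
      (rigidityMatrix G (fun v i => (x (finProdFinEquiv (v, i)) : ℝ))).rank := by
  classical
  obtain ⟨x, hx, hr⟩ := h fun k => ((p (finProdFinEquiv.symm k).1 (finProdFinEquiv.symm k).2 : ℝ) : ℂ)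
  refine ⟨x, hx, ?_⟩
  have hplc : plc (fun x : Fin (n * d) => p (finProdFinEquiv.symm x).1 (finProdFinEquiv.symm x).2) =
      p := by
    funext v i
    change p (finProdFinEquiv.symm (finProdFinEquiv (v, i))).1
      (finProdFinEquiv.symm (finProdFinEquiv (v, i))).2 = p v i
    rw [Equiv.symm_apply_apply]
  have h1 : (rigidityMatrix G p).rank ≤ ((cmat d e).map (eval fun k =>
      ((p (finProdFinEquiv.symm k).1 (finProdFinEquiv.symm k).2 : ℝ) : ℂ))).rank := by
    refine rank_le_of_map (algebraMap ℝ ℂ) _ _ e.symm finProdFinEquiv ?_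
    intro r c
    rw [eval_cmat e (fun k => p (finProdFinEquiv.symm k).1 (finProdFinEquiv.symm k).2), hplc,
      Equiv.apply_symm_apply, Equiv.symm_apply_apply]
  have h2 : ((cmat d e).map (eval (fun i => (x i : ℂ)))).rank ≤
      (rigidityMatrix G (fun v i => (x (finProdFinEquiv (v, i)) : ℝ))).rank := by
    refine rank_ge_of_map (algebraMap ℝ ℂ) _ _ e.symm finProdFinEquiv e.symm.surjective
      finProdFinEquiv.surjective ?_
    intro r c
    have h3 := eval_cmat (d := d) e (fun k => (x k : ℝ)) (e.symm r) (finProdFinEquiv c)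
    rw [Equiv.apply_symm_apply, Equiv.symm_apply_apply] at h3
    have h4 : (fun k => (((x k : ℤ) : ℝ) : ℂ)) = fun i => ((x i : ℤ) : ℂ) := by
      funext k
      simp
    rw [h4] at h3
    rw [h3]
    rfl
  exact h1.trans (hr.trans h2)

theorem cmat_deg {G : SimpleGraph (Fin n)} {N : ℕ} (e : Fin N ≃ G.edgeSet) (i : Fin N)
    (j : Fin (n * d)) : (cmat d e i j).totalDegree ≤ 1 := by
  refine le_trans ?_ (smat_deg G (e i) (finProdFinEquiv.symm j))
  unfold cmat totalDegree
  exact Finset.sup_mono (support_map_subset _ _)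

section lin

/-- linear forms -/
def IsLin {m : ℕ} (f : MvPolynomial (Fin m) ℂ) : Prop :=
  f = ∑ x, C (coeff (Finsupp.single x 1) f) * X x

theorem isLin_X {m : ℕ} (y : Fin m) : IsLin (X y : MvPolynomial (Fin m) ℂ) := by
  classical
  unfold IsLin
  rw [Finset.sum_eq_single y]
  · rw [coeff_X, if_pos rfl, C_1, one_mul]
  · intro x _ hx
    rw [coeff_X, if_neg, C_0, zero_mul]
    intro h
    exact hx (Finsupp.single_left_injective one_ne_zero h).symm
  · intro h
    exact absurd (Finset.mem_univ _) h

theorem isLin_zero {m : ℕ} : IsLin (0 : MvPolynomial (Fin m) ℂ) := by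
  unfold IsLin
  simp

theorem IsLin.sub {m : ℕ} {f g : MvPolynomial (Fin m) ℂ} (hf : IsLin f) (hg : IsLin g) :
    IsLin (f - g) := by
  unfold IsLin at *
  rw [show (∑ x, C (coeff (Finsupp.single x 1) (f - g)) * X x : MvPolynomial (Fin m) ℂ) =
      ∑ x, C (coeff (Finsupp.single x 1) f) * X x - ∑ x, C (coeff (Finsupp.single x 1) g) * X x by
    rw [← Finset.sum_sub_distrib]
    refine Finset.sum_congr rfl fun x _ => ?_
    rw [coeff_sub, C_sub, sub_mul], ← hf, ← hg]

theorem isLin_smat {G : SimpleGraph (Fin n)} (e : G.edgeSet) (c : Fin n × Fin d) :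
    IsLin (map (algebraMap ℝ ℂ) (smat d G e c)) := by
  obtain ⟨e, he⟩ := e
  induction e using Sym2.ind with
  | _ u v =>
    change IsLin (map (algebraMap ℝ ℂ) (srow u v c))
    unfold srow Y
    split_ifs
    · rw [map_sub, map_X, map_X]
      exact (isLin_X _).sub (isLin_X _)
    · rw [map_sub, map_X, map_X]
      exact (isLin_X _).sub (isLin_X _)
    · rw [map_zero]
      exact isLin_zero

/-- the part of the symbolic rigidity matrix with the variable `x` -/
noncomputable def part (d : ℕ) {G : SimpleGraph (Fin n)} {N : ℕ} (e : Fin N ≃ G.edgeSet)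
    (x : Fin (n * d)) : Matrix (Fin N) (Fin (n * d)) (MvPolynomial (Fin (n * d)) ℂ) :=
  fun i j => C (coeff (Finsupp.single x 1) (cmat d e i j)) * X x

theorem sum_part {G : SimpleGraph (Fin n)} {N : ℕ} (e : Fin N ≃ G.edgeSet) :
    ∑ x, part d e x = cmat d e := by
  ext1 i j
  rw [Matrix.sum_apply]
  exact (isLin_smat (d := d) (e i) (finProdFinEquiv.symm j)).symm

theorem part_mem {G : SimpleGraph (Fin n)} {N : ℕ} (e : Fin N ≃ G.edgeSet) (x : Fin (n * d))
    (i : Fin N) (j : Fin (n * d)) {S : Set (Fin (n * d))} (hx : x ∈ S) :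
    part d e x i j ∈ supported ℂ S := by
  unfold part
  exact Subalgebra.mul_mem _ ((supported ℂ S).algebraMap_mem _) (X_mem_supported.2 hx)

theorem part_ne {G : SimpleGraph (Fin n)} {N : ℕ} {e : Fin N ≃ G.edgeSet} {x : Fin (n * d)}
    {i : Fin N} {j : Fin (n * d)} (h : part d e x i j ≠ 0) :
    (finProdFinEquiv.symm x).1 ∈ (e i : Sym2 (Fin n)) ∧
      (finProdFinEquiv.symm j).1 ∈ (e i : Sym2 (Fin n)) := by
  classical
  have h1 : coeff (Finsupp.single x 1) (cmat d e i j) ≠ 0 := by
    intro h0
    apply h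
    unfold part
    rw [h0, C_0, zero_mul]
  unfold cmat at h1
  rw [coeff_map] at h1
  have h2 : coeff (Finsupp.single x 1) (smat d G (e i) (finProdFinEquiv.symm j)) ≠ 0 := by
    intro h0
    apply h1
    rw [h0, map_zero]
  constructor
  · refine smat_vars (G := G) (e := e i) (c := finProdFinEquiv.symm j) ?_
    rw [mem_vars_iff_mem_support]
    exact ⟨Finsupp.single x 1, mem_support_iff.2 h2, by simp⟩
  · refine smat_ne (G := G) (e := e i) (c := finProdFinEquiv.symm j) ?_
    intro h0
    apply h2
    rw [h0, coeff_zero]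

end lin

section cuts

/-- the edges of `G` with one end in `S` and the other end outside of `S` -/
def cutSet (G : SimpleGraph (Fin n)) (S : Finset (Fin n)) : Set (Sym2 (Fin n)) :=
  {e | ∃ u v, e = s(u, v) ∧ G.Adj u v ∧ u ∈ S ∧ v ∉ S}

/-- the number of these edges -/
noncomputable def cut (G : SimpleGraph (Fin n)) (S : Finset (Fin n)) : ℕ := (cutSet G S).ncard

/-- the edges of the cut as a finite set -/
noncomputable def cutF (G : SimpleGraph (Fin n)) (S : Finset (Fin n)) : Finset (Sym2 (Fin n)) :=
  (Set.toFinite (cutSet G S)).toFinset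

theorem cutF_card (G : SimpleGraph (Fin n)) (S : Finset (Fin n)) :
    (cutF G S).card = cut G S := by
  unfold cutF cut
  rw [Set.ncard_eq_toFinset_card]

theorem mem_cutF {G : SimpleGraph (Fin n)} {S : Finset (Fin n)} {u v : Fin n} (h : G.Adj u v)
    (hu : u ∈ S) (hv : v ∉ S) : s(u, v) ∈ cutF G S := by
  unfold cutF
  rw [Set.Finite.mem_toFinset]
  exact ⟨u, v, rfl, h, hu, hv⟩

/-- the ends of the edges in `E` -/
def endsF (E : Finset (Sym2 (Fin n))) : Finset (Fin n) :=
  E.biUnion fun e => Finset.univ.filter fun u => u ∈ e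

theorem endsF_card (E : Finset (Sym2 (Fin n))) : (endsF E).card ≤ 2 * E.card := by
  unfold endsF
  rw [mul_comm]
  refine Finset.card_biUnion_le_card_mul _ _ _ fun e _ => ?_
  induction e using Sym2.ind with
  | _ a b =>
    have : (Finset.univ.filter fun u => u ∈ s(a, b)) ⊆ ({a, b} : Finset (Fin n)) := by
      intro x hx
      rw [Finset.mem_filter] at hx
      simpa using hx.2
    exact (Finset.card_le_card this).trans Finset.card_le_two

theorem mem_endsF {E : Finset (Sym2 (Fin n))} {u v : Fin n} (h : s(u, v) ∈ E) :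
    u ∈ endsF E ∧ v ∈ endsF E := by
  unfold endsF
  constructor
  · exact Finset.mem_biUnion.2 ⟨_, h, by simp⟩
  · exact Finset.mem_biUnion.2 ⟨_, h, by simp⟩

theorem cut_le {R N w' : ℕ} {G : SimpleGraph (Fin n)} (e : Fin N ≃ G.edgeSet)
    (vt : Fin R → Fin n)
    (A : Fin R → Matrix (Fin N) (Fin (n * d)) (MvPolynomial (Fin (n * d)) ℂ))
    (hA : ∀ s i j, A s i j ≠ 0 → vt s ∈ (e i : Sym2 (Fin n)) ∧
      (finProdFinEquiv.symm j).1 ∈ (e i : Sym2 (Fin n)))
    (T : Finset (Fin R)) (E : Finset (Sym2 (Fin n))) (U : Finset (Fin n))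
    (h1 : ∀ t ∈ T, ∀ t', t' ∉ T → ∀ i, vt t ∈ (e i : Sym2 (Fin n)) →
      vt t' ∈ (e i : Sym2 (Fin n)) → (e i : Sym2 (Fin n)) ∈ E)
    (h2 : ∀ t ∈ T, ∀ t', t' ∉ T → ∀ u, (u = vt t ∨ G.Adj (vt t) u) →
      (u = vt t' ∨ G.Adj (vt t') u) → u ∈ U)
    (hE : E.card ≤ w') (hU : U.card * d ≤ w') : CutLE w' A T := by
  classical
  refine Pool.Agent.W943.Pm.cut_of_support A
    (fun s => Finset.univ.filter fun i => vt s ∈ (e i : Sym2 (Fin n)))
    (fun s => Finset.univ.filter fun j => (finProdFinEquiv.symm j).1 = vt s ∨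
      G.Adj (vt s) (finProdFinEquiv.symm j).1) ?_ T ?_ ?_
  · intro s i j h
    obtain ⟨h3, h4⟩ := hA s i j h
    refine ⟨by simpa using h3, ?_⟩
    rw [Finset.mem_filter]
    refine ⟨Finset.mem_univ _, ?_⟩
    have h5 : (e i : Sym2 (Fin n)) ∈ G.edgeSet := (e i).2
    revert h3 h4 h5
    generalize (e i : Sym2 (Fin n)) = z
    induction z using Sym2.ind with
    | _ a b =>
      intro h3 h4 h5
      rw [Sym2.mem_iff] at h3 h4
      rw [SimpleGraph.mem_edgeSet] at h5
      rcases h3 with h3 | h3 <;> rcases h4 with h4 | h4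
      · left; rw [h3, h4]
      · right; rw [h3, h4]; exact h5
      · right; rw [h3, h4]; exact h5.symm
      · left; rw [h3, h4]
  · refine le_trans ?_ hE
    refine Finset.card_le_card_of_injOn (fun i => (e i : Sym2 (Fin n))) ?_ ?_
    · intro i hi
      rw [Finset.mem_coe, Finset.mem_inter, Finset.mem_biUnion, Finset.mem_biUnion] at hi
      obtain ⟨⟨t, ht, hti⟩, t', ht', hti'⟩ := hi
      rw [Finset.mem_filter] at hti hti'
      rw [Finset.mem_compl] at ht'
      exact h1 t ht t' ht' i hti.2 hti'.2
    · intro i _ i' _ hii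
      exact e.injective (Subtype.ext hii)
  · refine le_trans ?_ hU
    have h3 : (T.biUnion (fun s => Finset.univ.filter fun j : Fin (n * d) =>
        (finProdFinEquiv.symm j).1 = vt s ∨ G.Adj (vt s) (finProdFinEquiv.symm j).1) ∩
        Tᶜ.biUnion (fun s => Finset.univ.filter fun j : Fin (n * d) =>
        (finProdFinEquiv.symm j).1 = vt s ∨ G.Adj (vt s) (finProdFinEquiv.symm j).1)) ⊆
        (U ×ˢ (Finset.univ : Finset (Fin d))).image finProdFinEquiv := by
      intro j hj
      rw [Finset.mem_inter, Finset.mem_biUnion, Finset.mem_biUnion] at hj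
      obtain ⟨⟨t, ht, htj⟩, t', ht', htj'⟩ := hj
      rw [Finset.mem_filter] at htj htj'
      rw [Finset.mem_compl] at ht'
      rw [Finset.mem_image]
      exact ⟨finProdFinEquiv.symm j, Finset.mem_product.2 ⟨h2 t ht t' ht' _ htj.2 htj'.2,
        Finset.mem_univ _⟩, Equiv.apply_symm_apply _ _⟩
    refine (Finset.card_le_card h3).trans (Finset.card_image_le.trans ?_)
    rw [Finset.card_product, Finset.card_univ, Fintype.card_fin]

end cuts

section path

/-- `G` has cutwidth at most `w`: the vertices can be put in an order such that at most `w` edges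
join the vertices before any position to the vertices from this position on. -/
def CutwidthLE (w : ℕ) (G : SimpleGraph (Fin n)) : Prop :=
  ∃ σ : Equiv.Perm (Fin n), ∀ t : ℕ, cut G (Finset.univ.filter fun v => (σ v : ℕ) < t) ≤ w

theorem submersive_X {m : ℕ} : Submersive (fun i : Fin m => (X i : MvPolynomial (Fin m) ℂ)) := by
  classical
  refine ⟨fun i l => if i = l then 1 else 0, fun i k => ?_⟩
  simp only [ite_mul, one_mul, zero_mul, Finset.sum_ite_eq, Finset.mem_univ, if_true]
  rw [pderiv_X, Pi.single_apply]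
  by_cases h : i = k
  · rw [if_pos h, if_pos h.symm]
  · rw [if_neg h, if_neg fun h' => h h'.symm]

theorem val_eq (t : Fin (n * d)) : (t : ℕ) = ((finProdFinEquiv.symm t).2 : ℕ) +
    d * ((finProdFinEquiv.symm t).1 : ℕ) := by
  conv_lhs => rw [← finProdFinEquiv.apply_symm_apply t]
  rfl

theorem path_hidden {w N : ℕ} {G : SimpleGraph (Fin n)} (hG : CutwidthLE w G)
    (e : Fin N ≃ G.edgeSet) : PathHidden 1 ((4 * w + 1) * d + 2 * w) (cmat d e) := by
  classical
  obtain ⟨σ, hσ⟩ := hG
  obtain ⟨a, ha⟩ : ∃ a : Fin (n * d) ≃ Fin (n * d), ∀ t,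
      (finProdFinEquiv.symm (a t)).1 = σ.symm (finProdFinEquiv.symm t).1 :=
    ⟨(finProdFinEquiv.symm.trans ((σ.symm).prodCongr (Equiv.refl _))).trans finProdFinEquiv,
      fun t => by simp⟩
  refine ⟨n * d, n * d, fun i => X i, a, fun t => part d e (a t), submersive_X,
    fun t i j => part_mem e _ i j rfl, ?_, ?_, ?_⟩
  · intro v
    rw [Finset.card_le_one]
    intro t ht t' ht'
    rw [Finset.mem_filter] at ht ht'
    exact a.injective (ht.2.trans ht'.2.symm)
  · intro l
    set p0 := l / d with hp0
    set S : ℕ → Finset (Fin n) := fun t => Finset.univ.filter fun v => (σ v : ℕ) < t with hS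
    set E : Finset (Sym2 (Fin n)) := cutF G (S p0) ∪ cutF G (S (p0 + 1)) with hE
    set U : Finset (Fin n) := (Finset.univ.filter fun u => (σ u : ℕ) = p0) ∪ endsF E with hU
    have key : ∀ x y : Fin n, G.Adj x y → (σ x : ℕ) ≤ p0 → p0 ≤ (σ y : ℕ) → s(x, y) ∈ E := by
      intro x y hxy hx hy
      rcases lt_or_eq_of_le hx with hx | hx
      · refine Finset.mem_union_left _ (mem_cutF hxy ?_ ?_)
        · rw [hS]; simpa using hx
        · rw [hS]; simpa using hy
      · have hne : (σ y : ℕ) ≠ p0 := by
          intro h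
          apply hxy.ne
          apply σ.injective
          apply Fin.ext
          rw [hx, h]
        refine Finset.mem_union_right _ (mem_cutF hxy ?_ ?_)
        · rw [hS]; simp; omega
        · rw [hS]; simp; omega
    have hpos : ∀ t : Fin (n * d), (σ (finProdFinEquiv.symm (a t)).1 : ℕ) =
        ((finProdFinEquiv.symm t).1 : ℕ) := by
      intro t
      rw [ha, Equiv.apply_symm_apply]
    have hlt : ∀ t : Fin (n * d), (t : ℕ) < l →
        (σ (finProdFinEquiv.symm (a t)).1 : ℕ) ≤ p0 := by
      intro t ht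
      rw [hpos, hp0]
      have hd : 0 < d := lt_of_le_of_lt (Nat.zero_le _) (finProdFinEquiv.symm t).2.isLt
      rw [Nat.le_div_iff_mul_le hd]
      have := val_eq t
      have h5 : ((finProdFinEquiv.symm t).1 : ℕ) * d = d * ((finProdFinEquiv.symm t).1 : ℕ) :=
        mul_comm _ _
      omega
    have hge : ∀ t : Fin (n * d), ¬ (t : ℕ) < l →
        p0 ≤ (σ (finProdFinEquiv.symm (a t)).1 : ℕ) := by
      intro t ht
      rw [hpos, hp0]
      have hd : 0 < d := lt_of_le_of_lt (Nat.zero_le _) (finProdFinEquiv.symm t).2.isLt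
      have h5 := (finProdFinEquiv.symm t).2.isLt
      have h6 := val_eq t
      have h7 : l / d < ((finProdFinEquiv.symm t).1 : ℕ) + 1 := by
        rw [Nat.div_lt_iff_lt_mul hd]
        have h8 : (((finProdFinEquiv.symm t).1 : ℕ) + 1) * d =
            d * ((finProdFinEquiv.symm t).1 : ℕ) + d := by ring
        omega
      omega
    refine cut_le e (fun t => (finProdFinEquiv.symm (a t)).1) _ (fun s i j h => part_ne h)
      _ E U ?_ ?_ ?_ ?_
    · intro t ht t' ht' i
      have h3 := hlt t (by simpa using ht)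
      have h4 := hge t' (by simpa using ht')
      have h5 : (e i : Sym2 (Fin n)) ∈ G.edgeSet := (e i).2
      revert h5
      generalize (e i : Sym2 (Fin n)) = z
      generalize (finProdFinEquiv.symm (a t)).1 = x at h3 ⊢
      generalize (finProdFinEquiv.symm (a t')).1 = y at h4 ⊢
      induction z using Sym2.ind with
      | _ b c =>
        intro h5 hx hy
        rw [Sym2.mem_iff] at hx hy
        rw [SimpleGraph.mem_edgeSet] at h5
        have hne : ∀ u v : Fin n, G.Adj u v → (σ u : ℕ) ≤ p0 → p0 ≤ (σ u : ℕ) →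
            s(u, v) ∈ E := by
          intro u v huv h6 h7
          rcases le_total (σ v : ℕ) p0 with h8 | h8
          · rw [Sym2.eq_swap]
            exact key v u huv.symm h8 h7
          · exact key u v huv h6 h8
        rcases hx with rfl | rfl <;> rcases hy with rfl | rfl
        · exact hne _ _ h5 h3 h4
        · exact key _ _ h5 h3 h4
        · rw [Sym2.eq_swap]
          exact key _ _ h5.symm h3 h4
        · rw [Sym2.eq_swap]
          exact hne _ _ h5.symm h3 h4
    · intro t ht t' ht' u hu hu'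
      have h3 := hlt t (by simpa using ht)
      have h4 := hge t' (by simpa using ht')
      rcases lt_trichotomy (σ u : ℕ) p0 with h5 | h5 | h5
      · rcases hu' with hu' | hu'
        · rw [hu'] at h5
          omega
        · exact Finset.mem_union_right _ (mem_endsF (key _ _ hu'.symm h5.le h4)).1
      · refine Finset.mem_union_left _ ?_
        rw [Finset.mem_filter]
        exact ⟨Finset.mem_univ _, h5⟩
      · rcases hu with hu | hu
        · rw [hu] at h5
          omega
        · exact Finset.mem_union_right _ (mem_endsF (key _ _ hu h3 h5.le)).2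
    · have h1 := Finset.card_union_le (cutF G (S p0)) (cutF G (S (p0 + 1)))
      rw [cutF_card, cutF_card] at h1
      have h2 := hσ p0
      have h3 := hσ (p0 + 1)
      have h4 : E.card ≤ 2 * w := by
        refine h1.trans ?_
        rw [hS]
        simp only
        omega
      omega
    · have h1 := Finset.card_union_le (cutF G (S p0)) (cutF G (S (p0 + 1)))
      rw [cutF_card, cutF_card] at h1
      have h2 := hσ p0
      have h3 := hσ (p0 + 1)
      have h4 : E.card ≤ 2 * w := by
        refine h1.trans ?_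
        rw [hS]
        simp only
        omega
      have h5 := endsF_card E
      have h6 : (Finset.univ.filter fun u : Fin n => (σ u : ℕ) = p0).card ≤ 1 := by
        rw [Finset.card_le_one]
        intro x hx y hy
        rw [Finset.mem_filter] at hx hy
        exact σ.injective (Fin.ext (hx.2.trans hy.2.symm))
      have h7 : U.card ≤ 4 * w + 1 := by
        refine (Finset.card_union_le _ _).trans ?_
        omega
      exact (Nat.mul_le_mul_right _ h7).trans (Nat.le_add_right _ _)
  · have h1 : ∑ t, part d e (a t) = cmat d e := by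
      rw [Equiv.sum_comp a (fun x => part d e x), sum_part]
    rw [h1]
    ext1 i j
    rw [Matrix.map_apply]
    exact (aeval_X_left_apply _).symm

end path

section tree

open Pool.Agent.W943.Tw (Tree)

/-- `Carved w G S`: the set `S` of vertices can be obtained from single vertices by disjoint
unions, at most `w` edges leaving each of the sets which are formed on the way. -/
inductive Carved (w : ℕ) (G : SimpleGraph (Fin n)) : Finset (Fin n) → Prop
  | empty : Carved w G ∅
  | single (v : Fin n) : cut G {v} ≤ w → Carved w G {v}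
  | union (S T : Finset (Fin n)) : Carved w G S → Carved w G T → Disjoint S T →
      cut G (S ∪ T) ≤ w → Carved w G (S ∪ T)

/-- `G` has carving width at most `w`: some binary tree has the vertices as its leaves, and at most
`w` edges join the vertices in any of its subtrees to the other vertices. -/
def CarvingWidthLE (w : ℕ) (G : SimpleGraph (Fin n)) : Prop := Carved w G Finset.univ

theorem Carved.cut_le {w : ℕ} {G : SimpleGraph (Fin n)} {S : Finset (Fin n)}
    (h : Carved w G S) : cut G S ≤ w := by
  cases h with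
  | empty =>
    have : cutSet G ∅ = ∅ := by
      ext e
      unfold cutSet
      simp
    unfold cut
    rw [this, Set.ncard_empty]
    exact Nat.zero_le _
  | single v h => exact h
  | union S T _ _ _ h => exact h

/-- the part of the symbolic rigidity matrix with the coordinates of the vertex `v` -/
noncomputable def vpart (d : ℕ) {G : SimpleGraph (Fin n)} {N : ℕ} (e : Fin N ≃ G.edgeSet)
    (v : Fin n) : Matrix (Fin N) (Fin (n * d)) (MvPolynomial (Fin (n * d)) ℂ) :=
  ∑ i : Fin d, part d e (finProdFinEquiv (v, i))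

theorem vpart_ne {N : ℕ} {G : SimpleGraph (Fin n)} {e : Fin N ≃ G.edgeSet} {v : Fin n}
    {i : Fin N} {j : Fin (n * d)} (h : vpart d e v i j ≠ 0) :
    v ∈ (e i : Sym2 (Fin n)) ∧ (finProdFinEquiv.symm j).1 ∈ (e i : Sym2 (Fin n)) := by
  unfold vpart at h
  rw [Matrix.sum_apply] at h
  obtain ⟨c, -, hc⟩ := Finset.exists_ne_zero_of_sum_ne_zero h
  obtain ⟨h1, h2⟩ := part_ne hc
  rw [Equiv.symm_apply_apply] at h1
  exact ⟨h1, h2⟩

theorem carved_cut {w N : ℕ} {G : SimpleGraph (Fin n)} (e : Fin N ≃ G.edgeSet)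
    {S : Finset (Fin n)} (h : cut G S ≤ w) : CutLE (2 * w * d + w) (vpart d e) S := by
  classical
  refine cut_le e (fun v => v) _ (fun s i j h => vpart_ne h) _ (cutF G S) (endsF (cutF G S))
    ?_ ?_ ?_ ?_
  · intro t ht t' ht' i hi hi'
    have hne : t ≠ t' := fun h => ht' (h ▸ ht)
    have h5 : (e i : Sym2 (Fin n)) ∈ G.edgeSet := (e i).2
    have h6 : (e i : Sym2 (Fin n)) = s(t, t') := (Sym2.mem_and_mem_iff hne).1 ⟨hi, hi'⟩
    rw [h6] at h5 ⊢
    exact mem_cutF h5 ht ht'
  · intro t ht t' ht' u hu hu'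
    by_cases h5 : u ∈ S
    · rcases hu' with hu' | hu'
      · exact absurd (hu' ▸ h5) ht'
      · exact (mem_endsF (mem_cutF hu'.symm h5 ht')).1
    · rcases hu with hu | hu
      · exact absurd (hu ▸ ht) h5
      · exact (mem_endsF (mem_cutF hu ht h5)).2
  · rw [cutF_card]
    omega
  · have h1 := endsF_card (cutF G S)
    rw [cutF_card] at h1
    refine (Nat.mul_le_mul_right d (h1.trans (Nat.mul_le_mul_left 2 h))).trans
      (Nat.le_add_right _ _)

theorem carved_tree {w N : ℕ} {G : SimpleGraph (Fin n)} (e : Fin N ≃ G.edgeSet)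
    {S : Finset (Fin n)} (h : Carved w G S) : ∃ t : Tree n, t.set = S ∧
      Nice (fun S => (Finset.univ.filter fun x : Fin (n * d) =>
        (finProdFinEquiv.symm x).1 ∈ S).card ≤ d) (CutLE (2 * w * d + w) (vpart d e)) t := by
  classical
  induction h with
  | empty =>
    refine ⟨.leaf ∅, rfl, ?_, carved_cut e (Carved.empty (w := w) (G := G)).cut_le⟩
    simp
  | single v h =>
    refine ⟨.leaf {v}, rfl, ?_, carved_cut e h⟩
    have h1 : (Finset.univ.filter fun x : Fin (n * d) =>
        (finProdFinEquiv.symm x).1 ∈ ({v} : Finset (Fin n))) ⊆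
        (Finset.univ : Finset (Fin d)).image fun i => finProdFinEquiv (v, i) := by
      intro x hx
      rw [Finset.mem_filter, Finset.mem_singleton] at hx
      rw [Finset.mem_image]
      refine ⟨(finProdFinEquiv.symm x).2, Finset.mem_univ _, ?_⟩
      rw [← hx.2]
      exact finProdFinEquiv.apply_symm_apply x
    refine (Finset.card_le_card h1).trans (Finset.card_image_le.trans ?_)
    rw [Finset.card_univ, Fintype.card_fin]
  | union S T _ _ hST h ihS ihT =>
    obtain ⟨s, rfl, hs⟩ := ihS
    obtain ⟨t, rfl, ht⟩ := ihT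
    exact ⟨.node s t, rfl, hST, carved_cut e h, hs, ht⟩

theorem tree_hidden {w N : ℕ} {G : SimpleGraph (Fin n)} (hG : CarvingWidthLE w G)
    (e : Fin N ≃ G.edgeSet) : TreeHidden d (2 * w * d + w) (cmat d e) := by
  classical
  obtain ⟨t, ht, ht'⟩ := carved_tree (d := d) e hG
  refine ⟨n * d, n, fun i => X i, fun x => (finProdFinEquiv.symm x).1, vpart d e, t,
    submersive_X, ?_, ht, ht', ?_⟩
  · intro v i j
    unfold vpart
    rw [Matrix.sum_apply]
    refine Subalgebra.sum_mem _ fun c _ => part_mem e _ i j ?_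
    change (finProdFinEquiv.symm (finProdFinEquiv (v, c))).1 = v
    rw [Equiv.symm_apply_apply]
  · have h1 : ∑ v, vpart d e v = cmat d e := by
      unfold vpart
      rw [← sum_part, ← Equiv.sum_comp finProdFinEquiv (fun x => part d e x),
        Fintype.sum_prod_type]
    rw [h1]
    ext1 i j
    rw [Matrix.map_apply]
    exact (aeval_X_left_apply _).symm

end tree

end Pool.Agent.Q225.Rig
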