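import Pool.Agent.Q225.ShDefs

set_option autoImplicit false

namespace Pool.Agent.Q225.Shell

open Finset Classical

variable {α : Type}

/-- the facet `F` may be added to the facets `A` -/
def Good (d : ℕ) (A : Finset (Finset α)) (F : Finset α) : Prop :=
  ∀ G ∈ A, ∃ K ∈ A, F ∩ G ⊆ K ∧ (F ∩ K).card + 1 = d

inductive Sh (d : ℕ) : Finset (Finset α) → Prop
  | nil : Sh d ∅
  | snoc (A : Finset (Finset α)) (F : Finset α) : Sh d A → F ∉ A → F.card = d → Good d A F →
      Sh d (insert F A)

theorem Sh.shellable {d : ℕ} {A : Finset (Finset α)} (h : Sh d A) : Shellable d A := by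
  induction h with
  | nil => exact ⟨[], ⟨List.nodup_nil, by simp⟩, rfl⟩
  | snoc A F _ hF hd hg ih =>
    obtain ⟨l, ⟨h1, h2⟩, h3⟩ := ih
    have hFl : F ∉ l := by
      intro h
      apply hF
      rw [← h3]
      exact List.mem_toFinset.mpr h
    refine ⟨l ++ [F], ⟨?_, ?_⟩, ?_⟩
    · rw [List.nodup_append]
      refine ⟨h1, List.nodup_singleton F, ?_⟩
      intro a ha b hb
      rw [List.mem_singleton] at hb
      rw [hb]
      rintro rfl
      exact hFl ha
    · intro j hj hj1
      rw [List.length_append, List.length_singleton] at hj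
      rcases Nat.lt_or_ge j l.length with hlt | hge
      · have h4 := h2 j hlt hj1
        rw [List.getElem_append_left hlt, List.take_append_of_le_length hlt.le]
        exact h4
      · have hjl : j = l.length := by omega
        subst hjl
        have e1 : (l ++ [F])[l.length] = F := by simp
        have e2 : (l ++ [F]).take l.length = l := by simp
        rw [e1, e2, h3]
        rintro s ⟨⟨F', hF', hs1⟩, ⟨G, hG, hs2⟩⟩ hmax
        rw [Finset.mem_singleton] at hF'
        subst hF'
        obtain ⟨K, hK, h5, h6⟩ := hg G hG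
        have h7 : s ⊆ F' ∩ K := by
          intro y hy
          exact Finset.mem_inter.mpr ⟨hs1 hy, h5 (Finset.mem_inter.mpr ⟨hs1 hy, hs2 hy⟩)⟩
        have h8 := hmax (F' ∩ K) ⟨⟨F', Finset.mem_singleton_self _, Finset.inter_subset_left⟩,
          ⟨K, hK, Finset.inter_subset_right⟩⟩ h7
        rw [h8]
        omega
    · rw [List.toFinset_append, h3]
      ext G
      simp

theorem Sh.card {d : ℕ} {A : Finset (Finset α)} (h : Sh d A) : ∀ F ∈ A, F.card = d := by
  induction h with
  | nil => simp
  | snoc A F _ _ hd _ ih =>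
    intro G hG
    rcases Finset.mem_insert.mp hG with rfl | hG
    · exact hd
    · exact ih G hG

theorem Sh.cone {d : ℕ} {A : Finset (Finset α)} (h : Sh d A) (x : α) (hx : ∀ F ∈ A, x ∉ F) :
    Sh (d + 1) (A.image (insert x)) := by
  induction h with
  | nil => exact Sh.nil
  | snoc A F hA hF hd hg ih =>
    have hxA : ∀ F ∈ A, x ∉ F := fun G hG => hx G (Finset.mem_insert_of_mem hG)
    have hxF : x ∉ F := hx F (Finset.mem_insert_self F A)
    rw [Finset.image_insert]
    refine Sh.snoc _ _ (ih hxA) ?_ ?_ ?_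
    · intro hcon
      obtain ⟨G, hG, h1⟩ := Finset.mem_image.mp hcon
      have : G = F := by
        rw [← Finset.erase_insert (hxA G hG), h1, Finset.erase_insert hxF]
      exact hF (this ▸ hG)
    · rw [Finset.card_insert_of_notMem hxF, hd]
    · intro G' hG'
      obtain ⟨G, hG, rfl⟩ := Finset.mem_image.mp hG'
      obtain ⟨K, hK, h1, h2⟩ := hg G hG
      refine ⟨insert x K, Finset.mem_image_of_mem _ hK, ?_, ?_⟩
      · rw [← Finset.insert_inter_distrib]
        exact Finset.insert_subset_insert x h1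
      · rw [← Finset.insert_inter_distrib, Finset.card_insert_of_notMem]
        · omega
        · intro h
          exact hxF (Finset.mem_inter.mp h).1

theorem good_of {d : ℕ} {A : Finset (Finset α)} (hA : ∀ K ∈ A, K.card = d + 1) {F : Finset α}
    (hF : F ∉ A) (hd : F.card = d + 1) (v : α)
    (h : ∀ g ∈ F, g ≠ v → ∃ K ∈ A, F.erase g ⊆ K) : Good (d + 1) A F := by
  intro G hG
  have hlt : ∀ K ∈ A, (F ∩ K).card ≤ d := by
    intro K hK
    by_contra hcon
    have h1 : F ∩ K = F := Finset.eq_of_subset_of_card_le Finset.inter_subset_left (by omega)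
    have h2 : F ⊆ K := Finset.inter_eq_left.mp h1
    have h3 := Finset.eq_of_subset_of_card_le h2 (by rw [hA K hK, hd])
    exact hF (h3 ▸ hK)
  by_cases hex : ∃ g ∈ F, g ≠ v ∧ g ∉ G
  · obtain ⟨g, hg, hgv, hgG⟩ := hex
    obtain ⟨K, hK, h1⟩ := h g hg hgv
    refine ⟨K, hK, ?_, ?_⟩
    · intro y hy
      rw [Finset.mem_inter] at hy
      exact h1 (Finset.mem_erase.mpr ⟨fun h => hgG (h ▸ hy.2), hy.1⟩)
    · have h2 : F.erase g ⊆ F ∩ K := Finset.subset_inter (Finset.erase_subset g F) h1
      have h3 := Finset.card_le_card h2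
      rw [Finset.card_erase_of_mem hg, hd] at h3
      have h4 := hlt K hK
      omega
  · push Not at hex
    refine ⟨G, hG, Finset.inter_subset_right, ?_⟩
    have h2 : F.erase v ⊆ F ∩ G := by
      intro y hy
      rw [Finset.mem_erase] at hy
      exact Finset.mem_inter.mpr ⟨hy.2, hex y hy.2 hy.1⟩
    have h3 := Finset.card_le_card h2
    have h5 : d ≤ (F.erase v).card := by
      have := Finset.pred_card_le_card_erase (s := F) (a := v)
      omega
    have h4 := hlt G hG
    omega

theorem Sh.add {d : ℕ} {A : Finset (Finset α)} (hA : Sh (d + 1) A) (B : Finset (Finset α))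
    (hB : ∀ F ∈ B, F.card = d + 1 ∧ ∃ v, ∀ g ∈ F, g ≠ v → ∃ K ∈ A, F.erase g ⊆ K) :
    Sh (d + 1) (A ∪ B) := by
  induction B using Finset.induction_on with
  | empty => simpa using hA
  | insert F B hFB ih =>
    have ih' := ih (fun G hG => hB G (Finset.mem_insert_of_mem hG))
    by_cases hF : F ∈ A ∪ B
    · have : A ∪ insert F B = A ∪ B := by
        rw [Finset.union_insert, Finset.insert_eq_of_mem hF]
      rw [this]; exact ih'
    · rw [Finset.union_insert]
      obtain ⟨hd, v, hv⟩ := hB F (Finset.mem_insert_self F B)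
      refine Sh.snoc _ _ ih' hF hd (good_of ih'.card hF hd v fun g hg hgv => ?_)
      obtain ⟨K, hK, h1⟩ := hv g hg hgv
      exact ⟨K, Finset.mem_union_left _ hK, h1⟩

/-- the link of `x` -/
noncomputable def link (d : ℕ) (S : Finset α) (x : α) (A : Finset (Finset α)) : Finset (Finset α) :=
  ((S.erase x).powersetCard d).filter (fun G => insert x G ∈ A)

/-- the deterministic part -/
theorem sh_of (d : ℕ) (hd : 1 ≤ d) (S : Finset α) (x : α) (A : Finset (Finset α))
    (hA : A ⊆ S.powersetCard (d + 1)) (ha : Sh d (link d S x A))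
    (hb : ∀ H ∈ (S.erase x).powersetCard (d - 1), ∃ w ∈ (S.erase x) \ H, insert x (insert w H) ∈ A)
    (hc : ∀ G ∈ (S.erase x).powersetCard d, ∃ v ∈ (S.erase x) \ G,
      insert v G ∈ A ∧ ∀ g ∈ G, insert x (insert v (G.erase g)) ∈ A) : Sh (d + 1) A := by
  have hAS : ∀ F ∈ A, F ⊆ S ∧ F.card = d + 1 := fun F hF => Finset.mem_powersetCard.mp (hA hF)
  -- the star of `x`
  set A0 := (link d S x A).image (insert x) with hA0
  have h0 : Sh (d + 1) A0 := ha.cone x (by
    intro F hF
    unfold link at hF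
    rw [Finset.mem_filter, Finset.mem_powersetCard] at hF
    intro h
    exact Finset.notMem_erase x S (hF.1.1 h))
  have hmem0 : ∀ F, F ∈ A → x ∈ F → F ∈ A0 := by
    intro F hF hx
    refine Finset.mem_image.mpr ⟨F.erase x, ?_, Finset.insert_erase hx⟩
    unfold link
    rw [Finset.mem_filter, Finset.mem_powersetCard, Finset.insert_erase hx,
      Finset.card_erase_of_mem hx, (hAS F hF).2]
    exact ⟨⟨Finset.erase_subset_erase _ (hAS F hF).1, rfl⟩, hF⟩
  have h0A : A0 ⊆ A := by
    intro F hF
    obtain ⟨G, hG, rfl⟩ := Finset.mem_image.mp hF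
    exact (Finset.mem_filter.mp hG).2
  choose v hv using hc
  set B1 := ((S.erase x).powersetCard d).attach.image (fun G => insert (v G.1 G.2) G.1) with hB1
  have h1A : B1 ⊆ A := by
    intro F hF
    obtain ⟨G, _, rfl⟩ := Finset.mem_image.mp hF
    exact (hv G.1 G.2).2.1
  have h1 : Sh (d + 1) (A0 ∪ B1) := by
    refine h0.add B1 fun F hF => ⟨(hAS F (h1A hF)).2, ?_⟩
    obtain ⟨⟨G, hG⟩, _, rfl⟩ := Finset.mem_image.mp hF
    refine ⟨v G hG, fun g hg hgv => ?_⟩
    have hgG : g ∈ G := (Finset.mem_insert.mp hg).resolve_left hgv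
    obtain ⟨h2, h3, h4⟩ := hv G hG
    refine ⟨insert x (insert (v G hG) (G.erase g)), hmem0 _ (h4 g hgG) (Finset.mem_insert_self _ _), ?_⟩
    rw [Finset.erase_insert_of_ne (Ne.symm hgv)]
    exact Finset.subset_insert _ _
  have hcov : ∀ G : Finset α, G ⊆ S → G.card = d → ∃ K ∈ A0 ∪ B1, G ⊆ K := by
    intro G hGS hG
    by_cases hx : x ∈ G
    · have hmem : G.erase x ∈ (S.erase x).powersetCard (d - 1) := by
        rw [Finset.mem_powersetCard, Finset.card_erase_of_mem hx, hG]
        exact ⟨Finset.erase_subset_erase _ hGS, rfl⟩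
      obtain ⟨w, hw, hw2⟩ := hb (G.erase x) hmem
      refine ⟨_, Finset.mem_union_left _ (hmem0 _ hw2 (Finset.mem_insert_self _ _)), ?_⟩
      intro y hy
      by_cases hyx : y = x
      · rw [hyx]; exact Finset.mem_insert_self _ _
      · exact Finset.mem_insert_of_mem (Finset.mem_insert_of_mem (Finset.mem_erase.mpr ⟨hyx, hy⟩))
    · have hmem : G ∈ (S.erase x).powersetCard d := by
        rw [Finset.mem_powersetCard]
        exact ⟨Finset.subset_erase.mpr ⟨hGS, hx⟩, hG⟩
      exact ⟨insert (v G hmem) G, Finset.mem_union_right _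
        (Finset.mem_image.mpr ⟨⟨G, hmem⟩, Finset.mem_attach _ _, rfl⟩), Finset.subset_insert _ _⟩
  have h2 : Sh (d + 1) ((A0 ∪ B1) ∪ A) := by
    refine h1.add A fun F hF => ⟨(hAS F hF).2, ?_⟩
    have hne : F.Nonempty := Finset.card_pos.mp (by rw [(hAS F hF).2]; omega)
    obtain ⟨v', _⟩ := hne
    refine ⟨v', fun g hg _ => hcov (F.erase g) ((Finset.erase_subset _ _).trans (hAS F hF).1) ?_⟩
    rw [Finset.card_erase_of_mem hg, (hAS F hF).2]
    rfl
  rwa [Finset.union_eq_right.mpr (Finset.union_subset h0A h1A)] at h2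

theorem sh_one (A : Finset (Finset α)) (hA : ∀ F ∈ A, F.card = 1) : Sh 1 A := by
  induction A using Finset.induction_on with
  | empty => exact Sh.nil
  | insert F A hF ih =>
    refine Sh.snoc A F (ih fun G hG => hA G (Finset.mem_insert_of_mem hG)) hF
      (hA F (Finset.mem_insert_self F A)) fun G hG => ?_
    have h1 := hA F (Finset.mem_insert_self F A)
    have h2 := hA G (Finset.mem_insert_of_mem hG)
    obtain ⟨a, rfl⟩ := Finset.card_eq_one.mp h1
    obtain ⟨b, rfl⟩ := Finset.card_eq_one.mp h2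
    have hab : a ≠ b := by
      rintro rfl
      exact hF hG
    refine ⟨{b}, hG, Finset.inter_subset_right, ?_⟩
    rw [Finset.singleton_inter_of_notMem (by simpa using hab)]
    simp

end Pool.Agent.Q225.Shell
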