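import Pool.Agent.Q225.ShA

set_option autoImplicit false

namespace Pool.Agent.Q225.Shell

open Finset Classical

variable {β : Type} {γ : Type} [DecidableEq β] [DecidableEq γ]

/-- expectation for a random subset of `E`, each element being present with probability `p`,
independently -/
noncomputable def Ex (p : ℝ) (E : Finset β) (f : Finset β → ℝ) : ℝ :=
  ∑ A ∈ E.powerset, p ^ A.card * (1 - p) ^ (E.card - A.card) * f A

theorem Ex_one (p : ℝ) (E : Finset β) : Ex p E (fun _ => 1) = 1 := by
  unfold Ex
  simp_rw [mul_one]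
  rw [Finset.sum_pow_mul_eq_add_pow]
  simp

theorem Ex_const (p : ℝ) (E : Finset β) (c : ℝ) : Ex p E (fun _ => c) = c := by
  have := Ex_one p E
  unfold Ex at this ⊢
  rw [← Finset.sum_mul]
  simp_rw [mul_one] at this
  rw [this, one_mul]

theorem Ex_mono {p : ℝ} (h0 : 0 ≤ p) (h1 : p ≤ 1) {E : Finset β} {f g : Finset β → ℝ}
    (h : ∀ A ⊆ E, f A ≤ g A) : Ex p E f ≤ Ex p E g := by
  unfold Ex
  refine Finset.sum_le_sum fun A hA => ?_
  rw [Finset.mem_powerset] at hA
  have : 0 ≤ 1 - p := by linarith
  exact mul_le_mul_of_nonneg_left (h A hA) (by positivity)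

theorem Ex_congr {p : ℝ} {E : Finset β} {f g : Finset β → ℝ}
    (h : ∀ A ⊆ E, f A = g A) : Ex p E f = Ex p E g := by
  unfold Ex
  exact Finset.sum_congr rfl fun A hA => by rw [h A (Finset.mem_powerset.mp hA)]

theorem Ex_add (p : ℝ) (E : Finset β) (f g : Finset β → ℝ) :
    Ex p E (fun A => f A + g A) = Ex p E f + Ex p E g := by
  unfold Ex
  rw [← Finset.sum_add_distrib]
  exact Finset.sum_congr rfl fun A _ => by ring

theorem Ex_sum {ι : Type} (p : ℝ) (E : Finset β) (I : Finset ι) (f : ι → Finset β → ℝ) :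
    Ex p E (fun A => ∑ i ∈ I, f i A) = ∑ i ∈ I, Ex p E (f i) := by
  unfold Ex
  simp_rw [Finset.mul_sum]
  exact Finset.sum_comm

theorem Ex_mul (p : ℝ) (E : Finset β) (c : ℝ) (f : Finset β → ℝ) :
    Ex p E (fun A => c * f A) = c * Ex p E f := by
  unfold Ex
  rw [Finset.mul_sum]
  exact Finset.sum_congr rfl fun A _ => by ring

theorem Ex_empty (p : ℝ) (f : Finset β → ℝ) : Ex p ∅ f = f ∅ := by
  unfold Ex
  simp

theorem Ex_insert (p : ℝ) (E : Finset β) (a : β) (ha : a ∉ E) (f : Finset β → ℝ) :
    Ex p (insert a E) f = p * Ex p E (fun A => f (insert a A)) + (1 - p) * Ex p E f := by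
  unfold Ex
  rw [Finset.sum_powerset_insert ha, Finset.card_insert_of_notMem ha, Finset.mul_sum,
    Finset.mul_sum, add_comm]
  congr 1
  · refine Finset.sum_congr rfl fun A hA => ?_
    rw [Finset.mem_powerset] at hA
    rw [Finset.card_insert_of_notMem (fun h => ha (hA h)), Nat.add_sub_add_right, pow_succ]
    ring
  · refine Finset.sum_congr rfl fun A hA => ?_
    rw [Finset.mem_powerset] at hA
    have h1 := Finset.card_le_card hA
    rw [show E.card + 1 - A.card = (E.card - A.card) + 1 by omega, pow_succ]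
    ring

theorem Ex_union (p : ℝ) (T E : Finset β) (h : Disjoint T E) (f : Finset β → ℝ) :
    Ex p (T ∪ E) f = Ex p T (fun A => Ex p E (fun B => f (A ∪ B))) := by
  induction T using Finset.induction_on generalizing f with
  | empty => rw [Finset.empty_union, Ex_empty]; simp
  | insert a T ha ih =>
    rw [Finset.disjoint_insert_left] at h
    have haE : a ∉ T ∪ E := by
      rw [Finset.mem_union]
      rintro (h' | h')
      · exact ha h'
      · exact h.1 h'
    rw [Finset.insert_union, Ex_insert p _ a haE, Ex_insert p _ a ha, ih h.2, ih h.2]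
    simp_rw [Finset.insert_union]

theorem Ex_image (p : ℝ) (φ : γ → β) (E : Finset γ) (hφ : Set.InjOn φ E) (f : Finset β → ℝ) :
    Ex p (E.image φ) f = Ex p E (fun A => f (A.image φ)) := by
  induction E using Finset.induction_on generalizing f with
  | empty => rw [Finset.image_empty, Ex_empty, Ex_empty, Finset.image_empty]
  | insert a E ha ih =>
    have h1 : φ a ∉ E.image φ := by
      intro h
      obtain ⟨b, hb, hb'⟩ := Finset.mem_image.mp h
      have := hφ (Finset.mem_coe.mpr (Finset.mem_insert_of_mem hb))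
        (Finset.mem_coe.mpr (Finset.mem_insert_self a E)) hb'
      exact ha (this ▸ hb)
    have h2 : Set.InjOn φ E := hφ.mono (by simp)
    rw [Finset.image_insert, Ex_insert p _ _ h1, Ex_insert p _ a ha, ih h2, ih h2]
    simp_rw [Finset.image_insert]

/-- indicator -/
noncomputable def ind (P : Prop) : ℝ := if P then 1 else 0

theorem ind_nonneg (P : Prop) : 0 ≤ ind P := by unfold ind; split_ifs <;> norm_num
theorem ind_le_one (P : Prop) : ind P ≤ 1 := by unfold ind; split_ifs <;> norm_num
theorem ind_true {P : Prop} (h : P) : ind P = 1 := if_pos h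
theorem ind_false {P : Prop} (h : ¬ P) : ind P = 0 := if_neg h
theorem ind_and (P Q : Prop) : ind (P ∧ Q) = ind P * ind Q := by
  unfold ind
  by_cases hP : P <;> by_cases hQ : Q <;> simp [hP, hQ]

theorem Ex_ne (p : ℝ) (T : Finset β) : Ex p T (fun A => ind (¬ T ⊆ A)) = 1 - p ^ T.card := by
  have h1 : Ex p T (fun A => ind (¬ T ⊆ A)) + Ex p T (fun A => ind (A = T)) = 1 := by
    rw [← Ex_add, ← Ex_one p T]
    refine Ex_congr fun A hA => ?_
    by_cases h : A = T
    · subst h
      rw [ind_true rfl, ind_false (not_not.mpr (Finset.Subset.refl A))]; norm_num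
    · rw [ind_false h, ind_true (fun h' => h (Finset.Subset.antisymm hA h'))]; norm_num
  have h2 : Ex p T (fun A => ind (A = T)) = p ^ T.card := by
    unfold Ex
    rw [Finset.sum_eq_single T]
    · simp only [ind_true]; simp
    · intro A _ h
      simp only [ind_false h, mul_zero]
    · intro h
      exact absurd (Finset.mem_powerset.mpr (Finset.Subset.refl T)) h
  linarith

/-- independence of the presence of pairwise disjoint sets -/
theorem Ex_disjoint {ι : Type} (p : ℝ) (k : ℕ) (W : Finset ι) (T : ι → Finset β) :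
    ∀ (E : Finset β), (∀ w ∈ W, T w ⊆ E) → (∀ w ∈ W, (T w).card = k) →
    (∀ w ∈ W, ∀ w' ∈ W, w ≠ w' → Disjoint (T w) (T w')) →
    Ex p E (fun A => ind (∀ w ∈ W, ¬ T w ⊆ A)) = (1 - p ^ k) ^ W.card := by
  induction W using Finset.induction_on with
  | empty =>
    intro E _ _ _
    rw [Finset.card_empty, pow_zero, ← Ex_one p E]
    refine Ex_congr fun A _ => ind_true (by simp)
  | insert w W hw ih =>
    intro E hE hk hd
    have hwE := hE w (Finset.mem_insert_self w W)
    have hsub : ∀ u ∈ W, T u ⊆ E \ T w := by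
      intro u hu
      have h1 := hd u (Finset.mem_insert_of_mem hu) w (Finset.mem_insert_self w W)
        (fun h => hw (h ▸ hu))
      intro y hy
      exact Finset.mem_sdiff.mpr ⟨hE u (Finset.mem_insert_of_mem hu) hy,
        Finset.disjoint_left.mp h1 hy⟩
    have hIH := ih (E \ T w) hsub (fun u hu => hk u (Finset.mem_insert_of_mem hu))
      (fun u hu u' hu' => hd u (Finset.mem_insert_of_mem hu) u' (Finset.mem_insert_of_mem hu'))
    have hE' : E = T w ∪ (E \ T w) := (Finset.union_sdiff_of_subset hwE).symm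
    rw [hE', Ex_union p _ _ Finset.disjoint_sdiff]
    have h2 : Ex p (T w) (fun A => Ex p (E \ T w) (fun B =>
        ind (∀ u ∈ insert w W, ¬ T u ⊆ A ∪ B)))
        = Ex p (T w) (fun A => (1 - p ^ k) ^ W.card * ind (¬ T w ⊆ A)) := by
      refine Ex_congr fun A hA => ?_
      rw [← hIH, mul_comm, ← Ex_mul]
      refine Ex_congr fun B hB => ?_
      rw [← ind_and]
      congr 1
      apply propext
      have e1 : T w ⊆ A ∪ B ↔ T w ⊆ A := by
        constructor
        · intro h y hy
          rcases Finset.mem_union.mp (h hy) with h' | h'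
          · exact h'
          · exact absurd hy (Finset.mem_sdiff.mp (hB h')).2
        · exact fun h => h.trans Finset.subset_union_left
      have e2 : ∀ u ∈ W, (T u ⊆ A ∪ B ↔ T u ⊆ B) := by
        intro u hu
        constructor
        · intro h y hy
          rcases Finset.mem_union.mp (h hy) with h' | h'
          · exact absurd (hA h') (Finset.mem_sdiff.mp (hsub u hu hy)).2
          · exact h'
        · exact fun h => h.trans Finset.subset_union_right
      rw [Finset.forall_mem_insert, e1]
      exact and_congr_right fun _ => forall₂_congr fun u hu => not_congr (e2 u hu)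
    rw [h2, Ex_mul, Ex_ne, hk w (Finset.mem_insert_self w W), Finset.card_insert_of_notMem hw,
      pow_succ]

/-! ### The probability that a random complex is not shellable -/

variable {α : Type}

/-- probability of no shelling, ground set `S`, facet size `d` -/
noncomputable def bad (p : ℝ) (d : ℕ) (S : Finset α) : ℝ :=
  Ex p (S.powersetCard d) (fun A => ind (¬ Sh d A))

theorem bad_one (p : ℝ) (S : Finset α) : bad p 1 S = 0 := by
  unfold bad
  rw [← Ex_const p (S.powersetCard 1) 0]
  refine Ex_congr fun A hA => ind_false (not_not.mpr (sh_one A fun F hF => ?_))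
  exact (Finset.mem_powersetCard.mp (hA hF)).2

theorem step1 (p : ℝ) (d : ℕ) (S : Finset α) (x : α) (hx : x ∈ S) :
    Ex p (S.powersetCard (d + 1)) (fun A => ind (¬ Sh d (link d S x A))) = bad p d (S.erase x) := by
  have hinj : ∀ E : Finset (Finset α), E ⊆ (S.erase x).powersetCard d →
      Set.InjOn (insert x : Finset α → Finset α) E := by
    intro E hE F hF G hG h
    have hF' := (Finset.mem_powersetCard.mp (hE hF)).1
    have hG' := (Finset.mem_powersetCard.mp (hE hG)).1
    have h1 : x ∉ F := fun h => Finset.notMem_erase x S (hF' h)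
    have h2 : x ∉ G := fun h => Finset.notMem_erase x S (hG' h)
    rw [← Finset.erase_insert h1, h, Finset.erase_insert h2]
  have hsplit : S.powersetCard (d + 1) = ((S.erase x).powersetCard d).image (insert x)
      ∪ (S.erase x).powersetCard (d + 1) := by
    ext F
    rw [Finset.mem_union, Finset.mem_image, Finset.mem_powersetCard, Finset.mem_powersetCard]
    constructor
    · rintro ⟨h1, h2⟩
      by_cases hxF : x ∈ F
      · left
        refine ⟨F.erase x, ?_, Finset.insert_erase hxF⟩
        rw [Finset.mem_powersetCard, Finset.card_erase_of_mem hxF, h2]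
        exact ⟨Finset.erase_subset_erase _ h1, rfl⟩
      · right
        exact ⟨Finset.subset_erase.mpr ⟨h1, hxF⟩, h2⟩
    · rintro (⟨G, hG, rfl⟩ | ⟨h1, h2⟩)
      · rw [Finset.mem_powersetCard] at hG
        have h1 : x ∉ G := fun h => Finset.notMem_erase x S (hG.1 h)
        rw [Finset.card_insert_of_notMem h1, hG.2]
        exact ⟨Finset.insert_subset_iff.mpr ⟨hx, hG.1.trans (Finset.erase_subset _ _)⟩, rfl⟩
      · exact ⟨h1.trans (Finset.erase_subset _ _), h2⟩
  have hdisj : Disjoint (((S.erase x).powersetCard d).image (insert x))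
      ((S.erase x).powersetCard (d + 1)) := by
    rw [Finset.disjoint_left]
    intro F hF hF'
    obtain ⟨G, _, rfl⟩ := Finset.mem_image.mp hF
    exact Finset.notMem_erase x S ((Finset.mem_powersetCard.mp hF').1 (Finset.mem_insert_self x G))
  rw [hsplit, Ex_union p _ _ hdisj, Ex_image p _ _ (hinj _ (Finset.Subset.refl _))]
  unfold bad
  refine Ex_congr fun A hA => ?_
  rw [← Ex_const p ((S.erase x).powersetCard (d + 1)) (ind (¬ Sh d A))]
  refine Ex_congr fun B hB => ?_
  have : link d S x (A.image (insert x) ∪ B) = A := by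
    ext G
    unfold link
    rw [Finset.mem_filter, Finset.mem_union, Finset.mem_image]
    constructor
    · rintro ⟨h1, ⟨G', hG', h2⟩ | h2⟩
      · have h3 := Finset.mem_powersetCard.mp h1
        have h4 := Finset.mem_powersetCard.mp (hA hG')
        have h5 : x ∉ G := fun h => Finset.notMem_erase x S (h3.1 h)
        have h6 : x ∉ G' := fun h => Finset.notMem_erase x S (h4.1 h)
        have : G' = G := by rw [← Finset.erase_insert h6, h2, Finset.erase_insert h5]
        exact this ▸ hG'
      · have h3 := (Finset.mem_powersetCard.mp (hB h2)).1 (Finset.mem_insert_self x G)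
        exact absurd h3 (Finset.notMem_erase x S)
    · intro h
      exact ⟨hA h, Or.inl ⟨G, h, rfl⟩⟩
  rw [this]

theorem step2 (p : ℝ) (d : ℕ) (hd : 1 ≤ d) (S : Finset α) (x : α) (hx : x ∈ S) (H : Finset α)
    (hH : H ∈ (S.erase x).powersetCard (d - 1)) :
    Ex p (S.powersetCard (d + 1)) (fun A => ind (∀ w ∈ (S.erase x) \ H,
      ¬ ({insert x (insert w H)} : Finset (Finset α)) ⊆ A)) = (1 - p ^ 1) ^ (S.card - d) := by
  rw [Finset.mem_powersetCard] at hH
  have hxH : x ∉ H := fun h => Finset.notMem_erase x S (hH.1 h)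
  rw [Ex_disjoint p 1]
  · rw [Finset.card_sdiff_of_subset hH.1, Finset.card_erase_of_mem hx, hH.2]
    congr 1
    omega
  · intro w hw
    rw [Finset.mem_sdiff, Finset.mem_erase] at hw
    rw [Finset.singleton_subset_iff, Finset.mem_powersetCard]
    refine ⟨Finset.insert_subset_iff.mpr ⟨hx, Finset.insert_subset_iff.mpr ⟨hw.1.2,
      hH.1.trans (Finset.erase_subset _ _)⟩⟩, ?_⟩
    rw [Finset.card_insert_of_notMem, Finset.card_insert_of_notMem hw.2, hH.2]
    · omega
    · rw [Finset.mem_insert]
      rintro (h | h)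
      · exact hw.1.1 h.symm
      · exact hxH h
  · intro w _
    exact Finset.card_singleton _
  · intro w hw w' hw' hne
    rw [Finset.disjoint_singleton]
    intro h
    rw [Finset.mem_sdiff, Finset.mem_erase] at hw hw'
    have h1 : w ∈ insert x (insert w' H) := by
      rw [← h]
      exact Finset.mem_insert_of_mem (Finset.mem_insert_self w H)
    rcases Finset.mem_insert.mp h1 with h2 | h2
    · exact hw.1.1 h2
    · rcases Finset.mem_insert.mp h2 with h3 | h3
      · exact hne h3
      · exact hw.2 h3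

/-- the sets needed for `G` and `v` -/
noncomputable def need (x : α) (G : Finset α) (v : α) : Finset (Finset α) :=
  insert (insert v G) (G.image (fun g => insert x (insert v (G.erase g))))

theorem step3 (p : ℝ) (d : ℕ) (S : Finset α) (x : α) (hx : x ∈ S) (G : Finset α)
    (hG : G ∈ (S.erase x).powersetCard d) :
    Ex p (S.powersetCard (d + 1)) (fun A => ind (∀ v ∈ (S.erase x) \ G, ¬ need x G v ⊆ A))
      = (1 - p ^ (d + 1)) ^ (S.card - 1 - d) := by
  rw [Finset.mem_powersetCard] at hG
  have hxG : x ∉ G := fun h => Finset.notMem_erase x S (hG.1 h)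
  rw [Ex_disjoint p (d + 1)]
  · rw [Finset.card_sdiff_of_subset hG.1, Finset.card_erase_of_mem hx, hG.2]
  · intro v hv
    rw [Finset.mem_sdiff, Finset.mem_erase] at hv
    intro F hF
    unfold need at hF
    rw [Finset.mem_powersetCard]
    rcases Finset.mem_insert.mp hF with rfl | hF
    · refine ⟨Finset.insert_subset_iff.mpr ⟨hv.1.2, hG.1.trans (Finset.erase_subset _ _)⟩, ?_⟩
      rw [Finset.card_insert_of_notMem hv.2, hG.2]
    · obtain ⟨g, hg, rfl⟩ := Finset.mem_image.mp hF
      refine ⟨Finset.insert_subset_iff.mpr ⟨hx, Finset.insert_subset_iff.mpr ⟨hv.1.2,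
        (Finset.erase_subset _ _).trans (hG.1.trans (Finset.erase_subset _ _))⟩⟩, ?_⟩
      rw [Finset.card_insert_of_notMem, Finset.card_insert_of_notMem, Finset.card_erase_of_mem hg,
        hG.2]
      · have : 0 < G.card := Finset.card_pos.mpr ⟨g, hg⟩
        omega
      · exact fun h => hv.2 (Finset.mem_erase.mp h).2
      · rw [Finset.mem_insert]
        rintro (h | h)
        · exact hv.1.1 h.symm
        · exact hxG (Finset.mem_erase.mp h).2
  · intro v hv
    rw [Finset.mem_sdiff, Finset.mem_erase] at hv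
    unfold need
    rw [Finset.card_insert_of_notMem, Finset.card_image_of_injOn, hG.2]
    · intro g hg g' hg' h
      by_contra hne
      have h1 : g ∈ insert x (insert v (G.erase g')) :=
        Finset.mem_insert_of_mem (Finset.mem_insert_of_mem (Finset.mem_erase.mpr ⟨hne, hg⟩))
      have h2 : g ∈ insert x (insert v (G.erase g)) := by
        have h' : insert x (insert v (G.erase g)) = insert x (insert v (G.erase g')) := h
        rw [h']; exact h1
      rcases Finset.mem_insert.mp h2 with h3 | h3
      · exact hxG (h3 ▸ hg)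
      · rcases Finset.mem_insert.mp h3 with h4 | h4
        · exact hv.2 (h4 ▸ hg)
        · exact (Finset.mem_erase.mp h4).1 rfl
    · intro h
      obtain ⟨g, _, h1⟩ := Finset.mem_image.mp h
      have h2 : x ∈ insert v G := by
        rw [← h1]; exact Finset.mem_insert_self _ _
      rcases Finset.mem_insert.mp h2 with h3 | h3
      · exact hv.1.1 h3.symm
      · exact hxG h3
  · intro v hv v' hv' hne
    rw [Finset.mem_sdiff, Finset.mem_erase] at hv hv'
    have key : ∀ F ∈ need x G v, ∀ u, u ∉ G → u ≠ x → (u ∈ F ↔ u = v) := by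
      intro F hF u hu hux
      unfold need at hF
      rcases Finset.mem_insert.mp hF with rfl | hF
      · rw [Finset.mem_insert]
        exact ⟨fun h => h.resolve_right hu, Or.inl⟩
      · obtain ⟨g, hg, rfl⟩ := Finset.mem_image.mp hF
        rw [Finset.mem_insert, Finset.mem_insert, Finset.mem_erase]
        constructor
        · rintro (h | h | h)
          · exact absurd h hux
          · exact h
          · exact absurd h.2 hu
        · exact fun h => Or.inr (Or.inl h)
    have key' : ∀ F ∈ need x G v', v' ∈ F := by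
      intro F hF
      unfold need at hF
      rcases Finset.mem_insert.mp hF with rfl | hF
      · exact Finset.mem_insert_self _ _
      · obtain ⟨g, hg, rfl⟩ := Finset.mem_image.mp hF
        exact Finset.mem_insert_of_mem (Finset.mem_insert_self _ _)
    rw [Finset.disjoint_left]
    intro F hF hF'
    exact hne ((key F hF v' hv'.2 hv'.1.1).mp (key' F hF')).symm

theorem bad_succ {p : ℝ} (h0 : 0 ≤ p) (h1 : p ≤ 1) (d : ℕ) (hd : 1 ≤ d) (S : Finset α) (x : α)
    (hx : x ∈ S) : bad p (d + 1) S ≤ bad p d (S.erase x)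
      + (S.card : ℝ) ^ d * (1 - p ^ 1) ^ (S.card - d)
      + (S.card : ℝ) ^ d * (1 - p ^ (d + 1)) ^ (S.card - 1 - d) := by
  have hq1 : 0 ≤ 1 - p ^ 1 := by rw [pow_one]; linarith
  have hq2 : 0 ≤ 1 - p ^ (d + 1) := by
    have := pow_le_one₀ (n := d + 1) h0 h1
    linarith
  have hmain : bad p (d + 1) S ≤ Ex p (S.powersetCard (d + 1)) (fun A =>
      (ind (¬ Sh d (link d S x A)) + ∑ H ∈ (S.erase x).powersetCard (d - 1),
        ind (∀ w ∈ (S.erase x) \ H, ¬ ({insert x (insert w H)} : Finset (Finset α)) ⊆ A))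
      + ∑ G ∈ (S.erase x).powersetCard d, ind (∀ v ∈ (S.erase x) \ G, ¬ need x G v ⊆ A)) := by
    unfold bad
    refine Ex_mono h0 h1 fun A hA => ?_
    have hs1 : 0 ≤ ∑ H ∈ (S.erase x).powersetCard (d - 1),
        ind (∀ w ∈ (S.erase x) \ H, ¬ ({insert x (insert w H)} : Finset (Finset α)) ⊆ A) :=
      Finset.sum_nonneg fun _ _ => ind_nonneg _
    have hs2 : 0 ≤ ∑ G ∈ (S.erase x).powersetCard d,
        ind (∀ v ∈ (S.erase x) \ G, ¬ need x G v ⊆ A) := Finset.sum_nonneg fun _ _ => ind_nonneg _
    by_cases ha : Sh d (link d S x A)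
    · by_cases hb : ∀ H ∈ (S.erase x).powersetCard (d - 1), ∃ w ∈ (S.erase x) \ H,
          insert x (insert w H) ∈ A
      · by_cases hc : ∀ G ∈ (S.erase x).powersetCard d, ∃ v ∈ (S.erase x) \ G,
            insert v G ∈ A ∧ ∀ g ∈ G, insert x (insert v (G.erase g)) ∈ A
        · have := sh_of d hd S x A hA ha hb hc
          rw [ind_false (not_not.mpr this)]
          have := ind_nonneg (¬ Sh d (link d S x A))
          linarith
        · push Not at hc
          obtain ⟨G, hG, hG2⟩ := hc
          have h2 : ind (∀ v ∈ (S.erase x) \ G, ¬ need x G v ⊆ A) = 1 := by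
            apply ind_true
            intro v hv hsub
            obtain ⟨g, hg, hg2⟩ := hG2 v hv (hsub (Finset.mem_insert_self _ _))
            exact hg2 (hsub (Finset.mem_insert_of_mem (Finset.mem_image_of_mem _ hg)))
          have h3 := Finset.single_le_sum (f := fun G => ind (∀ v ∈ (S.erase x) \ G, ¬ need x G v ⊆ A))
            (fun _ _ => ind_nonneg _) hG
          have h4 := ind_le_one (¬ Sh (d + 1) A)
          have h5 := ind_nonneg (¬ Sh d (link d S x A))
          simp only [h2] at h3
          linarith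
      · push Not at hb
        obtain ⟨H, hH, hH2⟩ := hb
        have h2 : ind (∀ w ∈ (S.erase x) \ H,
            ¬ ({insert x (insert w H)} : Finset (Finset α)) ⊆ A) = 1 := by
          apply ind_true
          intro w hw hsub
          exact hH2 w hw (Finset.singleton_subset_iff.mp hsub)
        have h3 := Finset.single_le_sum (f := fun H => ind (∀ w ∈ (S.erase x) \ H,
            ¬ ({insert x (insert w H)} : Finset (Finset α)) ⊆ A))
          (fun _ _ => ind_nonneg _) hH
        have h4 := ind_le_one (¬ Sh (d + 1) A)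
        have h5 := ind_nonneg (¬ Sh d (link d S x A))
        simp only [h2] at h3
        linarith
    · rw [ind_true ha]
      have h4 := ind_le_one (¬ Sh (d + 1) A)
      linarith
  refine hmain.trans ?_
  rw [Ex_add, Ex_add, Ex_sum, Ex_sum, step1 p d S x hx,
    Finset.sum_congr rfl (fun H hH => step2 p d hd S x hx H hH),
    Finset.sum_congr rfl (fun G hG => step3 p d S x hx G hG), Finset.sum_const, Finset.sum_const,
    nsmul_eq_mul, nsmul_eq_mul, Finset.card_powersetCard, Finset.card_powersetCard,
    Finset.card_erase_of_mem hx]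
  have hpos : 1 ≤ S.card := Finset.card_pos.mpr ⟨x, hx⟩
  have hc1 : (((S.card - 1).choose (d - 1) : ℕ) : ℝ) ≤ (S.card : ℝ) ^ d := by
    have h2 : (S.card - 1).choose (d - 1) ≤ S.card ^ d := by
      calc (S.card - 1).choose (d - 1) ≤ (S.card - 1) ^ (d - 1) := Nat.choose_le_pow _ _
        _ ≤ S.card ^ (d - 1) := Nat.pow_le_pow_left (by omega) _
        _ ≤ S.card ^ d := Nat.pow_le_pow_right hpos (by omega)
    exact_mod_cast h2
  have hc2 : (((S.card - 1).choose d : ℕ) : ℝ) ≤ (S.card : ℝ) ^ d := by
    have h2 : (S.card - 1).choose d ≤ S.card ^ d := by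
      calc (S.card - 1).choose d ≤ (S.card - 1) ^ d := Nat.choose_le_pow _ _
        _ ≤ S.card ^ d := Nat.pow_le_pow_left (by omega) _
    exact_mod_cast h2
  have e1 := mul_le_mul_of_nonneg_right hc1 (pow_nonneg hq1 (S.card - d))
  have e2 := mul_le_mul_of_nonneg_right hc2 (pow_nonneg hq2 (S.card - 1 - d))
  linarith

/-- bound for the probability -/
noncomputable def bd (p : ℝ) : ℕ → ℕ → ℝ
  | 0, _ => 0
  | 1, _ => 0
  | d + 2, n => bd p (d + 1) (n - 1) + (n : ℝ) ^ (d + 1) * (1 - p ^ 1) ^ (n - (d + 1))
      + (n : ℝ) ^ (d + 1) * (1 - p ^ (d + 2)) ^ (n - 1 - (d + 1))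

theorem bad_le {p : ℝ} (h0 : 0 ≤ p) (h1 : p ≤ 1) (d : ℕ) : ∀ S : Finset α, d + 1 ≤ S.card →
    bad p (d + 1) S ≤ bd p (d + 1) S.card := by
  induction d with
  | zero =>
    intro S _
    rw [zero_add, bad_one]
    exact le_rfl
  | succ d ih =>
    intro S hS
    obtain ⟨x, hx⟩ : S.Nonempty := Finset.card_pos.mp (by omega)
    have h2 := bad_succ h0 h1 (d + 1) (by omega) S x hx
    have h3 := ih (S.erase x) (by rw [Finset.card_erase_of_mem hx]; omega)
    rw [Finset.card_erase_of_mem hx] at h3
    show bad p (d + 1 + 1) S ≤ bd p (d + 1) (S.card - 1)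
      + (S.card : ℝ) ^ (d + 1) * (1 - p ^ 1) ^ (S.card - (d + 1))
      + (S.card : ℝ) ^ (d + 1) * (1 - p ^ (d + 2)) ^ (S.card - 1 - (d + 1))
    linarith

open Filter Topology

theorem tendsto_aux (k c : ℕ) (r : ℝ) (h0 : 0 < r) (h1 : r < 1) :
    Tendsto (fun n : ℕ => (n : ℝ) ^ k * r ^ (n - c)) atTop (𝓝 0) := by
  have h2 := tendsto_pow_const_mul_const_pow_of_abs_lt_one k (r := r) (by rw [abs_of_pos h0]; exact h1)
  have h3 : Tendsto (fun n : ℕ => ((n : ℝ) ^ k * r ^ n) * (r ^ c)⁻¹) atTop (𝓝 0) := by
    have := h2.mul_const ((r ^ c)⁻¹)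
    rwa [zero_mul] at this
  refine h3.congr' ?_
  filter_upwards [eventually_ge_atTop c] with n hn
  rw [pow_sub₀ r h0.ne' hn]
  ring

theorem tendsto_bd {p : ℝ} (h0 : 0 < p) (h1 : p < 1) (d : ℕ) :
    Tendsto (bd p (d + 1)) atTop (𝓝 0) := by
  induction d with
  | zero => exact tendsto_const_nhds
  | succ d ih =>
    have e1 : Tendsto (fun n : ℕ => bd p (d + 1) (n - 1)) atTop (𝓝 0) :=
      ih.comp (tendsto_sub_atTop_nat 1)
    have e2 := tendsto_aux (d + 1) (d + 1) (1 - p ^ 1) (by rw [pow_one]; linarith)
      (by rw [pow_one]; linarith)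
    have hp : p ^ (d + 2) < 1 := pow_lt_one₀ h0.le h1 (by omega)
    have hp' : 0 < p ^ (d + 2) := pow_pos h0 _
    have e3 := tendsto_aux (d + 1) (1 + (d + 1)) (1 - p ^ (d + 2)) (by linarith) (by linarith)
    have h2 := (e1.add e2).add e3
    rw [add_zero, add_zero] at h2
    refine h2.congr fun n => ?_
    show _ = bd p (d + 1) (n - 1) + (n : ℝ) ^ (d + 1) * (1 - p ^ 1) ^ (n - (d + 1))
      + (n : ℝ) ^ (d + 1) * (1 - p ^ (d + 2)) ^ (n - 1 - (d + 1))
    rw [Nat.sub_sub]

end Pool.Agent.Q225.Shell
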