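import Mathlib

/-! Shellability of pure complexes given by their facets. -/

set_option autoImplicit false

namespace Pool.Agent.Q225.Shell

open Finset Classical

/-- the simplicial complex generated by a family of finite sets -/
def gen {α : Type} (A : Finset (Finset α)) : Set (Finset α) := {s | ∃ F ∈ A, s ⊆ F}

/-- all maximal faces of `C` have exactly `k` elements -/
def PureOf {α : Type} (C : Set (Finset α)) (k : ℕ) : Prop :=
  ∀ s ∈ C, (∀ t ∈ C, s ⊆ t → s = t) → s.card = k

/-- a shelling order `F_0, F_1, ...` of facets of size `d`: for each `j ≥ 1` the intersection of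
the complex generated by `F_j` with the complex generated by the earlier facets is pure with
facets of size `d - 1` -/
def IsShelling {α : Type} (d : ℕ) (l : List (Finset α)) : Prop :=
  l.Nodup ∧ ∀ (j : ℕ) (hj : j < l.length), 1 ≤ j →
    PureOf (gen {l[j]} ∩ gen (l.take j).toFinset) (d - 1)

/-- the complex whose set of facets is the family `A` of sets of size `d` is shellable -/
def Shellable {α : Type} (d : ℕ) (A : Finset (Finset α)) : Prop :=
  ∃ l : List (Finset α), IsShelling d l ∧ l.toFinset = A

end Pool.Agent.Q225.Shell
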