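import Mathlib

set_option autoImplicit false

namespace Pool.Agent.Q225.Sig

open Finset Classical

variable {V : Type} [Fintype V]

/-- real indicator -/
noncomputable def ind (p : Prop) : ℝ := if p then 1 else 0

theorem ind_true {p : Prop} (h : p) : ind p = 1 := if_pos h
theorem ind_false {p : Prop} (h : ¬ p) : ind p = 0 := if_neg h

theorem ind_nonneg (p : Prop) : 0 ≤ ind p := by unfold ind; split_ifs <;> norm_num
theorem ind_le_one (p : Prop) : ind p ≤ 1 := by unfold ind; split_ifs <;> norm_num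

theorem ind_or {p q : Prop} (h : ¬ (p ∧ q)) : ind (p ∨ q) = ind p + ind q := by
  unfold ind
  by_cases hp : p <;> by_cases hq : q <;> simp_all

theorem ind_mul (p q : Prop) : ind p * ind q = ind (p ∧ q) := by
  unfold ind
  by_cases hp : p <;> by_cases hq : q <;> simp_all

/-- a function on pairs is realised by points of some `ℓ₁^m` -/
def IsL1 (d : V → V → ℝ) : Prop :=
  ∃ (m : ℕ) (X : V → Fin m → ℝ), ∀ x y, d x y = ∑ k, |X x k - X y k|

theorem isL1_of_fintype {K : Type} [Fintype K] (X : V → K → ℝ) (d : V → V → ℝ)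
    (hd : ∀ x y, d x y = ∑ k, |X x k - X y k|) : IsL1 d := by
  refine ⟨Fintype.card K, fun x k => X x ((Fintype.equivFin K).symm k), fun x y => ?_⟩
  rw [hd]
  exact (Equiv.sum_comp (Fintype.equivFin K).symm (fun k => |X x k - X y k|)).symm

theorem isL1_add {d e : V → V → ℝ} (hd : IsL1 d) (he : IsL1 e) :
    IsL1 (fun x y => d x y + e x y) := by
  obtain ⟨m, X, hX⟩ := hd
  obtain ⟨m', X', hX'⟩ := he
  refine isL1_of_fintype (K := Fin m ⊕ Fin m') (fun x => Sum.elim (X x) (X' x)) _ fun x y => ?_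
  rw [Fintype.sum_sum_type, hX, hX']
  simp

/-- weighted sum of cut semimetrics -/
theorem isL1_cuts {K : Type} [Fintype K] (w : K → ℝ) (hw : ∀ k, 0 ≤ w k) (S : K → V → Prop) :
    IsL1 (fun x y => ∑ k, w k * (ind (S k x) + ind (S k y) - 2 * (ind (S k x) * ind (S k y)))) := by
  refine isL1_of_fintype (fun x k => w k * ind (S k x)) _ fun x y => ?_
  refine Finset.sum_congr rfl fun k _ => ?_
  rw [← mul_sub, abs_mul, abs_of_nonneg (hw k)]
  congr 1
  unfold ind
  by_cases h1 : S k x <;> by_cases h2 : S k y <;> simp [h1, h2] <;> norm_num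

theorem sum_ind_eq (f : V → ℝ) (a : V) : ∑ c, f c * ind (a = c) = f a := by
  unfold ind
  simp

theorem sum_ind_eq' (f : V → ℝ) (a : V) : ∑ c, f c * ind (c = a) = f a := by
  unfold ind
  simp

/-- combinatorial data: a maximal matching `π` (an involution, fixed points unmatched), a
projection `φ` of the unmatched vertices to neighbouring matched ones, and a rank `ρ` of the
pairs of the matching. -/
structure Data (G : SimpleGraph V) where
  π : V → V
  φ : V → V
  ρ : V → ℕ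
  invol : ∀ v, π (π v) = v
  adj : ∀ v, π v ≠ v → G.Adj v (π v)
  indep : ∀ u v, π u = u → π v = v → ¬ G.Adj u v
  phi_core : ∀ v, π v ≠ v → φ v = v
  phi_mem : ∀ v, π (φ v) ≠ φ v
  phi_adj : ∀ v, π v = v → G.Adj v (φ v)
  rho_iff : ∀ v w, π v ≠ v → π w ≠ w → (ρ v = ρ w ↔ (w = v ∨ w = π v))
  rho_min : ∀ u v, π u = u → π v ≠ v → G.Adj u v → ρ (φ u) ≤ ρ v

namespace Data

variable {G : SimpleGraph V} (D : Data G)

/-- matched vertices -/
def core (v : V) : Prop := D.π v ≠ v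

/-- the base -/
noncomputable def B (_ : Data G) : ℝ := 5 * Fintype.card V

noncomputable def δ (v : V) : ℝ := D.B ^ (D.ρ v + 1)

/-- overlap numbers -/
noncomputable def κ (u v : V) : ℝ :=
  if D.core v ∧ ¬ D.core u ∧ G.Adj u v ∧ v ≠ D.φ u then
    (if D.ρ v = D.ρ (D.φ u) then 0 else D.δ (D.φ u) / 2) + 1 else 0

/-- edges between different pairs of the matching -/
def F (v w : V) : Prop := D.core v ∧ D.core w ∧ G.Adj v w ∧ w ≠ D.π v

noncomputable def T (a : V) : ℝ := ∑ u, D.κ u a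
noncomputable def K (x : V) : ℝ := ∑ v, D.κ x v
noncomputable def deg (a : V) : ℝ := ∑ w, ind (D.F a w)
noncomputable def R : ℝ := ∑ u, D.K u + ∑ v, D.δ v
noncomputable def Rx (x : V) : ℝ := if D.core x then 0 else D.R

theorem one_le_B [Nonempty V] : 5 ≤ D.B := by
  unfold B
  have : (1 : ℝ) ≤ Fintype.card V := by exact_mod_cast Fintype.card_pos
  linarith

theorem δ_pos [Nonempty V] (v : V) : 0 < D.δ v := by
  have := D.one_le_B
  unfold δ
  positivity

theorem δ_ge [Nonempty V] (v : V) : 5 ≤ D.δ v := by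
  have h := D.one_le_B
  unfold δ
  calc (5:ℝ) ≤ D.B := h
    _ = D.B ^ 1 := (pow_one _).symm
    _ ≤ D.B ^ (D.ρ v + 1) := pow_le_pow_right₀ (by linarith) (by omega)

theorem κ_nonneg [Nonempty V] (u v : V) : 0 ≤ D.κ u v := by
  unfold κ
  have := D.δ_pos (D.φ u)
  split_ifs <;> linarith

theorem κ_core (u v : V) (h : D.core u) : D.κ u v = 0 := by
  unfold κ
  rw [if_neg]
  rintro ⟨_, h', _⟩
  exact h' h

theorem κ_phi (u : V) : D.κ u (D.φ u) = 0 := by
  unfold κ
  rw [if_neg]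
  rintro ⟨_, _, _, h⟩
  exact h rfl

theorem core_pi (v : V) (h : D.core v) : D.core (D.π v) := by
  intro h'
  rw [D.invol] at h'
  exact h h'.symm

theorem core_phi (v : V) : D.core (D.φ v) := D.phi_mem v

theorem rho_pi (v : V) (h : D.core v) : D.ρ (D.π v) = D.ρ v :=
  ((D.rho_iff v (D.π v) h (D.core_pi v h)).mpr (Or.inr rfl)).symm

theorem δ_pi (v : V) (h : D.core v) : D.δ (D.π v) = D.δ v := by
  unfold δ; rw [D.rho_pi v h]

theorem F_symm (v w : V) : D.F v w ↔ D.F w v := by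
  have key : ∀ v w, D.F v w → D.F w v := by
    rintro v w ⟨h1, h2, h3, h4⟩
    refine ⟨h2, h1, h3.symm, fun h => h4 ?_⟩
    rw [h, D.invol]
  exact ⟨key v w, key w v⟩

theorem F_ne (v w : V) (h : D.F v w) : v ≠ w := h.2.2.1.ne

theorem κ_le [Nonempty V] (u a : V) : D.κ u a ≤ D.B ^ (D.ρ a) / 2 + 1 := by
  have h := D.one_le_B
  have hp : 0 < D.B ^ (D.ρ a) := by positivity
  unfold κ
  split_ifs with h1 h2
  · linarith
  · have hle := D.rho_min u a (not_not.mp h1.2.1) h1.1 h1.2.2.1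
    have hlt : D.ρ (D.φ u) + 1 ≤ D.ρ a := by omega
    have : D.δ (D.φ u) ≤ D.B ^ (D.ρ a) := pow_le_pow_right₀ (by linarith) hlt
    linarith
  · linarith

theorem rest_nonneg [Nonempty V] (a : V) : 0 ≤ D.δ a / 2 - D.T a - D.deg a := by
  have h := D.one_le_B
  have hp : (1:ℝ) ≤ D.B ^ (D.ρ a) := one_le_pow₀ (by linarith)
  have hT : D.T a ≤ Fintype.card V * (D.B ^ (D.ρ a) / 2 + 1) := by
    unfold T
    calc ∑ u, D.κ u a ≤ ∑ _u : V, (D.B ^ (D.ρ a) / 2 + 1) := Finset.sum_le_sum fun u _ => D.κ_le u a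
      _ = _ := by rw [Finset.sum_const, Finset.card_univ, nsmul_eq_mul]
  have hdeg : D.deg a ≤ Fintype.card V := by
    unfold deg
    calc ∑ w, ind (D.F a w) ≤ ∑ _w : V, (1:ℝ) := Finset.sum_le_sum fun u _ => ind_le_one _
      _ = _ := by simp
  have hδ : D.δ a = D.B ^ (D.ρ a) * (5 * Fintype.card V) := by
    unfold δ
    rw [pow_succ]; rfl
  have hc : (0:ℝ) ≤ Fintype.card V := by positivity
  rw [hδ]
  nlinarith

theorem arm_nonneg [Nonempty V] (x : V) : 0 ≤ D.R - D.K x := by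
  unfold R
  have h1 : D.K x ≤ ∑ u, D.K u := Finset.single_le_sum (f := D.K)
    (fun u _ => Finset.sum_nonneg fun v _ => D.κ_nonneg u v) (Finset.mem_univ x)
  have h2 : 0 ≤ ∑ v, D.δ v := Finset.sum_nonneg fun v _ => (D.δ_pos v).le
  linarith

theorem δ_le_R [Nonempty V] (x : V) : D.δ x ≤ D.R := by
  unfold R
  have h1 : D.δ x ≤ ∑ v, D.δ v := Finset.single_le_sum (f := D.δ)
    (fun u _ => (D.δ_pos u).le) (Finset.mem_univ x)
  have h2 : 0 ≤ ∑ u, D.K u := Finset.sum_nonneg fun u _ => Finset.sum_nonneg fun v _ => D.κ_nonneg u v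
  linarith

/-- the five families of cuts -/
noncomputable def dist (x y : V) : ℝ :=
  (∑ c, (D.δ c / 4) * (ind (D.φ x = c ∨ D.φ x = D.π c) + ind (D.φ y = c ∨ D.φ y = D.π c)
      - 2 * (ind (D.φ x = c ∨ D.φ x = D.π c) * ind (D.φ y = c ∨ D.φ y = D.π c))))
  + (∑ c, (D.δ c / 2 - D.T c - D.deg c) * (ind (D.φ x = c) + ind (D.φ y = c)
      - 2 * (ind (D.φ x = c) * ind (D.φ y = c))))
  + (∑ p : V × V, (ind (D.F p.1 p.2) / 2) * (ind (D.φ x = p.1 ∨ D.φ x = p.2)
      + ind (D.φ y = p.1 ∨ D.φ y = p.2)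
      - 2 * (ind (D.φ x = p.1 ∨ D.φ x = p.2) * ind (D.φ y = p.1 ∨ D.φ y = p.2))))
  + (∑ p : V × V, (D.κ p.1 p.2) * (ind (D.φ x = p.2 ∨ x = p.1)
      + ind (D.φ y = p.2 ∨ y = p.1)
      - 2 * (ind (D.φ x = p.2 ∨ x = p.1) * ind (D.φ y = p.2 ∨ y = p.1))))
  + (∑ u, (D.Rx u - D.K u) * (ind (x = u) + ind (y = u) - 2 * (ind (x = u) * ind (y = u))))

theorem K_core [Nonempty V] (x : V) (h : D.core x) : D.K x = 0 := by
  unfold K
  exact Finset.sum_eq_zero fun v _ => D.κ_core x v h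

theorem isL1_dist [Nonempty V] : IsL1 D.dist := by
  unfold dist
  refine isL1_add (isL1_add (isL1_add (isL1_add ?_ ?_) ?_) ?_) ?_
  · exact isL1_cuts (fun c => D.δ c / 4) (fun c => by have := D.δ_pos c; positivity)
      (fun c x => D.φ x = c ∨ D.φ x = D.π c)
  · exact isL1_cuts (fun c => D.δ c / 2 - D.T c - D.deg c) D.rest_nonneg
      (fun c x => D.φ x = c)
  · exact isL1_cuts (fun p : V × V => ind (D.F p.1 p.2) / 2)
      (fun p => by have := ind_nonneg (D.F p.1 p.2); positivity)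
      (fun p x => D.φ x = p.1 ∨ D.φ x = p.2)
  · exact isL1_cuts (fun p : V × V => D.κ p.1 p.2) (fun p => D.κ_nonneg _ _)
      (fun p x => D.φ x = p.2 ∨ x = p.1)
  · refine isL1_cuts (fun u => D.Rx u - D.K u) (fun u => ?_) (fun u x => x = u)
    unfold Rx
    split_ifs with h
    · rw [D.K_core u h]; simp
    · exact D.arm_nonneg u

/-- first family -/
theorem famQ (x y : V) :
    (∑ c, (D.δ c / 4) * (ind (D.φ x = c ∨ D.φ x = D.π c) + ind (D.φ y = c ∨ D.φ y = D.π c)
      - 2 * (ind (D.φ x = c ∨ D.φ x = D.π c) * ind (D.φ y = c ∨ D.φ y = D.π c))))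
    = D.δ (D.φ x) / 2 + D.δ (D.φ y) / 2 - D.δ (D.φ x) * ind (D.φ y = D.φ x ∨ D.φ y = D.π (D.φ x)) := by
  have h0 : ∀ z c, ind (D.φ z = c ∨ D.φ z = D.π c) = ind (D.φ z = c) + ind (D.π (D.φ z) = c) := by
    intro z c
    rw [ind_or]
    · congr 2
      apply propext
      constructor
      · intro h; rw [h, D.invol]
      · intro h; rw [← h, D.invol]
    · rintro ⟨h1, h2⟩
      rw [← h1] at h2
      exact D.phi_mem z h2.symm
  have hN : ∀ z, ∑ c, (D.δ c / 4) * ind (D.φ z = c ∨ D.φ z = D.π c) = D.δ (D.φ z) / 2 := by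
    intro z
    simp_rw [h0, mul_add, Finset.sum_add_distrib]
    rw [sum_ind_eq (fun c => D.δ c / 4), sum_ind_eq (fun c => D.δ c / 4),
      D.δ_pi _ (D.phi_mem z)]
    ring
  have hO : ∑ c, (D.δ c / 4) * (ind (D.φ x = c ∨ D.φ x = D.π c) * ind (D.φ y = c ∨ D.φ y = D.π c))
      = D.δ (D.φ x) / 2 * ind (D.φ y = D.φ x ∨ D.φ y = D.π (D.φ x)) := by
    have : ∀ c, (D.δ c / 4) * (ind (D.φ x = c ∨ D.φ x = D.π c) * ind (D.φ y = c ∨ D.φ y = D.π c))
      = (D.δ c / 4 * ind (D.φ y = c ∨ D.φ y = D.π c)) * ind (D.φ x = c)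
        + (D.δ c / 4 * ind (D.φ y = c ∨ D.φ y = D.π c)) * ind (D.π (D.φ x) = c) := by
      intro c
      rw [h0 x]; ring
    simp_rw [this, Finset.sum_add_distrib]
    rw [sum_ind_eq (fun c => D.δ c / 4 * ind (D.φ y = c ∨ D.φ y = D.π c)),
      sum_ind_eq (fun c => D.δ c / 4 * ind (D.φ y = c ∨ D.φ y = D.π c)),
      D.δ_pi _ (D.phi_mem x), D.invol]
    have : (D.φ y = D.π (D.φ x) ∨ D.φ y = D.φ x) = (D.φ y = D.φ x ∨ D.φ y = D.π (D.φ x)) :=
      propext or_comm
    rw [this]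
    ring
  simp_rw [mul_sub, mul_add, Finset.sum_sub_distrib, Finset.sum_add_distrib, hN]
  have : ∀ c, (D.δ c / 4) * (2 * (ind (D.φ x = c ∨ D.φ x = D.π c) * ind (D.φ y = c ∨ D.φ y = D.π c)))
    = 2 * ((D.δ c / 4) * (ind (D.φ x = c ∨ D.φ x = D.π c) * ind (D.φ y = c ∨ D.φ y = D.π c))) := by
    intro c; ring
  simp_rw [this, ← Finset.mul_sum, hO]
  ring

theorem famP (x y : V) (w : V → ℝ) :
    (∑ c, w c * (ind (D.φ x = c) + ind (D.φ y = c) - 2 * (ind (D.φ x = c) * ind (D.φ y = c))))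
    = w (D.φ x) + w (D.φ y) - 2 * w (D.φ x) * ind (D.φ y = D.φ x) := by
  have : ∀ c, w c * (ind (D.φ x = c) + ind (D.φ y = c) - 2 * (ind (D.φ x = c) * ind (D.φ y = c)))
     = w c * ind (D.φ x = c) + w c * ind (D.φ y = c)
        - (2 * w c * ind (D.φ y = c)) * ind (D.φ x = c) := by
    intro c; ring
  simp_rw [this, Finset.sum_sub_distrib, Finset.sum_add_distrib]
  rw [sum_ind_eq w, sum_ind_eq w, sum_ind_eq (fun c => 2 * w c * ind (D.φ y = c))]

theorem famA (x y : V) (hxy : x ≠ y) (w : V → ℝ) :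
    (∑ c, w c * (ind (x = c) + ind (y = c) - 2 * (ind (x = c) * ind (y = c)))) = w x + w y := by
  have : ∀ c, w c * (ind (x = c) + ind (y = c) - 2 * (ind (x = c) * ind (y = c)))
     = w c * ind (x = c) + w c * ind (y = c)
        - (2 * w c * ind (y = c)) * ind (x = c) := by
    intro c; ring
  simp_rw [this, Finset.sum_sub_distrib, Finset.sum_add_distrib]
  rw [sum_ind_eq w, sum_ind_eq w, sum_ind_eq (fun c => 2 * w c * ind (y = c)),
    ind_false (Ne.symm hxy)]
  ring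

theorem sum_F_left (a : V) : ∑ v, ind (D.F v a) = D.deg a := by
  unfold deg
  refine Finset.sum_congr rfl fun v _ => ?_
  rw [propext (D.F_symm v a)]

theorem famF (x y : V) :
    (∑ p : V × V, (ind (D.F p.1 p.2) / 2) * (ind (D.φ x = p.1 ∨ D.φ x = p.2)
      + ind (D.φ y = p.1 ∨ D.φ y = p.2)
      - 2 * (ind (D.φ x = p.1 ∨ D.φ x = p.2) * ind (D.φ y = p.1 ∨ D.φ y = p.2))))
    = D.deg (D.φ x) + D.deg (D.φ y)
      - 2 * (if D.φ y = D.φ x then D.deg (D.φ x) else ind (D.F (D.φ x) (D.φ y))) := by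
  have h0 : ∀ z v w, ind (D.F v w) * ind (D.φ z = v ∨ D.φ z = w)
      = ind (D.F v w) * ind (D.φ z = v) + ind (D.F v w) * ind (D.φ z = w) := by
    intro z v w
    by_cases h : D.F v w
    · rw [ind_or]
      · ring
      · rintro ⟨h1, h2⟩
        exact D.F_ne v w h (h1.symm.trans h2)
    · rw [ind_false h]; ring
  have hN : ∀ z, ∑ p : V × V, (ind (D.F p.1 p.2) / 2) * ind (D.φ z = p.1 ∨ D.φ z = p.2)
      = D.deg (D.φ z) := by
    intro z
    have : ∀ p : V × V, (ind (D.F p.1 p.2) / 2) * ind (D.φ z = p.1 ∨ D.φ z = p.2)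
      = (ind (D.F p.1 p.2) / 2) * ind (D.φ z = p.1) + (ind (D.F p.1 p.2) / 2) * ind (D.φ z = p.2) := by
      intro p
      have := h0 z p.1 p.2
      linear_combination (1/2) * this
    simp_rw [this, Finset.sum_add_distrib]
    have e1 : ∑ p : V × V, (ind (D.F p.1 p.2) / 2) * ind (D.φ z = p.1) = D.deg (D.φ z) / 2 := by
      rw [Fintype.sum_prod_type_right]
      have : ∀ w, ∑ v, ind (D.F v w) / 2 * ind (D.φ z = v) = ind (D.F (D.φ z) w) / 2 := by
        intro w
        exact sum_ind_eq (fun v => ind (D.F v w) / 2) (D.φ z)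
      simp_rw [this, ← Finset.sum_div]
      rfl
    have e2 : ∑ p : V × V, (ind (D.F p.1 p.2) / 2) * ind (D.φ z = p.2) = D.deg (D.φ z) / 2 := by
      rw [Fintype.sum_prod_type]
      have : ∀ v, ∑ w, ind (D.F v w) / 2 * ind (D.φ z = w) = ind (D.F v (D.φ z)) / 2 := by
        intro v
        exact sum_ind_eq (fun w => ind (D.F v w) / 2) (D.φ z)
      simp_rw [this, ← Finset.sum_div, D.sum_F_left]
    rw [e1, e2]; ring
  have hO : ∑ p : V × V, (ind (D.F p.1 p.2) / 2) *
      (ind (D.φ x = p.1 ∨ D.φ x = p.2) * ind (D.φ y = p.1 ∨ D.φ y = p.2))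
      = if D.φ y = D.φ x then D.deg (D.φ x) else ind (D.F (D.φ x) (D.φ y)) := by
    have : ∀ p : V × V, (ind (D.F p.1 p.2) / 2) *
      (ind (D.φ x = p.1 ∨ D.φ x = p.2) * ind (D.φ y = p.1 ∨ D.φ y = p.2))
      = (ind (D.F p.1 p.2) / 2 * ind (D.φ y = p.1 ∨ D.φ y = p.2)) * ind (D.φ x = p.1)
        + (ind (D.F p.1 p.2) / 2 * ind (D.φ y = p.1 ∨ D.φ y = p.2)) * ind (D.φ x = p.2) := by
      intro p
      have := h0 x p.1 p.2
      linear_combination (ind (D.φ y = p.1 ∨ D.φ y = p.2) / 2) * this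
    simp_rw [this, Finset.sum_add_distrib]
    have e1 : ∑ p : V × V, (ind (D.F p.1 p.2) / 2 * ind (D.φ y = p.1 ∨ D.φ y = p.2)) * ind (D.φ x = p.1)
        = ∑ w, ind (D.F (D.φ x) w) / 2 * ind (D.φ y = D.φ x ∨ D.φ y = w) := by
      rw [Fintype.sum_prod_type_right]
      refine Finset.sum_congr rfl fun w _ => ?_
      exact sum_ind_eq (fun v => ind (D.F v w) / 2 * ind (D.φ y = v ∨ D.φ y = w)) (D.φ x)
    have e2 : ∑ p : V × V, (ind (D.F p.1 p.2) / 2 * ind (D.φ y = p.1 ∨ D.φ y = p.2)) * ind (D.φ x = p.2)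
        = ∑ w, ind (D.F (D.φ x) w) / 2 * ind (D.φ y = D.φ x ∨ D.φ y = w) := by
      rw [Fintype.sum_prod_type]
      refine Finset.sum_congr rfl fun v _ => ?_
      rw [sum_ind_eq (fun w => ind (D.F v w) / 2 * ind (D.φ y = v ∨ D.φ y = w)) (D.φ x)]
      rw [propext (D.F_symm v (D.φ x)), propext (or_comm (a := D.φ y = v))]
    rw [e1, e2]
    split_ifs with h
    · have : ∀ w, ind (D.F (D.φ x) w) / 2 * ind (D.φ y = D.φ x ∨ D.φ y = w) = ind (D.F (D.φ x) w) / 2 := by
        intro w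
        rw [ind_true (Or.inl h)]; ring
      simp_rw [this, ← Finset.sum_div]
      unfold deg
      ring
    · have : ∀ w, ind (D.F (D.φ x) w) / 2 * ind (D.φ y = D.φ x ∨ D.φ y = w)
          = ind (D.F (D.φ x) w) / 2 * ind (D.φ y = w) := by
        intro w
        have : (D.φ y = D.φ x ∨ D.φ y = w) = (D.φ y = w) := by
          apply propext; tauto
        rw [this]
      simp_rw [this]
      rw [sum_ind_eq (fun w => ind (D.F (D.φ x) w) / 2) (D.φ y)]
      ring
  simp_rw [mul_sub, mul_add, Finset.sum_sub_distrib, Finset.sum_add_distrib, hN]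
  have : ∀ p : V × V, (ind (D.F p.1 p.2) / 2) * (2 *
      (ind (D.φ x = p.1 ∨ D.φ x = p.2) * ind (D.φ y = p.1 ∨ D.φ y = p.2)))
    = 2 * ((ind (D.F p.1 p.2) / 2) *
      (ind (D.φ x = p.1 ∨ D.φ x = p.2) * ind (D.φ y = p.1 ∨ D.φ y = p.2))) := by
    intro c; ring
  simp_rw [this, ← Finset.mul_sum, hO]

theorem famE (x y : V) (hxy : x ≠ y) :
    (∑ p : V × V, (D.κ p.1 p.2) * (ind (D.φ x = p.2 ∨ x = p.1)
      + ind (D.φ y = p.2 ∨ y = p.1)
      - 2 * (ind (D.φ x = p.2 ∨ x = p.1) * ind (D.φ y = p.2 ∨ y = p.1))))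
    = D.T (D.φ x) + D.K x + D.T (D.φ y) + D.K y
      - 2 * ((if D.φ y = D.φ x then D.T (D.φ x) else D.κ y (D.φ x)) + D.κ x (D.φ y)) := by
  have h0 : ∀ z u v, D.κ u v * ind (D.φ z = v ∨ z = u)
      = D.κ u v * ind (D.φ z = v) + D.κ u v * ind (z = u) := by
    intro z u v
    by_cases h : D.φ z = v ∧ z = u
    · obtain ⟨h1, h2⟩ := h
      have : D.κ u v = 0 := by rw [← h2, ← h1]; exact D.κ_phi z
      rw [this]; ring
    · rw [ind_or h]; ring
  have hN : ∀ z, ∑ p : V × V, (D.κ p.1 p.2) * ind (D.φ z = p.2 ∨ z = p.1)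
      = D.T (D.φ z) + D.K z := by
    intro z
    have : ∀ p : V × V, (D.κ p.1 p.2) * ind (D.φ z = p.2 ∨ z = p.1)
      = D.κ p.1 p.2 * ind (D.φ z = p.2) + D.κ p.1 p.2 * ind (z = p.1) := fun p => h0 z p.1 p.2
    simp_rw [this, Finset.sum_add_distrib]
    congr 1
    · rw [Fintype.sum_prod_type]
      refine Finset.sum_congr rfl fun u _ => ?_
      exact sum_ind_eq (fun v => D.κ u v) (D.φ z)
    · rw [Fintype.sum_prod_type_right]
      refine Finset.sum_congr rfl fun v _ => ?_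
      exact sum_ind_eq (fun u => D.κ u v) z
  have hO : ∑ p : V × V, (D.κ p.1 p.2) * (ind (D.φ x = p.2 ∨ x = p.1) * ind (D.φ y = p.2 ∨ y = p.1))
      = (if D.φ y = D.φ x then D.T (D.φ x) else D.κ y (D.φ x)) + D.κ x (D.φ y) := by
    have : ∀ p : V × V, (D.κ p.1 p.2) * (ind (D.φ x = p.2 ∨ x = p.1) * ind (D.φ y = p.2 ∨ y = p.1))
      = (D.κ p.1 p.2 * ind (D.φ y = p.2 ∨ y = p.1)) * ind (D.φ x = p.2)
        + (D.κ p.1 p.2 * ind (D.φ y = p.2 ∨ y = p.1)) * ind (x = p.1) := by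
      intro p
      have := h0 x p.1 p.2
      linear_combination (ind (D.φ y = p.2 ∨ y = p.1)) * this
    simp_rw [this, Finset.sum_add_distrib]
    congr 1
    · have e1 : ∑ p : V × V, (D.κ p.1 p.2 * ind (D.φ y = p.2 ∨ y = p.1)) * ind (D.φ x = p.2)
          = ∑ u, D.κ u (D.φ x) * ind (D.φ y = D.φ x ∨ y = u) := by
        rw [Fintype.sum_prod_type]
        refine Finset.sum_congr rfl fun u _ => ?_
        exact sum_ind_eq (fun v => D.κ u v * ind (D.φ y = v ∨ y = u)) (D.φ x)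
      rw [e1]
      split_ifs with h
      · unfold T
        refine Finset.sum_congr rfl fun u _ => ?_
        rw [ind_true (Or.inl h), mul_one]
      · have : ∀ u, D.κ u (D.φ x) * ind (D.φ y = D.φ x ∨ y = u) = D.κ u (D.φ x) * ind (y = u) := by
          intro u
          have : (D.φ y = D.φ x ∨ y = u) = (y = u) := by
            apply propext; tauto
          rw [this]
        simp_rw [this]
        exact sum_ind_eq (fun u => D.κ u (D.φ x)) y
    · have e1 : ∑ p : V × V, (D.κ p.1 p.2 * ind (D.φ y = p.2 ∨ y = p.1)) * ind (x = p.1)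
          = ∑ v, D.κ x v * ind (D.φ y = v ∨ y = x) := by
        rw [Fintype.sum_prod_type_right]
        refine Finset.sum_congr rfl fun v _ => ?_
        exact sum_ind_eq (fun u => D.κ u v * ind (D.φ y = v ∨ y = u)) x
      rw [e1]
      have : ∀ v, D.κ x v * ind (D.φ y = v ∨ y = x) = D.κ x v * ind (D.φ y = v) := by
        intro v
        have : (D.φ y = v ∨ y = x) = (D.φ y = v) := by
          apply propext
          constructor
          · rintro (h | h)
            · exact h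
            · exact absurd h.symm hxy
          · exact Or.inl
        rw [this]
      simp_rw [this]
      exact sum_ind_eq (fun v => D.κ x v) (D.φ y)
  simp_rw [mul_sub, mul_add, Finset.sum_sub_distrib, Finset.sum_add_distrib, hN]
  have : ∀ p : V × V, (D.κ p.1 p.2) * (2 * (ind (D.φ x = p.2 ∨ x = p.1) * ind (D.φ y = p.2 ∨ y = p.1)))
    = 2 * ((D.κ p.1 p.2) * (ind (D.φ x = p.2 ∨ x = p.1) * ind (D.φ y = p.2 ∨ y = p.1))) := by
    intro c; ring
  simp_rw [this, ← Finset.mul_sum, hO]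
  ring

/-- the distance formula -/
theorem dist_eq (x y : V) (hxy : x ≠ y) :
    D.dist x y = D.δ (D.φ x) + D.Rx x + D.δ (D.φ y) + D.Rx y
      - D.δ (D.φ x) * ind (D.φ y = D.φ x ∨ D.φ y = D.π (D.φ x))
      - D.δ (D.φ x) * ind (D.φ y = D.φ x)
      - 2 * (if D.φ y = D.φ x then 0 else ind (D.F (D.φ x) (D.φ y)) + D.κ y (D.φ x) + D.κ x (D.φ y)) := by
  unfold dist
  rw [D.famQ, D.famP, D.famF, D.famE x y hxy, famA x y hxy (fun u => D.Rx u - D.K u)]
  by_cases h : D.φ y = D.φ x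
  · simp only [if_pos h, ind_true h]
    rw [h, D.κ_phi x]
    ring
  · simp only [if_neg h, ind_false h]
    ring

theorem dist_same (x y : V) (hxy : x ≠ y) (h : D.φ y = D.φ x) : D.dist x y = D.Rx x + D.Rx y := by
  rw [D.dist_eq x y hxy, if_pos h, ind_true h, ind_true (Or.inl h), h]
  ring

theorem dist_pair (x y : V) (hxy : x ≠ y) (h : D.φ y = D.π (D.φ x)) :
    D.dist x y = D.δ (D.φ x) + D.Rx x + D.Rx y - 2 * (D.κ y (D.φ x) + D.κ x (D.φ y)) := by
  have h1 : D.φ y ≠ D.φ x := by rw [h]; exact D.phi_mem x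
  have h2 : ¬ D.F (D.φ x) (D.φ y) := fun hF => hF.2.2.2 h
  rw [D.dist_eq x y hxy, if_neg h1, ind_false h1, ind_true (Or.inr h), ind_false h2, h,
    D.δ_pi _ (D.phi_mem x)]
  ring

theorem dist_far (x y : V) (hxy : x ≠ y) (h1 : D.φ y ≠ D.φ x) (h2 : D.φ y ≠ D.π (D.φ x)) :
    D.dist x y = D.δ (D.φ x) + D.δ (D.φ y) + D.Rx x + D.Rx y
      - 2 * (ind (D.F (D.φ x) (D.φ y)) + D.κ y (D.φ x) + D.κ x (D.φ y)) := by
  rw [D.dist_eq x y hxy, if_neg h1, ind_false h1,
    ind_false (by rintro (h | h); exacts [h1 h, h2 h])]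
  ring

theorem dist_comm (x y : V) : D.dist x y = D.dist y x := by
  unfold dist
  congr 1
  · congr 1
    · congr 1
      · congr 1
        · exact Finset.sum_congr rfl fun _ _ => by ring
        · exact Finset.sum_congr rfl fun _ _ => by ring
      · exact Finset.sum_congr rfl fun _ _ => by ring
    · exact Finset.sum_congr rfl fun _ _ => by ring
  · exact Finset.sum_congr rfl fun _ _ => by ring

theorem κ_nadj (u v : V) (h : ¬ G.Adj u v) : D.κ u v = 0 := by
  unfold κ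
  rw [if_neg]
  rintro ⟨_, _, h', _⟩
  exact h h'

theorem κ_pair_adj (u v : V) (hu : ¬ D.core u) (hv : v = D.π (D.φ u)) (h : G.Adj u v) :
    D.κ u v = 1 := by
  have hne : v ≠ D.φ u := by rw [hv]; exact D.phi_mem u
  have hc : D.core v := by rw [hv]; exact D.core_pi _ (D.phi_mem u)
  have hr : D.ρ v = D.ρ (D.φ u) := by rw [hv]; exact D.rho_pi _ (D.phi_mem u)
  unfold κ
  rw [if_pos ⟨hc, hu, h, hne⟩, if_pos hr]
  ring

theorem κ_pair_le (u v : V) (hv : v = D.π (D.φ u)) : D.κ u v ≤ 1 := by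
  by_cases hu : D.core u
  · rw [D.κ_core u v hu]; norm_num
  · by_cases h : G.Adj u v
    · rw [D.κ_pair_adj u v hu hv h]
    · rw [D.κ_nadj u v h]; norm_num

theorem κ_far_adj (u v : V) (hu : ¬ D.core u) (hc : D.core v) (h1 : v ≠ D.φ u)
    (h2 : v ≠ D.π (D.φ u)) (h : G.Adj u v) : D.κ u v = D.δ (D.φ u) / 2 + 1 := by
  unfold κ
  rw [if_pos ⟨hc, hu, h, h1⟩, if_neg]
  intro hr
  rcases (D.rho_iff v (D.φ u) hc (D.phi_mem u)).mp hr with h' | h'
  · exact h1 h'.symm
  · exact h2 (by rw [h', D.invol])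

theorem κ_far_le [Nonempty V] (u v : V) (hc : D.core v) (h1 : v ≠ D.φ u)
    (h2 : v ≠ D.π (D.φ u)) : D.κ u v ≤ D.δ (D.φ u) / 2 + 1 := by
  have := D.δ_pos (D.φ u)
  by_cases hu : D.core u
  · rw [D.κ_core u v hu]; linarith
  · by_cases h : G.Adj u v
    · rw [D.κ_far_adj u v hu hc h1 h2 h]
    · rw [D.κ_nadj u v h]; linarith

/-- the radii -/
noncomputable def rad (v : V) : ℝ := if D.core v then D.δ v else D.R

theorem phi_of_core {v : V} (h : D.core v) : D.φ v = v := D.phi_core v h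

theorem not_adj_of_not_core {x y : V} (hx : ¬ D.core x) (hy : ¬ D.core y) : ¬ G.Adj x y :=
  D.indep x y (not_not.mp hx) (not_not.mp hy)

theorem two_δ_le_R [Nonempty V] (x : V) : D.δ (D.φ x) + D.δ (D.φ x) ≤ D.R := by
  unfold R
  have h2 : 0 ≤ ∑ u, D.K u := Finset.sum_nonneg fun u _ => Finset.sum_nonneg fun v _ => D.κ_nonneg u v
  have h1 : D.δ (D.φ x) + D.δ (D.π (D.φ x)) ≤ ∑ v, D.δ v := by
    rw [← Finset.sum_pair (D.phi_mem x).symm]
    exact Finset.sum_le_sum_of_subset_of_nonneg (Finset.subset_univ _) fun v _ _ => (D.δ_pos v).le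
  rw [D.δ_pi _ (D.phi_mem x)] at h1
  linarith

/-- distance between two matched vertices -/
theorem dist_cc [Nonempty V] (x y : V) (hxy : x ≠ y) (hx : D.core x) (hy : D.core y)
    (h : y ≠ D.π x) : D.dist x y = D.δ x + D.δ y - 2 * ind (G.Adj x y) := by
  have e1 := D.phi_of_core hx
  have e2 := D.phi_of_core hy
  have hF : D.F x y = G.Adj x y := propext ⟨fun h => h.2.2.1, fun h' => ⟨hx, hy, h', h⟩⟩
  rw [D.dist_far x y hxy (by rw [e1, e2]; exact hxy.symm) (by rw [e1, e2]; exact h),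
    e1, e2, D.κ_core y x hy, D.κ_core x y hx, hF]
  unfold Rx
  rw [if_pos hx, if_pos hy]
  ring

theorem dist_cp [Nonempty V] (x : V) (hx : D.core x) : D.dist x (D.π x) = D.δ x := by
  have e1 := D.phi_of_core hx
  have hy := D.core_pi x hx
  have e2 := D.phi_of_core hy
  rw [D.dist_pair x (D.π x) (Ne.symm hx) (by rw [e1, e2]), e1, e2, D.κ_core _ _ hx,
    D.κ_core _ _ hy]
  unfold Rx
  rw [if_pos hx, if_pos hy]
  ring

/-- matched `x`, unmatched `y` -/
theorem dist_cu_same (x y : V) (hx : D.core x) (hy : ¬ D.core y) (h : D.φ y = x) :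
    D.dist x y = D.R := by
  have e1 := D.phi_of_core hx
  have hxy : x ≠ y := fun h' => hy (h' ▸ hx)
  rw [D.dist_same x y hxy (by rw [e1, h])]
  unfold Rx
  rw [if_pos hx, if_neg hy]
  ring

theorem dist_cu_pair (x y : V) (hx : D.core x) (hy : ¬ D.core y) (h : D.φ y = D.π x) :
    D.dist x y = D.δ x + D.R - 2 * ind (G.Adj x y) := by
  have e1 := D.phi_of_core hx
  have hxy : x ≠ y := fun h' => hy (h' ▸ hx)
  rw [D.dist_pair x y hxy (by rw [e1, h]), e1, D.κ_core x _ hx]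
  have h' : x = D.π (D.φ y) := by rw [h, D.invol]
  by_cases hA : G.Adj x y
  · rw [D.κ_pair_adj y x hy h' hA.symm, ind_true hA]
    unfold Rx
    rw [if_pos hx, if_neg hy]
    ring
  · rw [D.κ_nadj y x (fun h => hA h.symm), ind_false hA]
    unfold Rx
    rw [if_pos hx, if_neg hy]
    ring

theorem dist_cu_far_adj (x y : V) (hx : D.core x) (hy : ¬ D.core y)
    (h1 : D.φ y ≠ x) (h2 : D.φ y ≠ D.π x) (hA : G.Adj x y) :
    D.dist x y = D.δ x + D.R - 2 * ind (D.F x (D.φ y)) - 2 := by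
  have e1 := D.phi_of_core hx
  have hxy : x ≠ y := fun h' => hy (h' ▸ hx)
  rw [D.dist_far x y hxy (by rw [e1]; exact h1) (by rw [e1]; exact h2), e1, D.κ_core x _ hx,
    D.κ_far_adj y x hy hx h1.symm (fun h => h2 (by rw [h, D.invol])) hA.symm]
  unfold Rx
  rw [if_pos hx, if_neg hy]
  ring

theorem dist_cu_far_nadj (x y : V) (hx : D.core x) (hy : ¬ D.core y)
    (h1 : D.φ y ≠ x) (h2 : D.φ y ≠ D.π x) (hA : ¬ G.Adj x y) :
    D.dist x y = D.δ x + D.δ (D.φ y) + D.R - 2 * ind (D.F x (D.φ y)) := by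
  have e1 := D.phi_of_core hx
  have hxy : x ≠ y := fun h' => hy (h' ▸ hx)
  rw [D.dist_far x y hxy (by rw [e1]; exact h1) (by rw [e1]; exact h2), e1, D.κ_core x _ hx,
    D.κ_nadj y x (fun h => hA h.symm)]
  unfold Rx
  rw [if_pos hx, if_neg hy]
  ring

/-- two unmatched vertices are at distance at least `2R` -/
theorem dist_uu [Nonempty V] (x y : V) (hxy : x ≠ y) (hx : ¬ D.core x) (hy : ¬ D.core y) :
    D.R + D.R ≤ D.dist x y := by
  by_cases h1 : D.φ y = D.φ x
  · rw [D.dist_same x y hxy h1]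
    unfold Rx
    rw [if_neg hx, if_neg hy]
  · by_cases h2 : D.φ y = D.π (D.φ x)
    · rw [D.dist_pair x y hxy h2]
      have k1 : D.κ y (D.φ x) ≤ 1 := D.κ_pair_le y (D.φ x) (by rw [h2, D.invol])
      have k2 : D.κ x (D.φ y) ≤ 1 := D.κ_pair_le x (D.φ y) h2
      have := D.δ_ge (D.φ x)
      unfold Rx
      rw [if_neg hx, if_neg hy]
      linarith
    · rw [D.dist_far x y hxy h1 h2]
      have i1 := ind_le_one (D.F (D.φ x) (D.φ y))
      have d1 := D.δ_ge (D.φ x)
      have d2 := D.δ_ge (D.φ y)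
      have h3 : D.φ x ≠ D.π (D.φ y) := fun h => h2 (by rw [h, D.invol])
      have k1 := D.κ_far_le y (D.φ x) (D.phi_mem x) (fun h => h1 h.symm) h3
      have k2 := D.κ_far_le x (D.φ y) (D.phi_mem y) h1 h2
      have key : D.κ y (D.φ x) = 0 ∨ D.κ x (D.φ y) = 0 := by
        by_contra hcon
        push Not at hcon
        obtain ⟨c1, c2⟩ := hcon
        have a1 : G.Adj y (D.φ x) := by
          by_contra h; exact c1 (D.κ_nadj _ _ h)
        have a2 : G.Adj x (D.φ y) := by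
          by_contra h; exact c2 (D.κ_nadj _ _ h)
        have l1 := D.rho_min y (D.φ x) (not_not.mp hy) (D.phi_mem x) a1
        have l2 := D.rho_min x (D.φ y) (not_not.mp hx) (D.phi_mem y) a2
        have := le_antisymm l2 l1
        rcases (D.rho_iff _ _ (D.phi_mem x) (D.phi_mem y)).mp this with h' | h'
        · exact h1 h'
        · exact h2 h'
      unfold Rx
      rw [if_neg hx, if_neg hy]
      rcases key with h | h
      · rw [h]; linarith
      · rw [h]; linarith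

theorem rad_core {v : V} (h : D.core v) : D.rad v = D.δ v := if_pos h
theorem rad_ncore {v : V} (h : ¬ D.core v) : D.rad v = D.R := if_neg h

theorem main_cu [Nonempty V] (x y : V) (hx : D.core x) (hy : ¬ D.core y) :
    (D.rad x ≤ D.dist x y ∧ D.rad y ≤ D.dist x y) ∧
    (G.Adj x y → D.dist x y < D.rad x + D.rad y) ∧
    (¬ G.Adj x y → D.rad x + D.rad y ≤ D.dist x y) := by
  rw [D.rad_core hx, D.rad_ncore hy]
  have d1 := D.δ_ge x
  have d2 := D.δ_ge (D.φ y)
  have d3 := D.δ_le_R x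
  have d4 := D.two_δ_le_R y
  have i1 := ind_le_one (D.F x (D.φ y))
  have i2 := ind_nonneg (D.F x (D.φ y))
  by_cases h1 : D.φ y = x
  · rw [D.dist_cu_same x y hx hy h1]
    refine ⟨⟨d3, le_rfl⟩, fun _ => by linarith, fun hA => ?_⟩
    have := D.phi_adj y (not_not.mp hy)
    rw [h1] at this
    exact absurd this.symm hA
  · by_cases h2 : D.φ y = D.π x
    · rw [D.dist_cu_pair x y hx hy h2]
      by_cases hA : G.Adj x y
      · rw [ind_true hA]
        exact ⟨⟨by linarith, by linarith⟩, fun _ => by linarith, fun h => absurd hA h⟩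
      · rw [ind_false hA]
        exact ⟨⟨by linarith, by linarith⟩, fun h => absurd h hA, fun _ => by linarith⟩
    · by_cases hA : G.Adj x y
      · rw [D.dist_cu_far_adj x y hx hy h1 h2 hA]
        exact ⟨⟨by linarith, by linarith⟩, fun _ => by linarith, fun h => absurd hA h⟩
      · rw [D.dist_cu_far_nadj x y hx hy h1 h2 hA]
        exact ⟨⟨by linarith, by linarith⟩, fun h => absurd h hA, fun _ => by linarith⟩

theorem main [Nonempty V] (x y : V) (hxy : x ≠ y) :
    (D.rad x ≤ D.dist x y ∧ D.rad y ≤ D.dist x y) ∧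
    (G.Adj x y → D.dist x y < D.rad x + D.rad y) ∧
    (¬ G.Adj x y → D.rad x + D.rad y ≤ D.dist x y) := by
  by_cases hx : D.core x
  · by_cases hy : D.core y
    · rw [D.rad_core hx, D.rad_core hy]
      have d1 := D.δ_ge x
      have d2 := D.δ_ge y
      by_cases h : y = D.π x
      · subst h
        rw [D.dist_cp x hx, D.δ_pi x hx]
        exact ⟨⟨le_rfl, le_rfl⟩, fun _ => by linarith, fun h => absurd (D.adj x hx) h⟩
      · rw [D.dist_cc x y hxy hx hy h]
        by_cases hA : G.Adj x y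
        · rw [ind_true hA]
          exact ⟨⟨by linarith, by linarith⟩, fun _ => by linarith, fun h => absurd hA h⟩
        · rw [ind_false hA]
          exact ⟨⟨by linarith, by linarith⟩, fun h => absurd h hA, fun _ => by linarith⟩
    · exact D.main_cu x y hx hy
  · by_cases hy : D.core y
    · have := D.main_cu y x hy hx
      rw [D.dist_comm x y]
      exact ⟨⟨this.1.2, this.1.1⟩, fun h => by have := this.2.1 h.symm; linarith,
        fun h => by have := this.2.2 (fun h' => h h'.symm); linarith⟩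
    · rw [D.rad_ncore hx, D.rad_ncore hy]
      have h1 := D.dist_uu x y hxy hx hy
      have h2 := D.two_δ_le_R x
      have h3 := D.δ_ge (D.φ x)
      exact ⟨⟨by linarith, by linarith⟩, fun h => absurd h (D.not_adj_of_not_core hx hy),
        fun _ => h1⟩

theorem attained [Nonempty V] (x : V) : ∃ y, y ≠ x ∧ D.dist x y = D.rad x := by
  by_cases hx : D.core x
  · exact ⟨D.π x, hx, by rw [D.dist_cp x hx, D.rad_core hx]⟩
  · have hne : D.φ x ≠ x := (D.phi_adj x (not_not.mp hx)).ne'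
    refine ⟨D.φ x, hne, ?_⟩
    rw [D.rad_ncore hx, D.dist_comm]
    exact D.dist_cu_same (D.φ x) x (D.phi_mem x) hx rfl

theorem rad_pos [Nonempty V] (x : V) : 0 < D.rad x := by
  have h2 := D.two_δ_le_R x
  have h3 := D.δ_ge (D.φ x)
  have h4 := D.δ_ge x
  unfold rad
  split_ifs <;> linarith

end Data

/-- such data exist as soon as no vertex is isolated -/
theorem exists_data (G : SimpleGraph V) (hG : ∀ v, ∃ w, G.Adj v w) : Nonempty (Data G) := by
  let P : (V → V) → Prop := fun f => (∀ v, f (f v) = v) ∧ ∀ v, f v ≠ v → G.Adj v (f v)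
  haveI : Nonempty {f : V → V // P f} := ⟨⟨id, fun _ => rfl, fun v h => absurd rfl h⟩⟩
  obtain ⟨⟨f, hf1, hf2⟩, hmax⟩ := Finite.exists_max
    (fun f : {f : V → V // P f} => (Finset.univ.filter (fun v => f.1 v ≠ v)).card)
  have hindep : ∀ u v, f u = u → f v = v → ¬ G.Adj u v := by
    intro u v hu hv hA
    have huv : u ≠ v := hA.ne
    let g : V → V := fun x => if x = u then v else if x = v then u else f x
    have gu : g u = v := by simp [g]
    have gv : g v = u := by simp [g]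
    have gx : ∀ x, x ≠ u → x ≠ v → g x = f x := fun x h1 h2 => by simp [g, h1, h2]
    have hg1 : ∀ x, g (g x) = x := by
      intro x
      by_cases h1 : x = u
      · rw [h1, gu, gv]
      by_cases h2 : x = v
      · rw [h2, gv, gu]
      rw [gx x h1 h2, gx (f x) (fun h => h1 (by rw [← hf1 x, h, hu]))
        (fun h => h2 (by rw [← hf1 x, h, hv])), hf1]
    have hg2 : ∀ x, g x ≠ x → G.Adj x (g x) := by
      intro x hx
      by_cases h1 : x = u
      · rw [h1, gu]; exact hA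
      by_cases h2 : x = v
      · rw [h2, gv]; exact hA.symm
      rw [gx x h1 h2] at hx ⊢
      exact hf2 x hx
    have := hmax ⟨g, hg1, hg2⟩
    have hlt : (Finset.univ.filter (fun v => f v ≠ v)).card
        < (Finset.univ.filter (fun v => g v ≠ v)).card := by
      apply Finset.card_lt_card
      rw [Finset.ssubset_iff_of_subset]
      · refine ⟨u, ?_, ?_⟩
        · simp [gu, huv.symm]
        · simp [hu]
      · intro x hx
        simp only [Finset.mem_filter, Finset.mem_univ, true_and] at hx ⊢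
        have h1 : x ≠ u := fun h => hx (by rw [h, hu])
        have h2 : x ≠ v := fun h => hx (by rw [h, hv])
        rw [gx x h1 h2]; exact hx
    simp only at this
    omega
  let e : V ≃ Fin (Fintype.card V) := Fintype.equivFin V
  let ρ : V → ℕ := fun v => min (e v : ℕ) (e (f v) : ℕ)
  have hinj : ∀ v w, ((e v : ℕ) = (e w : ℕ)) → v = w := fun v w h => e.injective (Fin.ext h)
  have hex : ∀ v, ∃ w, (f v ≠ v → w = v) ∧ f w ≠ w ∧ (f v = v → G.Adj v w) ∧
      (∀ u, f v = v → f u ≠ u → G.Adj v u → ρ w ≤ ρ u) := by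
    intro v
    by_cases hv : f v = v
    · haveI : Nonempty {w // G.Adj v w} := by
        obtain ⟨w, hw⟩ := hG v
        exact ⟨⟨w, hw⟩⟩
      obtain ⟨⟨w, hw⟩, hmin⟩ := Finite.exists_min (fun w : {w // G.Adj v w} => ρ w.1)
      refine ⟨w, fun h => absurd hv h, fun h => hindep v w hv h hw, fun _ => hw,
        fun u _ _ hu => hmin ⟨u, hu⟩⟩
    · exact ⟨v, fun _ => rfl, hv, fun h => absurd h hv, fun u h => absurd h hv⟩
  choose φ hφ using hex
  refine ⟨⟨f, φ, ρ, hf1, hf2, hindep, fun v h => (hφ v).1 h, fun v => (hφ v).2.1,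
    fun v h => (hφ v).2.2.1 h, ?_, fun u v h1 h2 h3 => (hφ u).2.2.2 v h1 h2 h3⟩⟩
  intro v w _ _
  constructor
  · intro h
    have h' : min (e v : ℕ) (e (f v) : ℕ) = min (e w : ℕ) (e (f w) : ℕ) := h
    rcases min_choice (e v : ℕ) (e (f v) : ℕ) with h1 | h1 <;>
      rcases min_choice (e w : ℕ) (e (f w) : ℕ) with h2 | h2 <;> rw [h1, h2] at h'
    · exact Or.inl (hinj _ _ h').symm
    · right; rw [hinj _ _ h', hf1]
    · exact Or.inr (hinj _ _ h').symm
    · left
      have := hinj _ _ h'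
      rw [← hf1 w, ← this, hf1]
  · rintro (h | h)
    · rw [h]
    · subst h
      simp only [ρ, hf1]
      exact min_comm _ _

end Pool.Agent.Q225.Sig
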