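import Pool.Agent.Q225.VarDefs

set_option autoImplicit false

namespace Pool.Agent.Q225.Variety

open Finset Classical

variable {U : Type} (G : SimpleGraph U)

theorem mem_cliques {W c : Finset U} : c ∈ cliques G W ↔ c ⊆ W ∧ G.IsClique (c : Set U) := by
  simp [cliques]

theorem mem_sphere {W : Finset U} {x y : U} : y ∈ sphere G W x ↔ y ∈ W ∧ G.Adj x y := by
  simp [sphere]

/-- signed number of cliques, the empty one included -/
noncomputable def f (W : Finset U) : ℤ := ∑ c ∈ cliques G W, (-1) ^ c.card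

/-- signed number of cliques containing `c` -/
noncomputable def u (W c : Finset U) : ℤ := ∑ a ∈ (cliques G W).filter (fun a => c ⊆ a), (-1) ^ a.card

theorem u_empty (W : Finset U) : u G W ∅ = f G W := by
  unfold u f
  rw [Finset.filter_true_of_mem]
  intro a _
  exact Finset.empty_subset a

theorem cliques_sphere {W : Finset U} {x : U} (hx : x ∈ W) (a : Finset U) (ha : x ∉ a) :
    a ∈ cliques G (sphere G W x) ↔ insert x a ∈ cliques G W := by
  rw [mem_cliques, mem_cliques, Finset.insert_subset_iff, Finset.coe_insert,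
    SimpleGraph.isClique_insert]
  constructor
  · rintro ⟨h1, h2⟩
    exact ⟨⟨hx, fun y hy => ((mem_sphere G).mp (h1 hy)).1⟩, h2,
      fun y hy _ => ((mem_sphere G).mp (h1 hy)).2⟩
  · rintro ⟨⟨_, h1⟩, h2, h3⟩
    exact ⟨fun y hy => (mem_sphere G).mpr ⟨h1 hy, h3 y hy (fun h => ha (h ▸ hy))⟩, h2⟩

theorem not_mem_of_cliques_sphere {W : Finset U} {x : U} {a : Finset U}
    (h : a ∈ cliques G (sphere G W x)) : x ∉ a := by
  intro hx
  have := (mem_sphere G).mp (((mem_cliques G).mp h).1 hx)
  exact G.loopless.irrefl _ this.2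

/-- cliques through `x` containing `c ∋ x` -/
theorem sum_through {W c : Finset U} {x : U} (hx : x ∈ W) (hxc : x ∈ c) (g : ℕ → ℤ) :
    ∑ a ∈ (cliques G W).filter (fun a => c ⊆ a), g a.card
      = ∑ a ∈ (cliques G (sphere G W x)).filter (fun a => c.erase x ⊆ a), g (a.card + 1) := by
  symm
  refine Finset.sum_bij' (fun a _ => insert x a) (fun a _ => a.erase x) ?_ ?_ ?_ ?_ ?_
  · intro a ha
    rw [Finset.mem_filter] at ha ⊢
    have h1 := not_mem_of_cliques_sphere G ha.1
    refine ⟨(cliques_sphere G hx a h1).mp ha.1, ?_⟩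
    intro y hy
    by_cases hyx : y = x
    · rw [hyx]; exact Finset.mem_insert_self _ _
    · exact Finset.mem_insert_of_mem (ha.2 (Finset.mem_erase.mpr ⟨hyx, hy⟩))
  · intro a ha
    rw [Finset.mem_filter] at ha ⊢
    refine ⟨?_, Finset.erase_subset_erase _ ha.2⟩
    rw [cliques_sphere G hx _ (Finset.notMem_erase x a), Finset.insert_erase (ha.2 hxc)]
    exact ha.1
  · intro a ha
    rw [Finset.mem_filter] at ha
    exact Finset.erase_insert (not_mem_of_cliques_sphere G ha.1)
  · intro a ha
    rw [Finset.mem_filter] at ha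
    exact Finset.insert_erase (ha.2 hxc)
  · intro a ha
    rw [Finset.mem_filter] at ha
    rw [Finset.card_insert_of_notMem (not_mem_of_cliques_sphere G ha.1)]

theorem u_through {W c : Finset U} {x : U} (hx : x ∈ W) (hxc : x ∈ c) :
    u G W c = - u G (sphere G W x) (c.erase x) := by
  unfold u
  rw [sum_through G hx hxc (fun n => (-1) ^ n), ← Finset.sum_neg_distrib]
  refine Finset.sum_congr rfl fun a _ => ?_
  rw [pow_succ]; ring

theorem f_step {W : Finset U} {x : U} (hx : x ∈ W) :
    f G W = f G (W.erase x) - f G (sphere G W x) := by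
  have h1 : f G W = ∑ a ∈ (cliques G W).filter (fun a => x ∉ a), (-1 : ℤ) ^ a.card
      + ∑ a ∈ (cliques G W).filter (fun a => ¬ x ∉ a), (-1 : ℤ) ^ a.card := by
    unfold f
    rw [Finset.sum_filter_add_sum_filter_not]
  have h2 : (cliques G W).filter (fun a => x ∉ a) = cliques G (W.erase x) := by
    ext a
    rw [Finset.mem_filter, mem_cliques, mem_cliques, Finset.subset_erase]
    tauto
  have h3 : ∑ a ∈ (cliques G W).filter (fun a => ¬ x ∉ a), (-1 : ℤ) ^ a.card = u G W {x} := by
    unfold u
    refine Finset.sum_congr ?_ fun _ _ => rfl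
    ext a
    simp
  rw [h1, h2, h3, u_through G hx (Finset.mem_singleton_self x)]
  have : ({x} : Finset U).erase x = ∅ := by simp
  rw [this, u_empty]
  unfold f
  ring

theorem f_step' {W W' : Finset U} {x : U} (hx : x ∈ W) (hW' : ∀ y, y ∈ W' ↔ y ≠ x ∧ y ∈ W) :
    f G W = f G W' - f G (sphere G W x) := by
  rw [f_step G hx]
  congr 2
  ext y
  rw [hW', Finset.mem_erase]

theorem f_empty : f G ∅ = 1 := by
  unfold f
  have : cliques G (∅ : Finset U) = {∅} := by
    ext a
    rw [mem_cliques, Finset.mem_singleton, Finset.subset_empty]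
    constructor
    · exact fun h => h.1
    · rintro rfl
      exact ⟨rfl, by simp⟩
  rw [this]; simp

theorem f_collapsible {W : Finset U} (h : Collapsible G W) : f G W = 0 := by
  induction h with
  | point x =>
    rw [f_step G (Finset.mem_singleton_self x)]
    have h1 : ({x} : Finset U).erase x = ∅ := by simp
    have h2 : sphere G {x} x = ∅ := by
      ext y
      rw [mem_sphere, Finset.mem_singleton]
      constructor
      · rintro ⟨rfl, h⟩
        exact absurd h (G.loopless.irrefl _)
      · intro h; simp at h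
    rw [h1, h2, f_empty]; ring
  | step W x hx _ _ ih1 ih2 => rw [f_step G hx, ih1, ih2]; ring

theorem f_sphere : ∀ (k : ℕ) (W : Finset U), IsSphere G k W → f G W = (-1) ^ k := by
  intro k
  induction k with
  | zero =>
    intro W h
    have h' : W = ∅ := h
    rw [h', f_empty]; simp
  | succ k ih =>
    intro W h
    obtain ⟨h1, x, hx, hc⟩ : (∀ x ∈ W, IsSphere G k (sphere G W x)) ∧
      ∃ x ∈ W, Collapsible G (W.erase x) := h
    rw [f_step G hx, f_collapsible G hc, ih _ (h1 x hx), pow_succ]
    ring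

theorem clique_erase {W c : Finset U} {x : U} (hc : c ∈ cliques G W) (hx : x ∈ c) :
    c.erase x ∈ cliques G (sphere G W x) := by
  have hxW : x ∈ W := ((mem_cliques G).mp hc).1 hx
  rw [cliques_sphere G hxW _ (Finset.notMem_erase x c), Finset.insert_erase hx]
  exact hc

theorem u_sphere : ∀ (k : ℕ) (W : Finset U), IsSphere G k W → ∀ c ∈ cliques G W,
    u G W c = (-1) ^ k := by
  intro k
  induction k with
  | zero =>
    intro W h c hc
    have h' : W = ∅ := h
    subst h'
    have : c = ∅ := Finset.subset_empty.mp ((mem_cliques G).mp hc).1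
    rw [this, u_empty, f_empty]; simp
  | succ k ih =>
    intro W h c hc
    by_cases hne : c = ∅
    · rw [hne, u_empty, f_sphere G _ _ h]
    · obtain ⟨x, hx⟩ := Finset.nonempty_iff_ne_empty.mpr hne
      have hxW : x ∈ W := ((mem_cliques G).mp hc).1 hx
      rw [u_through G hxW hx, ih _ (h.1 x hxW) _ (clique_erase G hc hx), pow_succ]
      ring

theorem u_dgraph (k : ℕ) (W : Finset U) (h : IsDGraph G k W) (c : Finset U) (hc : c ∈ cliques G W)
    (hne : c.Nonempty) : u G W c = (-1) ^ k := by
  obtain ⟨x, hx⟩ := hne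
  have hxW : x ∈ W := ((mem_cliques G).mp hc).1 hx
  cases k with
  | zero =>
    have h' : W = ∅ := h
    rw [h'] at hxW
    simp at hxW
  | succ k =>
    rw [u_through G hxW hx, u_sphere G k _ (h x hxW) _ (clique_erase G hc hx), pow_succ]
    ring

theorem sphere_comm (W : Finset U) (x y : U) :
    sphere G (sphere G W x) y = sphere G (sphere G W y) x := by
  ext z
  simp only [mem_sphere]
  tauto

/-- singularities are isolated: all unit spheres of a variety are graphs of manifolds -/
theorem dgraph_of_variety (k : ℕ) (W : Finset U) (h : IsVarietyOn G (k + 1) W) (x : U) (hx : x ∈ W) :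
    IsDGraph G k (sphere G W x) := by
  obtain ⟨Sg, hS, hiso, h1, h2⟩ := h
  by_cases hxS : x ∈ Sg
  · have h3 := h2 x hxS
    cases k with
    | zero => exact h3
    | succ k =>
      intro y hy
      rw [mem_sphere] at hy
      have hyS : y ∉ Sg := fun hyS => hiso x hxS y hyS hy.2
      have h4 : IsDGraph G (k + 1) (sphere G W y) := h1 y hy.1 hyS
      rw [sphere_comm]
      exact h4 x ((mem_sphere G).mpr ⟨hx, hy.2.symm⟩)
  · exact h1 x hx hxS

theorem u_variety (k : ℕ) (W : Finset U) (h : IsVarietyOn G (k + 1) W) (c : Finset U)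
    (hc : c ∈ cliques G W) (h2 : 2 ≤ c.card) : u G W c = (-1) ^ (k + 1) := by
  have hne : c.Nonempty := Finset.card_pos.mp (by omega)
  obtain ⟨x, hx⟩ := hne
  have hxW : x ∈ W := ((mem_cliques G).mp hc).1 hx
  have hcard := Finset.card_erase_of_mem hx
  rw [u_through G hxW hx, u_dgraph G k _ (dgraph_of_variety G k W h x hxW) _ (clique_erase G hc hx)
    (Finset.card_pos.mp (by omega)), pow_succ]
  ring

/-! ### Euler characteristic -/

theorem chi_eq (W : Finset U) : chi G W = 1 - f G W := by
  unfold chi f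
  have hmem : ∅ ∈ cliques G W := (mem_cliques G).mpr ⟨Finset.empty_subset _, by simp⟩
  rw [← Finset.add_sum_erase _ _ hmem]
  have h1 : ∀ c ∈ (cliques G W).erase ∅, c.card - 1 ∈ Finset.range W.card := by
    intro c hc
    rw [Finset.mem_erase, mem_cliques] at hc
    have h2 := Finset.card_le_card hc.2.1
    have h3 : 0 < c.card := Finset.card_pos.mpr (Finset.nonempty_iff_ne_empty.mpr hc.1)
    rw [Finset.mem_range]
    omega
  rw [← Finset.sum_fiberwise_of_maps_to h1 (fun c => (-1 : ℤ) ^ c.card)]
  have h4 : ∀ k ∈ Finset.range W.card, (-1 : ℤ) ^ k * (v G W k : ℤ)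
      = - ∑ c ∈ ((cliques G W).erase ∅).filter (fun c => c.card - 1 = k), (-1 : ℤ) ^ c.card := by
    intro k _
    have h5 : ((cliques G W).erase ∅).filter (fun c => c.card - 1 = k)
        = (cliques G W).filter (fun c => c.card = k + 1) := by
      ext c
      simp only [Finset.mem_filter, Finset.mem_erase]
      constructor
      · rintro ⟨⟨h6, h7⟩, h8⟩
        have h3 : 0 < c.card := Finset.card_pos.mpr (Finset.nonempty_iff_ne_empty.mpr h6)
        exact ⟨h7, by omega⟩
      · rintro ⟨h6, h7⟩
        exact ⟨⟨by rintro rfl; simp at h7, h6⟩, by omega⟩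
    rw [h5]
    have h6 : ∑ c ∈ (cliques G W).filter (fun c => c.card = k + 1), (-1 : ℤ) ^ c.card
        = ∑ c ∈ (cliques G W).filter (fun c => c.card = k + 1), (-1 : ℤ) ^ (k + 1) :=
      Finset.sum_congr rfl fun c hc => by rw [(Finset.mem_filter.mp hc).2]
    rw [h6, Finset.sum_const, nsmul_eq_mul, v, pow_succ]
    ring
  rw [Finset.sum_congr rfl h4, Finset.sum_neg_distrib]
  simp

/-- join -/
theorem f_join : ∀ (n : ℕ) (A B : Finset U), A.card = n → Disjoint A B →
    (∀ a ∈ A, ∀ b ∈ B, G.Adj a b) → f G (A ∪ B) = f G A * f G B := by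
  intro n
  induction n using Nat.strong_induction_on with
  | _ n ih =>
    intro A B hA hd hadj
    by_cases hne : A = ∅
    · subst hne
      rw [Finset.empty_union, f_empty, one_mul]
    · obtain ⟨x, hx⟩ := Finset.nonempty_iff_ne_empty.mpr hne
      have hxB : x ∉ B := Finset.disjoint_left.mp hd hx
      have e1 : (A ∪ B).erase x = A.erase x ∪ B := by
        ext y
        simp only [Finset.mem_erase, Finset.mem_union]
        constructor
        · rintro ⟨h1, h2 | h2⟩
          · exact Or.inl ⟨h1, h2⟩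
          · exact Or.inr h2
        · rintro (⟨h1, h2⟩ | h2)
          · exact ⟨h1, Or.inl h2⟩
          · exact ⟨fun h => hxB (h ▸ h2), Or.inr h2⟩
      have e2 : sphere G (A ∪ B) x = sphere G A x ∪ B := by
        ext y
        simp only [mem_sphere, Finset.mem_union]
        constructor
        · rintro ⟨h1 | h1, h2⟩
          · exact Or.inl ⟨h1, h2⟩
          · exact Or.inr h1
        · rintro (⟨h1, h2⟩ | h2)
          · exact ⟨Or.inl h1, h2⟩
          · exact ⟨Or.inr h2, hadj x hx y h2⟩
      have hlt1 : (A.erase x).card < n := by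
        rw [Finset.card_erase_of_mem hx, hA]
        have : 0 < A.card := Finset.card_pos.mpr ⟨x, hx⟩
        omega
      have hsub : sphere G A x ⊆ A.erase x := by
        intro y hy
        rw [mem_sphere] at hy
        exact Finset.mem_erase.mpr ⟨hy.2.ne', hy.1⟩
      have hlt2 : (sphere G A x).card < n := (Finset.card_le_card hsub).trans_lt hlt1
      rw [f_step G (Finset.mem_union_left B hx), e1, e2,
        ih _ hlt1 (A.erase x) B rfl (Finset.disjoint_of_subset_left (Finset.erase_subset _ _) hd)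
          (fun a ha b hb => hadj a (Finset.mem_of_mem_erase ha) b hb),
        ih _ hlt2 (sphere G A x) B rfl
          (Finset.disjoint_of_subset_left (hsub.trans (Finset.erase_subset _ _)) hd)
          (fun a ha b hb => hadj a ((mem_sphere G).mp ha).1 b hb), f_step G hx]
      ring

theorem f_join' (A B W : Finset U) (hW : ∀ y, y ∈ W ↔ y ∈ A ∨ y ∈ B) (hd : Disjoint A B)
    (hadj : ∀ a ∈ A, ∀ b ∈ B, G.Adj a b) : f G W = f G A * f G B := by
  rw [← f_join G _ A B rfl hd hadj]
  congr 1
  ext y
  rw [hW, Finset.mem_union]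

/-! ### Intervals -/

theorem sum_Icc_pow {R : Type} [CommRing R] (z : R) (c m : Finset U) (h : c ⊆ m) :
    ∑ b ∈ Finset.Icc c m, z ^ b.card = z ^ c.card * (1 + z) ^ (m.card - c.card) := by
  rw [Finset.Icc_eq_image_powerset h, Finset.sum_image]
  · have h1 : ∀ t ∈ (m \ c).powerset, z ^ (c ∪ t).card = z ^ c.card * (z ^ t.card * 1 ^ ((m \ c).card - t.card)) := by
      intro t ht
      rw [Finset.mem_powerset] at ht
      have : Disjoint c t := Finset.disjoint_of_subset_right ht Finset.disjoint_sdiff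
      rw [Finset.card_union_of_disjoint this, pow_add, one_pow, mul_one]
    rw [Finset.sum_congr rfl h1, ← Finset.mul_sum, Finset.sum_pow_mul_eq_add_pow,
      Finset.card_sdiff_of_subset h, add_comm z 1]
  · intro s hs t ht hst
    have hs' : s ⊆ m \ c := Finset.mem_powerset.mp hs
    have ht' : t ⊆ m \ c := Finset.mem_powerset.mp ht
    have e : ∀ r, r ⊆ m \ c → (c ∪ r) \ c = r := by
      intro r hr
      rw [Finset.union_sdiff_left]
      exact Finset.sdiff_eq_self_of_disjoint
        (Finset.disjoint_of_subset_left hr Finset.sdiff_disjoint)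
    have hst' : c ∪ s = c ∪ t := hst
    rw [← e s hs', hst', e t ht']

theorem sum_Icc_neg (c m : Finset U) (h : c ⊂ m) :
    ∑ b ∈ Finset.Icc c m, (-1 : ℤ) ^ b.card = 0 := by
  rw [sum_Icc_pow _ _ _ h.subset]
  have := Finset.card_lt_card h
  rw [show (1 : ℤ) + -1 = 0 by norm_num, zero_pow (by omega), mul_zero]

/-- order complexes of families of sets with a common lower bound -/
theorem f_family (c : Finset U) : ∀ (n : ℕ) (P : Finset (Finset U)), P.card = n → (∀ a ∈ P, c ⊂ a) →
    (∀ a ∈ P, ∀ b, c ⊂ b → b ⊆ a → b ∈ P) →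
    f (inclusion U) P = 1 + ∑ a ∈ P, (-1) ^ (a.card + c.card) := by
  intro n
  induction n using Nat.strong_induction_on with
  | _ n ih =>
    intro P hP h1 h2
    by_cases hne : P = ∅
    · subst hne
      rw [f_empty]; simp
    · obtain ⟨m, hm, hmax⟩ := Finset.exists_max_image P Finset.card (Finset.nonempty_iff_ne_empty.mpr hne)
      have hcard := Finset.card_erase_of_mem hm
      have hpos : 0 < P.card := Finset.card_pos.mpr ⟨m, hm⟩
      have hsph : sphere (inclusion U) P m = ((Finset.Icc c m).erase c).erase m := by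
        ext b
        rw [mem_sphere, Finset.mem_erase, Finset.mem_erase, Finset.mem_Icc]
        constructor
        · rintro ⟨hb, hmb | hbm⟩
          · have := hmax b hb
            have := Finset.card_lt_card hmb
            omega
          · exact ⟨hbm.ne, (h1 b hb).ne', (h1 b hb).subset, hbm.subset⟩
        · rintro ⟨h3, h4, h5, h6⟩
          exact ⟨h2 m hm b (lt_of_le_of_ne h5 (Ne.symm h4)) h6, Or.inr (lt_of_le_of_ne h6 h3)⟩
      have hsub : sphere (inclusion U) P m ⊆ P.erase m := by
        intro b hb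
        rw [mem_sphere] at hb
        refine Finset.mem_erase.mpr ⟨?_, hb.1⟩
        rintro rfl
        exact (inclusion U).loopless.irrefl _ hb.2
      have hIH1 := ih (P.erase m).card (by omega) (P.erase m) rfl
        (fun a ha => h1 a (Finset.mem_of_mem_erase ha))
        (fun a ha b hb hba => by
          refine Finset.mem_erase.mpr ⟨?_, h2 a (Finset.mem_of_mem_erase ha) b hb hba⟩
          rintro rfl
          have h3 := hmax a (Finset.mem_of_mem_erase ha)
          have := Finset.eq_of_subset_of_card_le hba h3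
          exact (Finset.mem_erase.mp ha).1 this.symm)
      have hIH2 := ih (sphere (inclusion U) P m).card
        (by have := Finset.card_le_card hsub; omega) (sphere (inclusion U) P m) rfl
        (fun a ha => h1 a ((mem_sphere _).mp ha).1)
        (fun a ha b hb hba => by
          rw [hsph] at ha ⊢
          simp only [Finset.mem_erase, Finset.mem_Icc] at ha ⊢
          refine ⟨?_, hb.ne', hb.subset, hba.trans ha.2.2.2⟩
          rintro rfl
          exact ha.1 (subset_antisymm ha.2.2.2 hba))
      have hcm : c ⊂ m := h1 m hm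
      have hI := sum_Icc_neg c m hcm
      have hc1 : c ∈ Finset.Icc c m := Finset.mem_Icc.mpr ⟨le_rfl, hcm.subset⟩
      have hm1 : m ∈ (Finset.Icc c m).erase c :=
        Finset.mem_erase.mpr ⟨hcm.ne', Finset.mem_Icc.mpr ⟨hcm.subset, le_rfl⟩⟩
      rw [← Finset.add_sum_erase _ _ hc1, ← Finset.add_sum_erase _ _ hm1, ← hsph] at hI
      have hs : (-1 : ℤ) ^ c.card * (-1) ^ c.card = 1 := by
        rw [← mul_pow]; norm_num
      have e2 : ∑ a ∈ sphere (inclusion U) P m, (-1 : ℤ) ^ (a.card + c.card)
          = (∑ a ∈ sphere (inclusion U) P m, (-1 : ℤ) ^ a.card) * (-1) ^ c.card := by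
        rw [Finset.sum_mul]
        exact Finset.sum_congr rfl fun a _ => pow_add _ _ _
      rw [f_step' (W' := P.erase m) _ hm (fun y => Finset.mem_erase), hIH1, hIH2, e2,
        ← Finset.add_sum_erase P _ hm, pow_add]
      linear_combination (-(-1 : ℤ) ^ c.card) * hI + hs

/-- the Euler characteristic of the unit sphere in the refinement -/
theorem curv_eq [Fintype U] (c : Finset U) (hc : c ∈ vert1 G) :
    curv G c = 1 + u G Finset.univ c := by
  have hc' := hc
  unfold vert1 at hc'
  rw [Finset.mem_erase, mem_cliques] at hc'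
  obtain ⟨hc0, -, hcl⟩ := hc'
  have hcne : c.Nonempty := Finset.nonempty_iff_ne_empty.mpr hc0
  unfold curv
  rw [chi_eq]
  have mem1 : ∀ a, a ∈ vert1 G ↔ a ≠ ∅ ∧ G.IsClique (a : Set U) := by
    intro a
    unfold vert1
    rw [Finset.mem_erase, mem_cliques]
    simp
  have hsplit : sphere (inclusion U) (vert1 G) c
      = (vert1 G).filter (fun b => b ⊂ c) ∪ (vert1 G).filter (fun b => c ⊂ b) := by
    ext b
    rw [mem_sphere, Finset.mem_union, Finset.mem_filter, Finset.mem_filter]
    show (b ∈ vert1 G ∧ (c ⊂ b ∨ b ⊂ c)) ↔ _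
    tauto
  have hdisj : Disjoint ((vert1 G).filter (fun b => b ⊂ c)) ((vert1 G).filter (fun b => c ⊂ b)) := by
    rw [Finset.disjoint_left]
    intro a ha hb
    rw [Finset.mem_filter] at ha hb
    exact (ha.2.trans hb.2).ne rfl
  have hjoin := f_join' (inclusion U) _ _ (sphere (inclusion U) (vert1 G) c) (by
    intro y
    rw [hsplit, Finset.mem_union]) hdisj (by
    intro a ha b hb
    rw [Finset.mem_filter] at ha hb
    exact Or.inl (ha.2.trans hb.2))
  rw [hjoin]
  have hlow := f_family (∅ : Finset U) _ ((vert1 G).filter (fun b => b ⊂ c)) rfl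
    (fun a ha => by
      rw [Finset.mem_filter, mem1] at ha
      exact Finset.ssubset_iff_subset_ne.mpr ⟨Finset.empty_subset _, ha.1.1.symm⟩)
    (fun a ha b hb hba => by
      rw [Finset.mem_filter, mem1] at ha ⊢
      exact ⟨⟨hb.ne', ha.1.2.subset (by exact_mod_cast hba)⟩, lt_of_le_of_lt hba ha.2⟩)
  have hhigh := f_family c _ ((vert1 G).filter (fun b => c ⊂ b)) rfl
    (fun a ha => (Finset.mem_filter.mp ha).2)
    (fun a ha b hb hba => by
      rw [Finset.mem_filter, mem1] at ha ⊢
      refine ⟨⟨?_, ha.1.2.subset (by exact_mod_cast hba)⟩, hb⟩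
      rintro rfl
      exact hc0 (Finset.subset_empty.mp hb.subset))
  have hlow2 : f (inclusion U) ((vert1 G).filter (fun b => b ⊂ c)) = - (-1) ^ c.card := by
    have hI := sum_Icc_neg ∅ c (Finset.ssubset_iff_subset_ne.mpr ⟨Finset.empty_subset _, hc0.symm⟩)
    have h1 : ∅ ∈ Finset.Icc ∅ c := Finset.mem_Icc.mpr ⟨le_rfl, Finset.empty_subset _⟩
    have h2 : c ∈ (Finset.Icc ∅ c).erase ∅ :=
      Finset.mem_erase.mpr ⟨hc0, Finset.mem_Icc.mpr ⟨Finset.empty_subset _, le_rfl⟩⟩
    have h3 : ((Finset.Icc ∅ c).erase ∅).erase c = (vert1 G).filter (fun b => b ⊂ c) := by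
      ext b
      rw [Finset.mem_erase, Finset.mem_erase, Finset.mem_Icc, Finset.mem_filter, mem1]
      constructor
      · rintro ⟨h4, h5, h6, h7⟩
        exact ⟨⟨h5, hcl.subset (by exact_mod_cast h7)⟩, lt_of_le_of_ne h7 h4⟩
      · rintro ⟨⟨h4, h5⟩, h6⟩
        exact ⟨h6.ne, h4, Finset.empty_subset _, h6.subset⟩
    rw [← Finset.add_sum_erase _ _ h1, ← Finset.add_sum_erase _ _ h2, h3] at hI
    rw [hlow]
    simp only [Finset.card_empty, add_zero, pow_zero] at hI ⊢
    linarith
  have hhigh2 : f (inclusion U) ((vert1 G).filter (fun b => c ⊂ b)) = (-1) ^ c.card * u G Finset.univ c := by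
    rw [hhigh]
    unfold u
    have h1 : (cliques G Finset.univ).filter (fun a => c ⊆ a)
        = insert c ((vert1 G).filter (fun b => c ⊂ b)) := by
      ext b
      rw [Finset.mem_filter, Finset.mem_insert, Finset.mem_filter, mem1, mem_cliques]
      constructor
      · rintro ⟨⟨-, h4⟩, h5⟩
        by_cases h6 : b = c
        · exact Or.inl h6
        · refine Or.inr ⟨⟨?_, h4⟩, lt_of_le_of_ne h5 (Ne.symm h6)⟩
          rintro rfl
          exact hc0 (Finset.subset_empty.mp h5)
      · rintro (rfl | ⟨⟨h4, h5⟩, h6⟩)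
        · exact ⟨⟨Finset.subset_univ _, hcl⟩, subset_rfl⟩
        · exact ⟨⟨Finset.subset_univ _, h5⟩, h6.subset⟩
    have h2 : c ∉ (vert1 G).filter (fun b => c ⊂ b) := by
      rw [Finset.mem_filter]
      exact fun h => h.2.ne rfl
    rw [h1, Finset.sum_insert h2, mul_add, Finset.mul_sum, ← mul_pow]
    congr 1
    · norm_num
    · exact Finset.sum_congr rfl fun a _ => by rw [pow_add]; ring
  rw [hlow2, hhigh2]
  have hs : (-1 : ℤ) ^ c.card * (-1) ^ c.card = 1 := by
    rw [← mul_pow]; norm_num
  linear_combination (u G Finset.univ c) * hs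

/-! ### Double counting -/

/-- sum of `z ^ |c|` over the cliques `c` with at least two vertices through `x` -/
noncomputable def T (W : Finset U) (x : U) (z : ℚ) : ℚ :=
  ∑ c ∈ (cliques G W).filter (fun c => x ∈ c ∧ 2 ≤ c.card), z ^ c.card

theorem u_single (W : Finset U) (x : U) (hx : x ∈ W) : ((1 + u G W {x} : ℤ) : ℚ) = T G W x (-1) := by
  unfold u T
  have h1 : (cliques G W).filter (fun a => {x} ⊆ a)
      = insert {x} ((cliques G W).filter (fun c => x ∈ c ∧ 2 ≤ c.card)) := by
    ext b
    rw [Finset.mem_filter, Finset.mem_insert, Finset.mem_filter, Finset.singleton_subset_iff]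
    constructor
    · rintro ⟨h4, h5⟩
      by_cases h6 : b = {x}
      · exact Or.inl h6
      · refine Or.inr ⟨h4, h5, ?_⟩
        have h7 : ({x} : Finset U) ⊂ b :=
          lt_of_le_of_ne (Finset.singleton_subset_iff.mpr h5) (Ne.symm h6)
        have := Finset.card_lt_card h7
        rw [Finset.card_singleton] at this
        omega
    · rintro (rfl | ⟨h4, h5, h6⟩)
      · refine ⟨(mem_cliques G).mpr ⟨Finset.singleton_subset_iff.mpr hx, ?_⟩,
          Finset.mem_singleton_self x⟩
        simp
      · exact ⟨h4, h5⟩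
  have h2 : ({x} : Finset U) ∉ (cliques G W).filter (fun c => x ∈ c ∧ 2 ≤ c.card) := by
    rw [Finset.mem_filter]
    rintro ⟨_, _, h⟩
    rw [Finset.card_singleton] at h
    omega
  rw [h1, Finset.sum_insert h2]
  push_cast
  rw [Finset.card_singleton]
  ring

theorem clique_sub {W a c : Finset U} (ha : a ∈ cliques G W) (h : c ⊆ a) : c ∈ cliques G W := by
  rw [mem_cliques] at ha ⊢
  exact ⟨h.trans ha.1, ha.2.subset (by exact_mod_cast h)⟩

theorem T_eq (W : Finset U) (x : U) (z e : ℚ)
    (hu : ∀ c ∈ cliques G W, 2 ≤ c.card → (u G W c : ℚ) = e) :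
    e * T G W x z = ∑ a ∈ (cliques G W).filter (fun c => x ∈ c ∧ 2 ≤ c.card),
      (-1) ^ a.card * (z * (1 + z) ^ (a.card - 1) - z) := by
  have h1 : e * T G W x z = ∑ c ∈ (cliques G W).filter (fun c => x ∈ c ∧ 2 ≤ c.card),
      ∑ a ∈ (cliques G W).filter (fun a => c ⊆ a), z ^ c.card * (-1) ^ a.card := by
    unfold T
    rw [Finset.mul_sum]
    refine Finset.sum_congr rfl fun c hc => ?_
    rw [Finset.mem_filter] at hc
    rw [← hu c hc.1 hc.2.2, ← Finset.mul_sum, mul_comm]
    unfold u
    push_cast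
    rfl
  rw [h1, Finset.sum_comm' (t' := (cliques G W).filter (fun c => x ∈ c ∧ 2 ≤ c.card))
    (s' := fun a => (Finset.Icc {x} a).erase {x})]
  · refine Finset.sum_congr rfl fun a ha => ?_
    rw [Finset.mem_filter] at ha
    have hxa : ({x} : Finset U) ⊆ a := Finset.singleton_subset_iff.mpr ha.2.1
    have hI := sum_Icc_pow z {x} a hxa
    rw [← Finset.add_sum_erase _ _ (Finset.mem_Icc.mpr ⟨le_rfl, hxa⟩ : {x} ∈ Finset.Icc {x} a),
      Finset.card_singleton, pow_one] at hI
    rw [← Finset.sum_mul]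
    linear_combination ((-1 : ℚ) ^ a.card) * hI
  · intro c a
    simp only [Finset.mem_filter, Finset.mem_erase, Finset.mem_Icc]
    constructor
    · rintro ⟨⟨h2, h3, h4⟩, h5, h6⟩
      have h7 := Finset.card_le_card h6
      refine ⟨⟨?_, Finset.singleton_subset_iff.mpr h3, h6⟩, h5, h6 h3, by omega⟩
      rintro rfl
      rw [Finset.card_singleton] at h4
      omega
    · rintro ⟨⟨h2, h3, h4⟩, h5, h6, h7⟩
      refine ⟨⟨clique_sub G h5 h4, Finset.singleton_subset_iff.mp h3, ?_⟩, h5, h4⟩
      have h8 : ({x} : Finset U) ⊂ c := lt_of_le_of_ne h3 (Ne.symm h2)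
      have := Finset.card_lt_card h8
      rw [Finset.card_singleton] at this
      omega

theorem T_even (W : Finset U) (x : U) (hu : ∀ c ∈ cliques G W, 2 ≤ c.card → (u G W c : ℚ) = -1) :
    T G W x (-1) = 0 := by
  have h := T_eq G W x (-1) (-1) hu
  have h2 : ∑ a ∈ (cliques G W).filter (fun c => x ∈ c ∧ 2 ≤ c.card),
      (-1 : ℚ) ^ a.card * ((-1) * (1 + -1) ^ (a.card - 1) - (-1)) = T G W x (-1) := by
    unfold T
    refine Finset.sum_congr rfl fun a ha => ?_
    rw [Finset.mem_filter] at ha
    rw [show (1 : ℚ) + -1 = 0 by norm_num, zero_pow (by omega)]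
    ring
  rw [h2] at h
  linarith

theorem T_odd (W : Finset U) (x : U) (hu : ∀ c ∈ cliques G W, 2 ≤ c.card → (u G W c : ℚ) = 1) :
    T G W x (-1) = 4 * T G W x (-1 / 2) := by
  have h := T_eq G W x (-1 / 2) 1 hu
  have h2 : ∑ a ∈ (cliques G W).filter (fun c => x ∈ c ∧ 2 ≤ c.card),
      (-1 : ℚ) ^ a.card * ((-1 / 2) * (1 + -1 / 2) ^ (a.card - 1) - (-1 / 2))
        = - T G W x (-1 / 2) + (1 / 2) * T G W x (-1) := by
    unfold T
    rw [Finset.mul_sum, ← Finset.sum_neg_distrib, ← Finset.sum_add_distrib]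
    refine Finset.sum_congr rfl fun a ha => ?_
    rw [Finset.mem_filter] at ha
    obtain ⟨n, hn⟩ : ∃ n, a.card = n + 1 := ⟨a.card - 1, by omega⟩
    rw [hn, Nat.add_sub_cancel, show (1 : ℚ) + -1 / 2 = 1 / 2 by norm_num, pow_succ, pow_succ,
      show (-1 : ℚ) / 2 = (-1) * (1 / 2) by norm_num, mul_pow]
    ring
  rw [h2] at h
  linarith

theorem sum_T (W : Finset U) (z : ℚ) :
    ∑ x ∈ W, T G W x z = ∑ c ∈ (cliques G W).filter (fun c => 2 ≤ c.card), (c.card : ℚ) * z ^ c.card := by
  unfold T
  rw [Finset.sum_comm' (t' := (cliques G W).filter (fun c => 2 ≤ c.card)) (s' := fun c => c)]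
  · exact Finset.sum_congr rfl fun c _ => by rw [Finset.sum_const, nsmul_eq_mul]
  · intro x c
    simp only [Finset.mem_filter]
    constructor
    · rintro ⟨h1, h2, h3, h4⟩
      exact ⟨h3, h2, h4⟩
    · rintro ⟨h1, h2, h3⟩
      exact ⟨((mem_cliques G).mp h2).1 h1, h2, h1, h3⟩

/-- Gauss-Bonnet for a general graph -/
theorem gauss_bonnet (W : Finset U) : ∑ x ∈ W, (chi G (sphere G W x) : ℚ)
    = ∑ k ∈ Finset.Ico 1 W.card, (-1) ^ (k + 1) * (k + 1) * (v G W k : ℚ) := by
  have h1 : ∀ x ∈ W, (chi G (sphere G W x) : ℚ) = T G W x (-1) := by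
    intro x hx
    rw [← u_single G W x hx, chi_eq, u_through G hx (Finset.mem_singleton_self x)]
    have : ({x} : Finset U).erase x = ∅ := by simp
    rw [this, u_empty]
    push_cast
    ring
  rw [Finset.sum_congr rfl h1, sum_T]
  have h2 : ∀ c ∈ (cliques G W).filter (fun c => 2 ≤ c.card), c.card - 1 ∈ Finset.Ico 1 W.card := by
    intro c hc
    rw [Finset.mem_filter, mem_cliques] at hc
    have h2 := Finset.card_le_card hc.1.1
    rw [Finset.mem_Ico]
    omega
  rw [← Finset.sum_fiberwise_of_maps_to h2 (fun c => (c.card : ℚ) * (-1) ^ c.card)]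
  refine Finset.sum_congr rfl fun k hk => ?_
  rw [Finset.mem_Ico] at hk
  have h5 : ((cliques G W).filter (fun c => 2 ≤ c.card)).filter (fun c => c.card - 1 = k)
      = (cliques G W).filter (fun c => c.card = k + 1) := by
    ext c
    simp only [Finset.mem_filter]
    constructor
    · rintro ⟨⟨h6, h7⟩, h8⟩
      exact ⟨h6, by omega⟩
    · rintro ⟨h6, h7⟩
      exact ⟨⟨h6, by omega⟩, by omega⟩
  rw [h5]
  have h6 : ∑ c ∈ (cliques G W).filter (fun c => c.card = k + 1), (c.card : ℚ) * (-1) ^ c.card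
      = ∑ c ∈ (cliques G W).filter (fun c => c.card = k + 1), ((k : ℚ) + 1) * (-1) ^ (k + 1) :=
    Finset.sum_congr rfl fun c hc => by rw [(Finset.mem_filter.mp hc).2]; push_cast; ring
  rw [h6, Finset.sum_const, nsmul_eq_mul, v]
  ring

theorem eta_eq [Fintype U] : (eta G : ℚ) = ∑ c ∈ vert1 G, (curv G c : ℚ) := by
  unfold eta curv
  rw [gauss_bonnet]
  push_cast
  rfl

theorem vert1_split [Fintype U] (g : Finset U → ℚ) : ∑ c ∈ vert1 G, g c
    = ∑ x : U, g {x} + ∑ c ∈ (cliques G Finset.univ).filter (fun c => 2 ≤ c.card), g c := by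
  have h1 : vert1 G = (Finset.univ.image (fun x : U => ({x} : Finset U)))
      ∪ (cliques G Finset.univ).filter (fun c => 2 ≤ c.card) := by
    ext c
    unfold vert1
    rw [Finset.mem_erase, Finset.mem_union, Finset.mem_image, Finset.mem_filter]
    constructor
    · rintro ⟨h1, h2⟩
      by_cases h3 : 2 ≤ c.card
      · exact Or.inr ⟨h2, h3⟩
      · have h4 : 0 < c.card := Finset.card_pos.mpr (Finset.nonempty_iff_ne_empty.mpr h1)
        obtain ⟨x, hx⟩ := Finset.card_eq_one.mp (by omega : c.card = 1)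
        exact Or.inl ⟨x, Finset.mem_univ _, hx.symm⟩
    · rintro (⟨x, _, rfl⟩ | ⟨h1, h2⟩)
      · exact ⟨Finset.singleton_ne_empty x, (mem_cliques G).mpr ⟨Finset.subset_univ _, by simp⟩⟩
      · refine ⟨?_, h1⟩
        rintro rfl
        simp at h2
  rw [h1, Finset.sum_union, Finset.sum_image]
  · intro x _ y _ h
    exact Finset.singleton_injective h
  · rw [Finset.disjoint_left]
    intro c hc hc'
    rw [Finset.mem_image] at hc
    obtain ⟨x, _, rfl⟩ := hc
    rw [Finset.mem_filter, Finset.card_singleton] at hc'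
    omega

theorem single_mem [Fintype U] (x : U) : ({x} : Finset U) ∈ vert1 G := by
  unfold vert1
  exact Finset.mem_erase.mpr ⟨Finset.singleton_ne_empty x,
    (mem_cliques G).mpr ⟨Finset.subset_univ _, by simp⟩⟩

/-- even dimension -/
theorem curv_even [Fintype U] (d : ℕ) (hd : Even d) (h : IsVariety G d) (c : Finset U)
    (hc : c ∈ vert1 G) : curv G c = 0 := by
  have hu : ∀ a ∈ cliques G Finset.univ, 2 ≤ a.card → u G Finset.univ a = -1 := by
    intro a ha h2
    rw [u_variety G d _ h a ha h2, pow_succ, hd.neg_one_pow]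
    norm_num
  have hc' := hc
  unfold vert1 at hc'
  rw [Finset.mem_erase] at hc'
  by_cases h2 : 2 ≤ c.card
  · rw [curv_eq G c hc, hu c hc'.2 h2]; norm_num
  · have h4 : 0 < c.card := Finset.card_pos.mpr (Finset.nonempty_iff_ne_empty.mpr hc'.1)
    obtain ⟨x, rfl⟩ := Finset.card_eq_one.mp (by omega : c.card = 1)
    have h5 := T_even G Finset.univ x (fun a ha h2 => by rw [hu a ha h2]; norm_num)
    rw [← u_single G _ x (Finset.mem_univ x), ← curv_eq G _ hc] at h5
    exact_mod_cast h5

/-- odd dimension -/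
theorem eta_odd [Fintype U] (d : ℕ) (hd : Odd d) (h : IsVariety G d) :
    (eta G : ℚ) = ∑ c ∈ (cliques G Finset.univ).filter (fun c => 2 ≤ c.card),
      (2 + 4 * (c.card : ℚ) * (-1 / 2) ^ c.card) := by
  have hu : ∀ a ∈ cliques G Finset.univ, 2 ≤ a.card → u G Finset.univ a = 1 := by
    intro a ha h2
    rw [u_variety G d _ h a ha h2, pow_succ, hd.neg_one_pow]
    norm_num
  rw [eta_eq, vert1_split]
  have h1 : ∀ x : U, (curv G {x} : ℚ) = 4 * T G Finset.univ x (-1 / 2) := by
    intro x
    rw [curv_eq G _ (single_mem G x), u_single G _ x (Finset.mem_univ x)]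
    exact T_odd G Finset.univ x (fun a ha h2 => by rw [hu a ha h2]; norm_num)
  have h2 : ∀ c ∈ (cliques G Finset.univ).filter (fun c => 2 ≤ c.card), (curv G c : ℚ) = 2 := by
    intro c hc
    rw [Finset.mem_filter] at hc
    rw [curv_eq G c, hu c hc.1 hc.2]
    · norm_num
    · unfold vert1
      refine Finset.mem_erase.mpr ⟨?_, hc.1⟩
      rintro rfl
      simp at hc
  simp_rw [h1]
  rw [← Finset.mul_sum, sum_T, Finset.sum_congr rfl h2, Finset.mul_sum, ← Finset.sum_add_distrib]
  exact Finset.sum_congr rfl fun c _ => by ring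

theorem term_pos (n : ℕ) (hn : 2 ≤ n) : (0 : ℚ) < 2 + 4 * (n : ℚ) * (-1 / 2) ^ n := by
  have h1 : |(4 : ℚ) * (n : ℚ) * (-1 / 2) ^ n| < 2 ∨ n = 2 ∨ n = 4 := by
    rcases Nat.lt_or_ge n 5 with h | h
    · interval_cases n
      · right; left; rfl
      · left; rw [abs_lt]; norm_num
      · right; right; rfl
    · left
      rw [abs_mul, abs_pow, abs_of_nonneg (by positivity : (0 : ℚ) ≤ 4 * n)]
      have h2 : |(-1 / 2 : ℚ)| = 1 / 2 := by rw [abs_of_neg (by norm_num)]; norm_num
      rw [h2, one_div, inv_pow]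
      have h3 : 2 * n < 2 ^ n := by
        induction n, h using Nat.le_induction with
        | base => norm_num
        | succ k hk ih =>
          have := ih (by omega)
          rw [pow_succ]; omega
      have h4 : (2 : ℚ) * n < 2 ^ n := by exact_mod_cast h3
      rw [← div_eq_mul_inv, div_lt_iff₀ (by positivity)]
      linarith
  rcases h1 with h | h | h
  · have := (abs_lt.mp h).1
    linarith
  · subst h; norm_num
  · subst h; norm_num

end Pool.Agent.Q225.Variety
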