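import Mathlib

/-!
Discrete varieties. All graphs are induced subgraphs `H = G[W]` of a graph `G`, given by their finite
vertex sets `W`.
-/

set_option autoImplicit false

namespace Pool.Agent.Q225.Variety

open Finset Classical

variable {U : Type}

/-- the complete subgraphs of `G[W]`, given by their vertex sets; the empty one is included -/
noncomputable def cliques (G : SimpleGraph U) (W : Finset U) : Finset (Finset U) :=
  W.powerset.filter (fun c => G.IsClique (c : Set U))

/-- the number of complete subgraphs of `G[W]` with `k + 1` vertices -/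
noncomputable def v (G : SimpleGraph U) (W : Finset U) (k : ℕ) : ℕ :=
  ((cliques G W).filter (fun c => c.card = k + 1)).card

/-- the Euler characteristic `∑ (-1) ^ k v_k` of `G[W]` (`v_k = 0` if `k` is at least the number of
vertices) -/
noncomputable def chi (G : SimpleGraph U) (W : Finset U) : ℤ :=
  ∑ k ∈ Finset.range W.card, (-1) ^ k * (v G W k : ℤ)

/-- the vertex set of the unit sphere of `x` in `G[W]` -/
noncomputable def sphere (G : SimpleGraph U) (W : Finset U) (x : U) : Finset U :=
  W.filter (fun y => G.Adj x y)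

/-- collapsible graphs -/
inductive Collapsible (G : SimpleGraph U) : Finset U → Prop
  | point (x : U) : Collapsible G {x}
  | step (W : Finset U) (x : U) (hx : x ∈ W) : Collapsible G (W.erase x) →
      Collapsible G (sphere G W x) → Collapsible G W

/-- `IsSphere G (d + 1) W`: the graph `G[W]` is a `d`-sphere, `d ≥ -1` -/
def IsSphere (G : SimpleGraph U) : ℕ → Finset U → Prop
  | 0, W => W = ∅
  | k + 1, W => (∀ x ∈ W, IsSphere G k (sphere G W x)) ∧ ∃ x ∈ W, Collapsible G (W.erase x)

/-- `IsDGraph G (d + 1) W`: the graph `G[W]` is a `d`-graph, `d ≥ -1` -/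
def IsDGraph (G : SimpleGraph U) : ℕ → Finset U → Prop
  | 0, W => W = ∅
  | k + 1, W => ∀ x ∈ W, IsSphere G k (sphere G W x)

/-- `IsVarietyOn G (d + 1) W`: the graph `G[W]` is a `d`-variety, `d ≥ -1` -/
def IsVarietyOn (G : SimpleGraph U) : ℕ → Finset U → Prop
  | 0, W => W = ∅
  | k + 1, W => ∃ Sg ⊆ W, (∀ x ∈ Sg, ∀ y ∈ Sg, ¬ G.Adj x y) ∧
      (∀ x ∈ W, x ∉ Sg → IsDGraph G k (sphere G W x)) ∧
      (∀ x ∈ Sg, IsVarietyOn G k (sphere G W x))

/-- the finite graph `G` is a `d`-variety, `d ≥ 0` -/
def IsVariety [Fintype U] (G : SimpleGraph U) (d : ℕ) : Prop := IsVarietyOn G (d + 1) Finset.univ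

/-- the graph on all finite sets, two of them adjacent if one strictly contains the other -/
def inclusion (U : Type) : SimpleGraph (Finset U) where
  Adj a b := a ⊂ b ∨ b ⊂ a
  symm := ⟨fun _ _ h => h.symm⟩
  loopless := ⟨fun _ h => h.elim (fun h => h.ne rfl) (fun h => h.ne rfl)⟩

/-- the vertices of the Barycentric refinement `G_1` of `G`: the nonempty complete subgraphs. The
graph `G_1` is the subgraph of `inclusion U` induced by this set -/
noncomputable def vert1 [Fintype U] (G : SimpleGraph U) : Finset (Finset U) :=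
  (cliques G Finset.univ).erase ∅

/-- `η(G) = ∑_{k ≥ 1} (-1) ^ (k + 1) (k + 1) v_k(G_1)` (`v_k(G_1) = 0` if `k` is at least the number of
vertices of `G_1`) -/
noncomputable def eta [Fintype U] (G : SimpleGraph U) : ℤ :=
  ∑ k ∈ Finset.Ico 1 (vert1 G).card, (-1) ^ (k + 1) * (k + 1) * (v (inclusion U) (vert1 G) k : ℤ)

/-- the Euler characteristic of the unit sphere of the vertex `c` in the Barycentric refinement -/
noncomputable def curv [Fintype U] (G : SimpleGraph U) (c : Finset U) : ℤ :=
  chi (inclusion U) (sphere (inclusion U) (vert1 G) c)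

end Pool.Agent.Q225.Variety
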